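import Pool.Agent.Helper50.PP.BL2
import Pool.Agent.Helper54.PP.BL1
import Pool.Agent.Helper51.PP.Asm

/-!
# Project M3 (MP_fc6b1e_nt, step 2): bilinear bounds for general sets of primes
-/

set_option autoImplicit false

namespace Pool.Agent.Helper11.M3

open NumberField IsDedekindDomain Finset
open Pool.Agent.Helper51.PP
open Pool.Agent.Helper17.PP (Sys)

open Classical in
/-- Bilinear bound, variable in `Up`, modulus a prime of `Lo`. -/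
theorem blP {p : ℕ} {B B₀ k U Λ C : Type} [Field k] [AddCommGroup U] [Module k U]
    [AddCommGroup Λ] [Module k Λ] [AddCommGroup C] (S : Sys p B B₀ k U Λ C)
    (F : Type) [Field F] [NumberField F] (hU : UniB F) (K₀ ℓ : ℕ)
    (h1 : ∀ j : ℕ, 1 ≤ j → ∑ q ∈ S.blk j, (1 : ℝ) / S.N q ≤ K₀ / j)
    (h2 : ∀ b₀ : B₀, {q | S.bs q = b₀}.Finite ∧ {q | S.bs q = b₀}.ncard ≤ ℓ)
    (E : Type) [Fintype E] (lab : B → E) (𝔪₀ : Ideal (𝓞 F)) (d : ℕ) :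
    ∃ K : ℕ, 1 ≤ K ∧ ∀ (nn : B → Ideal (𝓞 F)) (W : B → HeightOneSpectrum (𝓞 F)) (Up Lo : Set B)
      (X : B → E → Ideal (𝓞 F) → ℂ) (ph : B → B → ℂ),
    (∀ e : E, Chs S F 𝔪₀ nn d {q₁ | q₁ ∈ Up ∧ lab q₁ = e} Lo W (fun q ↦ X q e)) →
    (∀ q ∈ Lo, ∀ q₁ ∈ Up, S.bs q ≠ S.bs q₁ → X q (lab q₁) (W q₁).asIdeal = ph q q₁) →
    ∀ (i j : ℕ) (α β : B → ℂ) (Y : ℝ), 1 ≤ i → 1 ≤ j →
    (i ≠ j ∨ ∀ q ∈ Lo, ∀ q₁ ∈ Up, S.bs q ≠ S.bs q₁) → 0 < Y →
    (∀ q, ‖α q‖ ≤ 1) → (∀ q, ‖β q‖ ≤ 1) →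
    ‖∑ q₁ ∈ S.blk i with q₁ ∈ Up, ∑ q ∈ S.blk j with q ∈ Lo, α q₁ * β q * ph q q₁ *
      (Real.exp (-((S.N q : ℝ) * S.N q₁ / Y)) : ℂ)‖ ≤
      K * 2 ^ (i + j) * (i + j) ^ K * (2 : ℝ) ^ (-(min i j : ℝ) / K) *
        Real.exp (-((2 : ℝ) ^ (i + j) / (2 * Y))) := by
  obtain ⟨K, hK1, hK⟩ := Pool.Agent.Helper51.PP.gen p B B₀ k U Λ C S F hU K₀ ℓ 1 le_rfl h1 h2 𝔪₀ d
  refine ⟨Fintype.card E * K + K, by omega, ?_⟩
  intro nn W Up Lo X ph hChs hval i j α β Y hi hj hij hY hα hβ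
  -- the bases are different
  have hbs : ∀ q ∈ S.blk j, q ∈ Lo → ∀ q₁ ∈ S.blk i, q₁ ∈ Up → S.bs q ≠ S.bs q₁ := by
    intro q hq hqL q₁ hq₁ hqU h
    rcases hij with hij | hij
    · unfold Sys.blk at hq hq₁
      rw [Finset.mem_filter] at hq hq₁
      apply hij
      rw [← hq.2, ← hq₁.2]
      unfold Sys.bl
      rw [S.bsN q q₁ h]
    · exact hij q hqL q₁ hqU h
  set β' : Finset B → ℂ := fun D => if hD : ∃ q, q ∈ S.blk j ∧ q ∈ Lo ∧ D = {q} then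
    β hD.choose else 0 with hβ'
  have hβ1 : ∀ q, q ∈ S.blk j → q ∈ Lo → β' {q} = β q := by
    intro q hq1 hq2
    have hD : ∃ q', q' ∈ S.blk j ∧ q' ∈ Lo ∧ ({q} : Finset B) = {q'} := ⟨q, hq1, hq2, rfl⟩
    simp only [hβ']
    rw [dif_pos hD]
    have h3 := hD.choose_spec.2.2
    rw [Finset.singleton_inj] at h3
    rw [← h3]
  have hβ2 : ∀ D, β' D ≠ 0 → ∃ q, q ∈ S.blk j ∧ q ∈ Lo ∧ D = {q} := by
    intro D hD
    by_contra hcon
    apply hD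
    simp only [hβ']
    rw [dif_neg hcon]
  have hβ3 : ∀ D, ‖β' D‖ ≤ (1 : ℝ) ^ D.card := by
    intro D
    rw [one_pow]
    by_cases hD : ∃ q, q ∈ S.blk j ∧ q ∈ Lo ∧ D = {q}
    · simp only [hβ']
      rw [dif_pos hD]
      exact hβ _
    · simp only [hβ']
      rw [dif_neg hD, norm_zero]
      norm_num
  -- the bound for one label
  have hone : ∀ e : E, ‖∑ q₁ ∈ S.blk i with (q₁ ∈ Up ∧ lab q₁ = e),
      ∑ q ∈ S.blk j with q ∈ Lo,
      α q₁ * β q * ph q q₁ * (Real.exp (-((S.N q : ℝ) * S.N q₁ / Y)) : ℂ)‖ ≤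
      K * 2 ^ (j + i) * ((j : ℝ) + 1) ^ K * (2 : ℝ) ^ (-(min (j : ℝ) i) / K) *
        Real.exp (-((2 : ℝ) ^ (j + i) / (2 * Y))) := by
    intro e
    have hCe := hChs e
    generalize hUp : {q₁ | q₁ ∈ Up ∧ lab q₁ = e} = Up' at hCe
    have hUp' : ∀ q₁, q₁ ∈ Up' ↔ q₁ ∈ Up ∧ lab q₁ = e := by
      intro q₁
      rw [← hUp]
      exact Iff.rfl
    have h3 := hK nn Up' Lo W (fun q => X q e)
      hCe j i α β' Y hi hY hα hβ3 (by
        intro D hD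
        obtain ⟨q, hq1, hq2, rfl⟩ := hβ2 D hD
        refine ⟨?_, ?_⟩
        · rw [Finset.coe_singleton]
          exact Set.injOn_singleton _ _
        · intro q' hq'
          rw [Finset.mem_singleton] at hq'
          rw [hq']
          exact hq2)
    refine le_trans (le_of_eq ?_) h3
    congr 1
    refine Finset.sum_congr ?_ ?_
    · ext q₁
      constructor
      · intro hP
        have hP' := Finset.mem_filter.1 hP
        exact Finset.mem_filter.2 ⟨hP'.1, (hUp' q₁).2 hP'.2⟩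
      · intro hP
        have hP' := Finset.mem_filter.1 hP
        exact Finset.mem_filter.2 ⟨hP'.1, (hUp' q₁).1 hP'.2⟩
    · intro q₁ hP
      obtain ⟨hP1, hP23⟩ := Finset.mem_filter.1 hP
      obtain ⟨hP2, hP3⟩ := (hUp' q₁).1 hP23
      have hinj : Function.Injective (fun q : B => ({q} : Finset B)) :=
        fun a b hab => Finset.singleton_injective hab
      have hsub : (((S.blk j).filter fun q => q ∈ Lo).image fun q : B => ({q} : Finset B)) ⊆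
          S.mods j := by
        intro D hD
        rw [Finset.mem_image] at hD
        obtain ⟨q, hq, rfl⟩ := hD
        rw [Finset.mem_filter] at hq
        exact Pool.Agent.Helper50.PP.mem_blk S hq.1
      rw [← Finset.sum_subset hsub]
      · rw [Finset.sum_image (fun a _ b _ hab => hinj hab)]
        refine Finset.sum_congr rfl ?_
        intro q hq
        rw [Finset.mem_filter] at hq
        rw [hβ1 q hq.1 hq.2, Finset.prod_singleton]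
        have h4 : X q e (W q₁).asIdeal = ph q q₁ := by
          rw [← hP3]
          exact hval q hq.2 q₁ hP2 (hbs q hq.1 hq.2 q₁ hP1 hP2)
        have h5 : S.nm {q} = S.N q := Finset.prod_singleton _ _
        rw [h4, h5, mul_comm (S.N q : ℝ)]
      · intro D _ hD
        have h6 : β' D = 0 := by
          by_contra hne
          obtain ⟨q, hq1, hq2, rfl⟩ := hβ2 D hne
          apply hD
          rw [Finset.mem_image]
          exact ⟨q, Finset.mem_filter.2 ⟨hq1, hq2⟩, rfl⟩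
        rw [h6]
        ring
  -- the sum over the labels
  have hsplit : (∑ q₁ ∈ S.blk i with q₁ ∈ Up, ∑ q ∈ S.blk j with q ∈ Lo,
      α q₁ * β q * ph q q₁ * (Real.exp (-((S.N q : ℝ) * S.N q₁ / Y)) : ℂ)) =
      ∑ e : E, ∑ q₁ ∈ S.blk i with (q₁ ∈ Up ∧ lab q₁ = e), ∑ q ∈ S.blk j with q ∈ Lo,
      α q₁ * β q * ph q q₁ * (Real.exp (-((S.N q : ℝ) * S.N q₁ / Y)) : ℂ) := by
    rw [← Finset.sum_fiberwise ((S.blk i).filter fun q₁ => q₁ ∈ Up) lab]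
    refine Finset.sum_congr rfl fun e _ => ?_
    rw [Finset.filter_filter]
  rw [hsplit]
  refine (norm_sum_le _ _).trans ((Finset.sum_le_sum fun e _ => hone e).trans ?_)
  rw [Finset.sum_const, Finset.card_univ, nsmul_eq_mul]
  set n := Fintype.card E with hn
  have hexp := Real.exp_pos (-((2 : ℝ) ^ (i + j) / (2 * Y)))
  have hK0 : (0 : ℝ) < K := by exact_mod_cast hK1
  have e1 : (2 : ℝ) ^ (-(min (j : ℝ) i) / K) ≤ (2 : ℝ) ^ (-(min (i : ℝ) j) / ((n * K + K : ℕ) : ℝ)) := by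
    rw [min_comm]
    apply Real.rpow_le_rpow_of_exponent_le (by norm_num)
    rw [neg_div, neg_div, neg_le_neg_iff]
    apply div_le_div_of_nonneg_left (by positivity) hK0
    exact_mod_cast (by omega : K ≤ n * K + K)
  have e2 : ((j : ℝ) + 1) ^ K ≤ ((i : ℝ) + j) ^ (n * K + K) := by
    have hi' : (1 : ℝ) ≤ i := by exact_mod_cast hi
    have hj' : (1 : ℝ) ≤ j := by exact_mod_cast hj
    calc ((j : ℝ) + 1) ^ K ≤ ((i : ℝ) + j) ^ K := pow_le_pow_left₀ (by positivity) (by linarith) _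
      _ ≤ ((i : ℝ) + j) ^ (n * K + K) := pow_le_pow_right₀ (by linarith) (by omega)
  have e3 : (n : ℝ) * K ≤ ((n * K + K : ℕ) : ℝ) := by
    push_cast
    linarith
  rw [add_comm j i]
  have g1 : (0 : ℝ) ≤ (n : ℝ) * K := by positivity
  calc (n : ℝ) * (K * 2 ^ (i + j) * ((j : ℝ) + 1) ^ K * (2 : ℝ) ^ (-(min (j : ℝ) i) / K) *
        Real.exp (-((2 : ℝ) ^ (i + j) / (2 * Y)))) =
      ((n : ℝ) * K) * 2 ^ (i + j) * ((j : ℝ) + 1) ^ K * (2 : ℝ) ^ (-(min (j : ℝ) i) / K) *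
        Real.exp (-((2 : ℝ) ^ (i + j) / (2 * Y))) := by ring
    _ ≤ ((n * K + K : ℕ) : ℝ) * 2 ^ (i + j) * ((i : ℝ) + j) ^ (n * K + K) *
        (2 : ℝ) ^ (-(min (i : ℝ) j) / ((n * K + K : ℕ) : ℝ)) *
        Real.exp (-((2 : ℝ) ^ (i + j) / (2 * Y))) := by
          gcongr

open Classical in
/-- Bilinear bound, variable in `Up`, modulus a set of primes of `Lo`. -/
theorem blD {p : ℕ} {B B₀ k U Λ C : Type} [Field k] [AddCommGroup U] [Module k U]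
    [AddCommGroup Λ] [Module k Λ] [AddCommGroup C] (S : Sys p B B₀ k U Λ C)
    (F : Type) [Field F] [NumberField F] (hU : UniB F) (K₀ ℓ : ℕ) (A : ℝ) (hA : 1 ≤ A)
    (h1 : ∀ j : ℕ, 1 ≤ j → ∑ q ∈ S.blk j, (1 : ℝ) / S.N q ≤ K₀ / j)
    (h2 : ∀ b₀ : B₀, {q | S.bs q = b₀}.Finite ∧ {q | S.bs q = b₀}.ncard ≤ ℓ)
    (E : Type) [Fintype E] (lab : B → E) (𝔪₀ : Ideal (𝓞 F)) (d : ℕ) :
    ∃ K : ℕ, 1 ≤ K ∧ ∀ (nn : B → Ideal (𝓞 F)) (W : B → HeightOneSpectrum (𝓞 F)) (Up Lo : Set B)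
      (X : B → E → Ideal (𝓞 F) → ℂ) (ph : B → B → ℂ),
    (∀ e : E, Chs S F 𝔪₀ nn d {q₁ | q₁ ∈ Up ∧ lab q₁ = e} Lo W (fun q ↦ X q e)) →
    (∀ q ∈ Lo, ∀ q₁ ∈ Up, S.bs q ≠ S.bs q₁ → X q (lab q₁) (W q₁).asIdeal = ph q q₁) →
    ∀ (i j : ℕ) (α : B → ℂ) (β : Finset B → ℂ) (Y : ℝ), 1 ≤ j → 0 < Y →
    (∀ q, ‖α q‖ ≤ 1) → (∀ D, ‖β D‖ ≤ A ^ D.card) →
    (∀ D, β D ≠ 0 → Set.InjOn S.bs (D : Set B) ∧ ∀ q ∈ D, q ∈ Lo ∧
      (S.bl q ≠ j ∨ ∀ q₁ ∈ Up, S.bs q ≠ S.bs q₁)) →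
    ‖∑ q₁ ∈ S.blk j with q₁ ∈ Up, ∑ D ∈ S.mods i, α q₁ * β D * (∏ q ∈ D, ph q q₁) *
      (Real.exp (-(S.N q₁ * S.nm D / Y)) : ℂ)‖ ≤
      K * 2 ^ (i + j) * (i + 1) ^ K * (2 : ℝ) ^ (-(min i j : ℝ) / K) *
        Real.exp (-((2 : ℝ) ^ (i + j) / (2 * Y))) := by
  obtain ⟨K, hK, hgen⟩ := Pool.Agent.Helper51.PP.gen p B B₀ k U Λ C S F hU K₀ ℓ A hA h1 h2 𝔪₀ d
  refine ⟨(Fintype.card E + 1) * K, ?_, ?_⟩
  · exact le_trans hK (Nat.le_mul_of_pos_left K (Nat.succ_pos _))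
  intro nn W Up Lo X ph hChs hval i j α β Y hj hY hα hβ hsupp
  set Z : ℝ := Real.exp (-((2 : ℝ) ^ (i + j) / (2 * Y))) with hZ
  have key : ∀ e : E, ‖∑ q₁ ∈ S.blk j with (q₁ ∈ Up ∧ lab q₁ = e),
      ∑ D ∈ S.mods i, α q₁ * β D * (∏ q ∈ D, ph q q₁) *
        (Real.exp (-(S.N q₁ * S.nm D / Y)) : ℂ)‖ ≤
      K * 2 ^ (i + j) * (i + 1) ^ K * (2 : ℝ) ^ (-(min i j : ℝ) / K) * Z := by
    intro e
    obtain ⟨Up', hUp⟩ : ∃ Up' : Set B, Up' = {q₁ | q₁ ∈ Up ∧ lab q₁ = e} := ⟨_, rfl⟩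
    have h0 := hChs e
    rw [← hUp] at h0
    have h1 := hgen nn Up' Lo W (fun q ↦ X q e) h0 i j α β Y hj hY hα hβ
      (fun D hD ↦ ⟨(hsupp D hD).1, fun q hq ↦ ((hsupp D hD).2 q hq).1⟩)
    refine le_trans (le_of_eq ?_) h1
    congr 1
    refine Finset.sum_congr ?_ fun q₁ hq ↦ ?_
    · ext q
      rw [Finset.mem_filter, Finset.mem_filter, hUp]
      rfl
    obtain ⟨hqb, hqU⟩ := Finset.mem_filter.mp hq
    rw [hUp] at hqU
    obtain ⟨hqs, hqe⟩ := hqU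
    refine Finset.sum_congr rfl fun D _ ↦ ?_
    by_cases hD : β D = 0
    · rw [hD]; ring
    · congr 2
      refine Finset.prod_congr rfl fun q' hq' ↦ ?_
      obtain ⟨a1, a2⟩ := (hsupp D hD).2 q' hq'
      have hbl : S.bl q₁ = j := by
        unfold Sys.blk at hqb
        exact (Finset.mem_filter.mp hqb).2
      have hne : S.bs q' ≠ S.bs q₁ := by
        rcases a2 with a2 | a2
        · intro heq
          apply a2
          rw [← hbl]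
          unfold Sys.bl
          rw [S.bsN q' q₁ heq]
        · exact a2 q₁ hqs
      have h2 := hval q' a1 q₁ hqs hne
      rw [hqe] at h2
      exact h2.symm
  have hsplit : ∑ q₁ ∈ S.blk j with q₁ ∈ Up, ∑ D ∈ S.mods i, α q₁ * β D * (∏ q ∈ D, ph q q₁) *
      (Real.exp (-(S.N q₁ * S.nm D / Y)) : ℂ) =
      ∑ e : E, ∑ q₁ ∈ S.blk j with (q₁ ∈ Up ∧ lab q₁ = e),
        ∑ D ∈ S.mods i, α q₁ * β D * (∏ q ∈ D, ph q q₁) *
          (Real.exp (-(S.N q₁ * S.nm D / Y)) : ℂ) := by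
    rw [← Finset.sum_fiberwise (S.blk j |>.filter fun q ↦ q ∈ Up) lab]
    refine Finset.sum_congr rfl fun e _ ↦ ?_
    rw [Finset.filter_filter]
  rw [hsplit]
  refine (norm_sum_le _ _).trans ((Finset.sum_le_sum fun e _ ↦ key e).trans ?_)
  rw [Finset.sum_const, nsmul_eq_mul, Finset.card_univ]
  refine Pool.Agent.Helper54.PP.bound_mono i j (a := Fintype.card E) hK ?_ ?_ Z (Real.exp_pos _).le
  · exact Nat.le_mul_of_pos_left K (Nat.succ_pos _)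
  · exact Nat.mul_le_mul_right K (Nat.le_succ _)

end Pool.Agent.Helper11.M3
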