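import Pool.Agent.Helper11.M3.DefsA
import Pool.Agent.Helper38.WY.Goals8
import Pool.Agent.Helper76.PB.GoalsV

/-!
# Project M3 (MP_fc6b1e_nt, step 2): the arithmetic side: goals

`A_HYP3` (self-dual and unitary case) and `A_HYP4` (`χ₀ ≡ ω`) are the outputs: the analytic hypotheses `Hyp₃` resp. `Hyp₄` for
the systems `sysB`, resp. for `subS (sysB ..) W`, `W` a complement of `Zt B M₂`. Every statement is a `def ... : Prop` with its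
proof in the docstring.
-/

set_option autoImplicit false

namespace Pool.Agent.Helper11.M3

open NumberField Polynomial Module IsDedekindDomain
open Pool.Agent.Helper51.RP Pool.Agent.Helper42.RD Pool.Agent.Helper42.PP Pool.Agent.Helper42.PP1
open Pool.Agent.Helper42.PB Pool.Agent.Helper11.PP Pool.Agent.Helper76.PP Pool.Agent.Helper76.PB
open Pool.Agent.Helper17.PP (Sys)
open Pool.Agent.Helper51.PP (Chs)
open Pool.Agent.Helper38.WY (NTV3 SDual TauX)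

/-- **A_NRM** (normalised logarithms).

PROOF. `Pool.Agent.Helper11.R.exists_cth hB.sit B` (`Pool/Agent/Helper11/R/Theta.lean`) gives `c v ≠ 0` (`v ∈ B.Vis`) with
`th v x = c v * kap p ε (B.W v) x` if `p ∣ ord_(W v)(x)`. `B'` is `B` with `th v` replaced by `x ↦ (c v)⁻¹ * B.th v x`, `D'` is `D` with
`s0 v` replaced by `(c v)⁻¹ * D.s0 v`. The fields `thh`, `thk`, `s0P` are for `v ∈ Spl M₁ S = Vis` (`Spl M₂ S ⊆ Vis`:
`Pool.Agent.Helper60.PPS.vis_sub`, compare `Pool/Agent/Helper11/R/HYP2.lean`); the other fields do not contain `th`. -/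
def A_NRM : Prop :=
  ∀ (p : ℕ) [Fact p.Prime] (K M K₁ M₁ J M₂ : Type) [Field K] [NumberField K] [Field M]
    [NumberField M] [Field K₁] [NumberField K₁] [Field M₁] [NumberField M₁] [Field J]
    [NumberField J] [Field M₂] [NumberField M₂] [Algebra K M] [Algebra K K₁] [Algebra K M₁]
    [Algebra M M₁] [Algebra K₁ M₁] [Algebra K J] [Algebra K M₂] [Algebra M M₂] [Algebra K₁ M₂]
    [Algebra M₁ M₂] [Algebra J M₂] (ε : K₁) (δ : M ≃ₐ[K] M) (P : (ZMod p)[X]) (a₀ : M₂ˣ),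
    SitB p K M K₁ M₁ J M₂ ε δ P a₀ →
  ∀ (B : Base p K M K₁ M₁ ε δ P) (_ : BaseB B a₀),
  ∃ (B' : Base p K M K₁ M₁ ε δ P) (_ : BaseB B' a₀), B'.S = B.S ∧ B'.r = B.r ∧ Nrml B'

/-- **A_TAU** (the involution of the self-dual and of the unitary case).

PROOF. `k = AdjoinRoot P` is a finite field with `p^(deg P)` elements. Let `τ` be the `j`-th power of the Frobenius automorphism `z ↦ z^p`
(`RingEquiv` by finiteness), `τ z = z^(p^j)`. If `j = 0`: `τ = 1`. If `deg P = 2j`: `τ² = 1` (`z^(p^(2j)) = z`), and `j ≠ 0`; `τ ≠ 1`, since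
`X^(p^j) - X` has at most `p^j < p^(2j)` roots. If `p = 2` and `j = 0`: there is `g ∈ Gal(M₁/K)` which induces `δ` on `M` (`M/K` is
Galois, `AlgEquiv.restrictNormalHom_surjective`); let `σ` be its restriction to `K₁`: `ξ² = n(g) = 1` (`n(g) ≠ 0` in `F_2`), so `ξ = 1`; `NTV3` for `η = 1`, `γ = 0`,
`γ' = -tr(1)` gives a contradiction. `NzT`: let `η + τ η' ≠ 0` and let `g, i, σ` be as in `NTV3` for `tr = Tr` (not zero: the trace
form of a separable extension is nondegenerate) and `η + τ η'`, `γ`, `γ'`. With `ζ = ξ^i`, `m = [M : K]`: `ξ^m = 1` (`P ∣ X^m - 1`), `ξ^(m - i) = ζ⁻¹`,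
`n(σ) = ζ τ(ζ)` (`SDual`), so `n(σ)⁻¹ Tr(η' ζ) = Tr(n(σ)⁻¹ ζ η') = Tr(τ(ζ)⁻¹ η') = Tr(ζ⁻¹ τ(η'))` (`τ² = 1`, the trace is invariant under
`τ`, an `F_p`-automorphism: `Algebra.trace_eq_of_algEquiv`), and the sum in `NzG` is equal to that in `NTV3`. Compare
`Pool/Agent/Helper91/PPB/BNTV2.lean`. -/
def A_TAU : Prop :=
  ∀ (p : ℕ) [Fact p.Prime] (K M K₁ M₁ : Type) [Field K] [NumberField K] [Field M] [NumberField M]
    [Field K₁] [NumberField K₁] [Field M₁] [NumberField M₁] [Algebra K M] [Algebra K K₁]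
    [Algebra K M₁] [Algebra M M₁] [Algebra K₁ M₁] (ε : K₁)
    (δ : M ≃ₐ[K] M) (P : (ZMod p)[X]) [Fact (Irreducible P)], SitW p K M K₁ M₁ ε δ P →
  NTV3 p M₁ ε δ P → ∀ j : ℕ, SDual p M₁ ε δ P j → (j = 0 ∨ P.natDegree = 2 * j) →
  ∃ τ : AdjoinRoot P ≃+* AdjoinRoot P, (∀ z, τ (τ z) = z) ∧ (p = 2 → τ ≠ RingEquiv.refl _) ∧
    (j = 0 → τ = RingEquiv.refl _) ∧ (j ≠ 0 → τ ≠ RingEquiv.refl _) ∧ NzT p M₁ ε δ P τ

/-- **A_OMS** (the situation of `MOM4X` and of `MOM4X0` gives `OmS`).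

PROOF. `eps`: given. `gen`: `g ∈ Gal(M₁/K)` with `g ε = ε` is trivial on `K₁` (`K₁/K` is normal; `SitW.gen` for the restriction), and `K₁ → M₁` is surjective
(`finrank K₁ M₁ = 1`). `rel`: let `g, j, σ` be as in `rel`. `δ^j ε₀ = ε₀^(i^j)`; the image in `M₁` of `ε₀` is that of `ε`, so `σ ε = ε^(i^j)` and `n(σ) = i^j` in `F_p`
(`nsig`, `Pool.Agent.Helper22.PP.nsig_eq`); the root of `X - C i` is `i`. -/
def A_OMS : Prop :=
  ∀ (p : ℕ) [Fact p.Prime] (K M K₁ M₁ : Type) [Field K] [NumberField K] [Field M] [NumberField M]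
    [Field K₁] [NumberField K₁] [Field M₁] [NumberField M₁] [Algebra K M] [Algebra K K₁]
    [Algebra K M₁] [Algebra M M₁] [Algebra K₁ M₁] (ε : K₁)
    (δ : M ≃ₐ[K] M) (P : (ZMod p)[X]), SitW p K M K₁ M₁ ε δ P → p ≠ 2 → finrank K₁ M₁ = 1 →
  ∀ (i : ℕ) (ε₀ : M), P = X - C (i : ZMod p) → algebraMap M M₁ ε₀ = algebraMap K₁ M₁ ε →
    δ ε₀ = ε₀ ^ i → OmS p M₁ ε δ P

/-- **A_BLH** (the characters on `K₁`; `V_BLH` with arbitrary upper primes).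

PROOF. That of `Pool.Agent.Helper42.PB.v_blh` (`V_UPH` gives the functions `psH`; here `s q` may depend on `q`). -/
def A_BLH : Prop :=
  ∀ (p : ℕ) [Fact p.Prime] (K M K₁ M₁ : Type) [Field K] [NumberField K] [Field M] [NumberField M]
    [Field K₁] [NumberField K₁] [Field M₁] [NumberField M₁] [Algebra K M] [Algebra K K₁]
    [Algebra K M₁] [Algebra M M₁] [Algebra K₁ M₁] (ε : K₁)
    (δ : M ≃ₐ[K] M) (P : (ZMod p)[X]) [Fact (Irreducible P)], SitW p K M K₁ M₁ ε δ P →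
  ∀ (B : Base p K M K₁ M₁ ε δ P) (n : ℕ) (E : TauF n B) (V : Set (HeightOneSpectrum (𝓞 K)))
    (s0 : HeightOneSpectrum (𝓞 K) → ZMod p) (aτ : K₁ˣ), V ⊆ B.Vis →
  ∀ (ψ₁ : AddChar (ZMod p) ℂ), ψ₁ ≠ 1 →
  ∃ Xd : B.LP → ZMod p → (ZMod p)ˣ → Ideal (𝓞 K₁) → ℂ,
    (∀ (s : B.LP → ZMod p) (e : (ZMod p)ˣ) (Up Lo : Set B.LP), (∀ q ∈ Up, q.1.2 = e) →
      (∀ q ∈ Lo, q.1.1 ∈ V ∧ s q ≠ 0) →
      Chs (sysB B E V s0 aτ) K₁ (modu p K₁ B.S)
        (fun q ↦ q.1.1.asIdeal.map (algebraMap (𝓞 K) (𝓞 K₁))) (finrank K K₁) Up Lo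
        (fun q ↦ B.Q q.1.1) (fun q ↦ Xd q (s q) e)) ∧
    ∀ (s : ZMod p) (q q' : B.LP), q.1.1 ∈ V → q.1.1 ≠ q'.1.1 →
      Xd q s q'.1.2 (B.Q q'.1.1).asIdeal = ψ₁ (s * (sysB B E V s0 aτ).kap q q')

/-- **A_BLG** (the two-sided characters; `R.blu2` with the nontriviality as a hypothesis for every `q`).

PROOF. That of `Pool.Agent.Helper11.R.blu2` with `chrG` (`Pool/Agent/Helper11/M3/CHRG.lean`) in the place of `chr` and `cth = 1` (`Nrml`). -/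
def A_BLG : Prop :=
  ∀ (p : ℕ) [Fact p.Prime] (K M K₁ M₁ : Type) [Field K] [NumberField K]
    [Field M] [NumberField M] [Field K₁] [NumberField K₁] [Field M₁] [NumberField M₁]
    [IsTotallyComplex M₁] [Algebra K M] [Algebra K K₁]
    [Algebra K M₁] [Algebra M M₁] [Algebra K₁ M₁] (ε : K₁)
    (δ : M ≃ₐ[K] M) (P : (ZMod p)[X]) [Fact (Irreducible P)], SitW p K M K₁ M₁ ε δ P →
  ∀ (B : Base p K M K₁ M₁ ε δ P), Nrml B → ∀ (n : ℕ) (E : TauF n B)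
    (V : Set (HeightOneSpectrum (𝓞 K))) (s0 : HeightOneSpectrum (𝓞 K) → ZMod p) (aτ : K₁ˣ),
    V ⊆ B.Vis → ∀ (tr : AdjoinRoot P →ₗ[ZMod p] ZMod p) (ψ₁ : AddChar (ZMod p) ℂ), ψ₁ ≠ 1 →
  ∃ Xd : B.LP → AdjoinRoot P → AdjoinRoot P → AdjoinRoot P → AdjoinRoot P → (ZMod p)ˣ →
      Ideal (𝓞 M₁) → ℂ,
    (∀ (t s c y : B.LP → AdjoinRoot P) (e : (ZMod p)ˣ) (Up Lo : Set B.LP),
      (∀ q ∈ Up, q.1.1 ∈ V ∧ q.1.2 = e) → (∀ q ∈ Lo, q.1.1 ∈ V) →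
      (∀ q ∈ Lo, NzG p M₁ ε δ P tr (s q * c q) (t q * y q)
        (-((e : ZMod p) * (q.1.2 : ZMod p)⁻¹ * tr (s q * t q)))
        (-((q.1.2 : ZMod p) * (e : ZMod p)⁻¹ * tr (y q * c q)))) →
      Chs (sysB B E V s0 aτ) M₁ (modu p M₁ B.S)
        (fun q ↦ q.1.1.asIdeal.map (algebraMap (𝓞 K) (𝓞 M₁))) (finrank K M₁) Up Lo
        (fun q ↦ B.W q.1.1) (fun q ↦ Xd q (t q) (s q) (c q) (y q) e)) ∧
    ∀ (t s c y : AdjoinRoot P) (q q₁ : B.LP), q.1.1 ∈ V → q₁.1.1 ∈ V → q.1.1 ≠ q₁.1.1 →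
      Xd q t s c y q₁.1.2 (B.W q₁.1.1).asIdeal =
        psK tr ψ₁ (s * (c * (sysB B E V s0 aτ).a q q₁ +
            t * algebraMap (ZMod p) (AdjoinRoot P) ((sysB B E V s0 aτ).kap q q₁)) +
          y * (t * (sysB B E V s0 aτ).a q₁ q +
            c * algebraMap (ZMod p) (AdjoinRoot P) ((sysB B E V s0 aτ).kap q₁ q)))

/-- **A_NZO** (the nontriviality for `OmS`).

PROOF. `deg P = 1`, so `F_p → k = AdjoinRoot P` is bijective and `tr ≠ 0` is injective. (1) Take `g = 1`, `i = 0`, `σ = 1` (`n(1) = 1`: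
`Pool.Agent.Helper22.PP.nsig_one`), `ξ^m = 1` (`m = [M : K]`, `P ∣ X^m - 1`): the sum is `tr η + γ`. (2) By `rel`, for `g, i, σ` as in `NzG`, `n(σ)⁻¹ tr(η' ξ^i) = tr η'`, so
the sum is `tr η' + γ n(σ)⁻¹`. At `g = 1` it is `tr η' + γ`. There is `g` with `i = 1` (an extension of `δ` to `M₁`; `1 < m`, since `ξ ≠ 1`
and `ξ^m = 1`), `n(σ) = ξ ≠ 1` there. If both values are `0` then `γ (1 - ξ⁻¹) = 0`, so `γ = 0` and `tr η' = 0`, `η' = 0`. -/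
def A_NZO : Prop :=
  ∀ (p : ℕ) [Fact p.Prime] (K M K₁ M₁ : Type) [Field K] [NumberField K] [Field M] [NumberField M]
    [Field K₁] [NumberField K₁] [Field M₁] [NumberField M₁] [Algebra K M] [Algebra K K₁]
    [Algebra K M₁] [Algebra M M₁] [Algebra K₁ M₁] (ε : K₁)
    (δ : M ≃ₐ[K] M) (P : (ZMod p)[X]) [Fact (Irreducible P)], SitW p K M K₁ M₁ ε δ P →
    OmS p M₁ ε δ P → ∀ tr : AdjoinRoot P →ₗ[ZMod p] ZMod p, tr ≠ 0 →
  (∀ z : AdjoinRoot P, tr z = 0 → z = 0) ∧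
  (∀ z : AdjoinRoot P, ∃ a : ZMod p, z = algebraMap (ZMod p) (AdjoinRoot P) a) ∧
  (∀ (η : AdjoinRoot P) (γ : ZMod p), tr η + γ ≠ 0 → NzG p M₁ ε δ P tr η 0 γ 0) ∧
  (AdjoinRoot.root P ≠ 1 → ∀ (η' : AdjoinRoot P) (γ : ZMod p), (η' ≠ 0 ∨ γ ≠ 0) →
    NzG p M₁ ε δ P tr 0 η' γ 0)

/-- **A_BL3** (the field `bl₃` of `Hyp₃`).

PROOF. `blP` (`Pool/Agent/Helper11/M3/BLG.lean`) with `F = M₁`, `Pool.Agent.Helper11.R.a1_unb M₁`, `ℓ = |F_p*|` (`fib_bound`), `E = F_p*`, `lab q = q.1.2`, the characters of `A_BLG` (constant functions `t, s, c, y`;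
`Up = Lo = ` the primes of `V`), `ph q q₁` the phase of `Bl3F`; compare `Pool/Agent/Helper11/R/HYP2.lean` (with `a2_bl3`, and `mono_bound` for the monotonicity in `K'`). Nontriviality: `NzT` with `η = s c`, `η' = t y`, and `Lk (s c) (t y)`. -/
def A_BL3 : Prop :=
  ∀ (p : ℕ) [Fact p.Prime] (K M K₁ M₁ : Type) [Field K] [NumberField K]
    [Field M] [NumberField M] [Field K₁] [NumberField K₁] [Field M₁] [NumberField M₁]
    [IsTotallyComplex M₁] [Algebra K M] [Algebra K K₁]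
    [Algebra K M₁] [Algebra M M₁] [Algebra K₁ M₁] (ε : K₁)
    (δ : M ≃ₐ[K] M) (P : (ZMod p)[X]) [Fact (Irreducible P)], SitW p K M K₁ M₁ ε δ P →
  ∀ (B : Base p K M K₁ M₁ ε δ P), Nrml B → ∀ (n : ℕ) (E : TauF n B)
    (V : Set (HeightOneSpectrum (𝓞 K))) (s0 : HeightOneSpectrum (𝓞 K) → ZMod p) (aτ : K₁ˣ),
    V ⊆ B.Vis → ∀ τ : AdjoinRoot P ≃+* AdjoinRoot P, NzT p M₁ ε δ P τ →
  ∀ ψ₁ : AddChar (ZMod p) ℂ, ψ₁ ≠ 1 → ∀ Ka : ℕ,
    (∀ j : ℕ, 1 ≤ j → ∑ q ∈ (sysB B E V s0 aτ).blk j, (1 : ℝ) / (sysB B E V s0 aτ).N q ≤ Ka / j) →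
  ∃ K₀ : ℕ, 1 ≤ K₀ ∧ ∀ K' : ℕ, K₀ ≤ K' →
    Bl3F (sysB B E V s0 aτ) (psK (Algebra.trace (ZMod p) (AdjoinRoot P)) ψ₁)
      (fun η η' ↦ η + τ η' ≠ 0) K'

/-- **A_BL1** (the field `bl₁` of `Hyp₄`).

PROOF. `blD` (`Pool/Agent/Helper11/M3/BLG.lean`, `A = |k|`) with `F = M₁`, `E = F_p*`, `lab q = q.1.2`. For `t`, `ε₁`, `y`, `c` as in `Bl1F`: `Up` is the set of the `q` with `q.1.1 ∈ V`, `eL B q = ε₁`, `Lo` the set of
the `q` with `q.1.1 ∈ V`, `y q ≠ 0`, `c q * ε₁ ≠ t * eL B q`. The characters are those of `A_BLG` for the functions `(t, s, c, y) := (c, y, t, 0)` (so that the phase at the modulus `q'` and the variable `q` is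
`psK (y q' (t a(q', q) + c q' kap(q', q)))`; `S.chr` is the product of these over `q' ∈ D`) for `e : F_p*` with image `ε₁` in `k`; for the other `e` the set `Up ∩ {lab = e}` is empty, and one can take in `X q e` the
character for a fixed `e₀` with image `ε₁` (if there is none, the sum is empty). Nontriviality: `A_NZO` (third claim) with `η = y q t`, `γ = -(e q⁻¹ tr(y q c q))` (`q` the label): `tr η + γ =
tr(y q (t - e q⁻¹ c q))`, which is not `0` as `tr` is injective, `y q ≠ 0`, `c q e ≠ t q`. Compare `Pool/Agent/Helper11/R/HYP2.lean` and `Pool.Agent.Helper51.PP.bl1`. -/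
def A_BL1 : Prop :=
  ∀ (p : ℕ) [Fact p.Prime] (K M K₁ M₁ : Type) [Field K] [NumberField K]
    [Field M] [NumberField M] [Field K₁] [NumberField K₁] [Field M₁] [NumberField M₁]
    [IsTotallyComplex M₁] [Algebra K M] [Algebra K K₁]
    [Algebra K M₁] [Algebra M M₁] [Algebra K₁ M₁] (ε : K₁)
    (δ : M ≃ₐ[K] M) (P : (ZMod p)[X]) [Fact (Irreducible P)] [Fintype (AdjoinRoot P)],
    SitW p K M K₁ M₁ ε δ P → OmS p M₁ ε δ P →
  ∀ (B : Base p K M K₁ M₁ ε δ P), Nrml B → ∀ (n : ℕ) (E : TauF n B)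
    (V : Set (HeightOneSpectrum (𝓞 K))) (s0 : HeightOneSpectrum (𝓞 K) → ZMod p) (aτ : K₁ˣ),
    V ⊆ B.Vis → ∀ (tr : AdjoinRoot P →ₗ[ZMod p] ZMod p) (ψ₁ : AddChar (ZMod p) ℂ), tr ≠ 0 →
    ψ₁ ≠ 1 → ∀ Ka : ℕ,
    (∀ j : ℕ, 1 ≤ j → ∑ q ∈ (sysB B E V s0 aτ).blk j, (1 : ℝ) / (sysB B E V s0 aτ).N q ≤ Ka / j) →
  ∃ K₀ : ℕ, 1 ≤ K₀ ∧ ∀ K' : ℕ, K₀ ≤ K' → Bl1F (sysB B E V s0 aτ) (psK tr ψ₁) (eL B) K'

/-- **A_BL4** (the field `bl₄` of `Hyp₄`).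

PROOF. `blD` (`A = |k|`) with `F = K₁`, `E = F_p*`, `lab q = q.1.2`, `Up = {q | N q}`, `Lo = {q | q.1.1 ∈ V ∧ y q ≠ 0 ∧ c q ≠ 0}`, the characters of `A_BLH` with `s q = tr (y q * c q)`
(not `0`: `tr` is injective by `A_NZO`), `psK tr ψ₁ (y c kap) = ψ₁ (tr(y c) kap)`. If `N q' → q'.1.1 ∉ V` for all `q'` then the primes of `Up` and `Lo` are different. -/
def A_BL4 : Prop :=
  ∀ (p : ℕ) [Fact p.Prime] (K M K₁ M₁ : Type) [Field K] [NumberField K]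
    [Field M] [NumberField M] [Field K₁] [NumberField K₁] [Field M₁] [NumberField M₁]
    [IsTotallyComplex M₁] [Algebra K M] [Algebra K K₁]
    [Algebra K M₁] [Algebra M M₁] [Algebra K₁ M₁] (ε : K₁)
    (δ : M ≃ₐ[K] M) (P : (ZMod p)[X]) [Fact (Irreducible P)] [Fintype (AdjoinRoot P)],
    SitW p K M K₁ M₁ ε δ P → OmS p M₁ ε δ P →
  ∀ (B : Base p K M K₁ M₁ ε δ P) (n : ℕ) (E : TauF n B)
    (V : Set (HeightOneSpectrum (𝓞 K))) (s0 : HeightOneSpectrum (𝓞 K) → ZMod p) (aτ : K₁ˣ),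
    V ⊆ B.Vis → ∀ (tr : AdjoinRoot P →ₗ[ZMod p] ZMod p) (ψ₁ : AddChar (ZMod p) ℂ), tr ≠ 0 →
    ψ₁ ≠ 1 → ∀ Ka : ℕ,
    (∀ j : ℕ, 1 ≤ j → ∑ q ∈ (sysB B E V s0 aτ).blk j, (1 : ℝ) / (sysB B E V s0 aτ).N q ≤ Ka / j) →
  ∃ K₀ : ℕ, 1 ≤ K₀ ∧ ∀ K' : ℕ, K₀ ≤ K' → ∀ N : B.LP → Prop,
    Bl4F (sysB B E V s0 aτ) (psK tr ψ₁) N K'

/-- **A_BL5** (the field `bl₅` of `Hyp₄`).

PROOF. `blP` (`Pool/Agent/Helper11/M3/BLG.lean`), `q₁ = P₁`. (a) `y = 0`, so `s ≠ 0`: `F = K₁`, the characters of `A_BLH` with `s q = tr (s * t)`, not `0`. `Up = {q | N q}`, `Lo = {q | q.1.1 ∈ V}`. (b) `y ≠ 0`, then `Y ≠ ⊥`, and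
by the hypothesis `root P ≠ 1` and every `q` is in `V`. `F = M₁`, `Up = {q | N q}`, the characters of `A_BLG` with the constant functions `(t, s, c, y) := (t, s, 0, y)`: the phase is `psK (s (t kap(q, P₁)) + y (t a(P₁, q)))`.
Nontriviality: `A_NZO`, fourth claim, `η' = t y`, `γ = -(e q⁻¹ tr(s t))`. -/
def A_BL5 : Prop :=
  ∀ (p : ℕ) [Fact p.Prime] (K M K₁ M₁ : Type) [Field K] [NumberField K]
    [Field M] [NumberField M] [Field K₁] [NumberField K₁] [Field M₁] [NumberField M₁]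
    [IsTotallyComplex M₁] [Algebra K M] [Algebra K K₁]
    [Algebra K M₁] [Algebra M M₁] [Algebra K₁ M₁] (ε : K₁)
    (δ : M ≃ₐ[K] M) (P : (ZMod p)[X]) [Fact (Irreducible P)] [Fintype (AdjoinRoot P)],
    SitW p K M K₁ M₁ ε δ P → OmS p M₁ ε δ P →
  ∀ (B : Base p K M K₁ M₁ ε δ P), Nrml B → ∀ (n : ℕ) (E : TauF n B)
    (V : Set (HeightOneSpectrum (𝓞 K))) (s0 : HeightOneSpectrum (𝓞 K) → ZMod p) (aτ : K₁ˣ),
    V ⊆ B.Vis → ∀ (tr : AdjoinRoot P →ₗ[ZMod p] ZMod p) (ψ₁ : AddChar (ZMod p) ℂ), tr ≠ 0 →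
    ψ₁ ≠ 1 → ∀ Ka : ℕ,
    (∀ j : ℕ, 1 ≤ j → ∑ q ∈ (sysB B E V s0 aτ).blk j, (1 : ℝ) / (sysB B E V s0 aτ).N q ≤ Ka / j) →
  ∃ K₀ : ℕ, 1 ≤ K₀ ∧ ∀ K' : ℕ, K₀ ≤ K' → ∀ (N : B.LP → Prop) (Y : AddSubgroup (AdjoinRoot P)),
    (Y = ⊥ ∨ (AdjoinRoot.root P ≠ 1 ∧ ∀ q : B.LP, q.1.1 ∈ V)) →
    Bl5F (sysB B E V s0 aτ) (psK tr ψ₁) N Y K'

/-- **A_ZKX** (the functionals of a `TauX` kill the `p`-th powers of `M₂`).

PROOF. `TauX.hS`, with `y`, `w^p = y`, `w : M₂`, `w ≠ 0`. `LocW p W α (w^p)`: see the definitions (`Pool/Agent/Helper42/PW/Defs.lean`, `LocAt`, `NmAt`: a `p`-th power satisfies all the conditions; `p ∣ ord_W(w^p)`).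
`SigT p τ ε α (w^p)`: `β` with `β^p = τ α` (`ℂ_[p]` is algebraically closed), `z 0 = τ w`, `z j = 0` for `j ≠ 0`, `n = 1`: all `cjs` are `τ w`. -/
def A_ZKX : Prop :=
  ∀ (p : ℕ) [Fact p.Prime] (K M K₁ M₁ : Type) [Field K] [NumberField K]
    [Field M] [NumberField M] [Field K₁] [NumberField K₁] [Field M₁] [NumberField M₁]
    [Algebra K M] [Algebra K K₁] [Algebra K M₁] [Algebra M M₁] [Algebra K₁ M₁] (ε : K₁)
    (δ : M ≃ₐ[K] M) (P : (ZMod p)[X]) (B : Base p K M K₁ M₁ ε δ P) (M₂ : Type) [Field M₂]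
    [NumberField M₂] [Algebra K M₂] [Algebra M M₂] [Algebra K₁ M₂] (a₀ : M₂ˣ)
    (T : Set (K →+* ℂ_[p])) (aτ : K₁ˣ) (n : ℕ) (E : TauX n B a₀ T aτ), ZK E.toTauF M₂

/-- **A_ZTO** (`lam₀` and the `res q`, `q` visible, vanish on `Zt`).

PROOF. By linearity for `x` with `y ∈ Mˣ` an `S`-unit, `Pw p (pol P δ y)`, `w^p = y`, `rho_i y = x_i`. Let `h` be a `P`-functional: `h(y) = ∑_i x_i h(u_i)` [`h` kills `p`-th powers; `y` and the product of the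
`x_i(δ) u_i` have the same `rho_i`, use `Base.rho0`; see `Pool/Agent/Helper35/WY/YSEL.lean` and the proof of `V_SEL` for this expansion]. For `h = E.h j` it is `0` by `ZK`, this is `lam₀ x = 0`. For `h = B.R v`, `v ∈ Spl M₂ S`: `y` is
a `p`-th power in `M₂`, and the prime `D.W₂ v` of `M₂` is free over `K`, so `y` is locally a `p`-th power at `B.W v` and at all the primes above `v`, and `B.R v y = 0` (`Base.thk` with `i = 0`; for the conjugates apply an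
extension of `δ^i` to `M₂` and the transitivity of the Galois group on the primes above `v`; compare how `Y_SEL`, `V_SEL` obtain `B.R v x` from the local conditions at the primes of `M₂` above `v`). -/
def A_ZTO : Prop :=
  ∀ (p : ℕ) [Fact p.Prime] (K M K₁ M₁ J M₂ : Type) [Field K] [NumberField K] [Field M]
    [NumberField M] [Field K₁] [NumberField K₁] [Field M₁] [NumberField M₁] [Field J]
    [NumberField J] [Field M₂] [NumberField M₂] [Algebra K M] [Algebra K K₁] [Algebra K M₁]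
    [Algebra M M₁] [Algebra K₁ M₁] [Algebra K J] [Algebra K M₂] [Algebra M M₂] [Algebra K₁ M₂]
    [Algebra M₁ M₂] [Algebra J M₂] (ε : K₁) (δ : M ≃ₐ[K] M) (P : (ZMod p)[X])
    [Fact (Irreducible P)] (a₀ : M₂ˣ), SitB p K M K₁ M₁ J M₂ ε δ P a₀ →
  ∀ (B : Base p K M K₁ M₁ ε δ P) (D : BaseB B a₀) (n : ℕ) (E : TauF n B) (aτ : K₁ˣ),
    ZK E M₂ → ∀ x ∈ Zt B M₂, (sysB B E (Spl M₂ B.S) D.s0 aτ).lam₀ x = 0 ∧
      ∀ q : B.LP, q.1.1 ∈ Spl M₂ B.S → (sysB B E (Spl M₂ B.S) D.s0 aτ).res q x = 0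

/-- **A_ZT1** (`J ≠ K`: `Zt` is not zero).

PROOF. `M₂/M₁` is cyclic of degree `[J : K] = p^l > 1` (`lin₂`: restriction to `J` is injective on `Gal(M₂/M₁)`; surjective since `[M₁ : K]` is prime to `p`). `M → M₁` is surjective: `g ∈ Gal(M₁/K)` trivial on `M` fixes
`ε` (`OmS.eps`), so `g = 1` (`OmS.gen`). Let `F` be the subextension of degree `p` of `M₂/M₁`. By Kummer theory (`exists_root_adjoin_eq_top_of_isCyclic`; `ε ∈ M₁`) `F = M₁(w)`, `w^p = β ∈ M₁ˣ = Mˣ`. (i) Type: let `τ ∈ Gal(M₂/K)` be an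
extension of `δ` which is trivial on `J` (it exists, see the proof of `V_AK`, (2), `Pool/Agent/Helper76/PB/`), `g₀` a generator of `Gal(M₂/M₁)`, `g₀ w = ε^a w`, `a ≠ 0`. `τ` commutes with `g₀`, and `g₀(τ w) = τ(ε^a w) =
ε^(a n(τ)) τ(w)`, so `g₀` fixes `τ(w) w^(-n(τ))`, which is in `M₁`: `δ β = β^(n(τ)) c^p`, `c ∈ M`, and `n(τ) = ξ`, `P = C u (X - ξ)`, so `P(δ) β` is a `p`-th power. (ii) `S`-unit: for a prime `w'` of `M`, `w' ∉ up M S`, the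
extension `M₂/M` is unramified at `w'` (`D.unr`: `ordv W (x) = ordv v (x)` for `x ∈ K`, and `B.unr`; so `ordv W (x) = ordv w' (x)` for `x ∈ M`), so `ordv w' β = ordv W (w^p)` is divisible by `p`. By `B.prM` there is `z ∈ Mˣ`
with `ordv w' z = (ordv w' β)/p` for all `w' ∉ up M S`; `β z^(-p)` is an `S`-unit. (iii) Its coordinates `x_i = rho_i (β z^(-p))` form an element of `Zt`. If `x = 0` then `β z^(-p)` is a `p`-th power in `M` (`Base.rho0`), so `w ∈ M₁`,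
contradiction. -/
def A_ZT1 : Prop :=
  ∀ (p : ℕ) [Fact p.Prime] (K M K₁ M₁ J M₂ : Type) [Field K] [NumberField K] [Field M]
    [NumberField M] [Field K₁] [NumberField K₁] [Field M₁] [NumberField M₁] [Field J]
    [NumberField J] [Field M₂] [NumberField M₂] [Algebra K M] [Algebra K K₁] [Algebra K M₁]
    [Algebra M M₁] [Algebra K₁ M₁] [Algebra K J] [Algebra K M₂] [Algebra M M₂] [Algebra K₁ M₂]
    [Algebra M₁ M₂] [Algebra J M₂] (ε : K₁) (δ : M ≃ₐ[K] M) (P : (ZMod p)[X])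
    [Fact (Irreducible P)] (a₀ : M₂ˣ), SitB p K M K₁ M₁ J M₂ ε δ P a₀ → OmS p M₁ ε δ P →
  ∀ (B : Base p K M K₁ M₁ ε δ P) (_ : BaseB B a₀), finrank K J ≠ 1 → Zt B M₂ ≠ ⊥

/-- **A_KUE** (`V_KUE` with the valuations and the coordinates of `X₀`).

PROOF. That of `Pool.Agent.Helper76.PB.v_kue` (`Pool/Agent/Helper76/PB/KUE.lean`). `X₀` is the product of the `x_i(δ) u_i` and of the `c_q(δ)` of the elements of divisor `w q` outside `S`, all made of type `P` (`X₀ = pol e δ Y`); so `B.nv q X₀ = c q` for `q ∈ D`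
(this is how `¬ Pw p X₀` is proved there if `D` is not empty), and, if `D = ∅`, `X₀` is an `S`-unit and `rho_i X₀ = x_i` (this is how it is proved if `D = ∅`). The normalisation must be chosen such that these hold exactly. -/
def A_KUE : Prop :=
  ∀ (p : ℕ) [Fact p.Prime] (K M K₁ M₁ : Type) [Field K] [NumberField K] [Field M] [NumberField M]
    [Field K₁] [NumberField K₁] [Field M₁] [NumberField M₁] [Algebra K M] [Algebra K K₁]
    [Algebra K M₁] [Algebra M M₁] [Algebra K₁ M₁] (ε : K₁)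
    (δ : M ≃ₐ[K] M) (P : (ZMod p)[X]), SitW p K M K₁ M₁ ε δ P →
  ∀ (B : Base p K M K₁ M₁ ε δ P) (x : Fin B.r → AdjoinRoot P)
    (D : Finset (HeightOneSpectrum (𝓞 K))) (c : HeightOneSpectrum (𝓞 K) → AdjoinRoot P),
    (∀ q ∈ D, q ∈ B.Vis ∧ c q ≠ 0) →
  ∃ X₀ : Mˣ, Pw p (pol P δ X₀) ∧ (∀ q ∈ D, B.nv q X₀ ≠ 0) ∧
    (D = ∅ → X₀ ∈ (up M B.S).unit M ∧ ∀ i, B.rho i X₀ = x i) ∧
    ∀ v ∈ B.Vis, v ∉ D → ∑ i, x i * B.R v (B.u i) + ∑ q ∈ D, c q * B.A v q = 0 →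
      ∀ W : HeightOneSpectrum (𝓞 M₁), Above W v → FreeP K W →
        LocPow p W (algebraMap M M₁ (X₀ : M))

/-- **A_KUM** (the field `kum` for `subS (sysB ..) W`).

PROOF (from `A_KUE`). That of `Pool.Agent.Helper76.PB.v_kum` (`Pool/Agent/Helper76/PB/KUM.lean`), where `V_KUE` and `V_AK` are used only to obtain an `X₀ ∈ Mˣ` of type `P` with the last property of `A_KUE` which is not a `p`-th power in
`M₂`. Here: let `X₀` be as in `A_KUE`. If the support of `c` contains `q`, `v = q.1.1 ∈ Spl M₂ S`: if `X₀` were a `p`-th power in `M₂`, then the valuations of `X₀` at the primes above `v` of `M` would be divisible by `p` (`D.W₂ v` is free over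
`K`, so unramified over `M`; conjugation), so `B.nv v X₀ = 0`, contradiction. If `c = 0` then `x ≠ 0`, `x ∈ W`; if `X₀` were a `p`-th power in `M₂` then `x ∈ Zt B M₂` by definition, so `x = 0` by the hypothesis, contradiction. -/
def A_KUM : Prop :=
  ∀ (p : ℕ) [Fact p.Prime] (K M K₁ M₁ J M₂ : Type) [Field K] [NumberField K] [Field M]
    [NumberField M] [Field K₁] [NumberField K₁] [Field M₁] [NumberField M₁] [Field J]
    [NumberField J] [Field M₂] [NumberField M₂] [Algebra K M] [Algebra K K₁]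
    [Algebra K M₁] [Algebra M M₁] [Algebra K₁ M₁] [Algebra K J] [Algebra K M₂] [Algebra M M₂]
    [Algebra K₁ M₂] [Algebra M₁ M₂] [Algebra J M₂] (ε : K₁) (δ : M ≃ₐ[K] M) (P : (ZMod p)[X])
    [Fact (Irreducible P)] (a₀ : M₂ˣ), SitB p K M K₁ M₁ J M₂ ε δ P a₀ →
  ∀ (B : Base p K M K₁ M₁ ε δ P) (D : BaseB B a₀) (n : ℕ) (E : TauF n B) (aτ : K₁ˣ)
    (W : Submodule (AdjoinRoot P) (Fin B.r → AdjoinRoot P)), W ⊓ Zt B M₂ = ⊥ →
    KumF (subS (sysB B E (Spl M₂ B.S) D.s0 aτ) W)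

/-- **A_SMO** (the field `sm` for `subS (sysB ..) W`).

PROOF. `v_smn` (`V_SMN` is proved, see `Pool/Agent/Helper42/WY/` for how it is obtained in the assembly) gives `SmF` for `sysB`. If `fU ψ χ D y x = 1` for all `x ∈ W` then it is so for all `x : U`: `fU ψ χ D y` is multiplicative in `x` (`fU` is the product of `χ (lam₀ x)` and of the
`ψ (y q * res q x)`, `q ∈ D`), it is `1` on `Zt` by `A_ZTO` (`q ∈ D` is split), and `W + Zt = ⊤`. The other terms (`fB`, `below`, `nm`) are the same for `subS`. -/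
def A_SMO : Prop :=
  ∀ (p : ℕ) [Fact p.Prime] (K M K₁ M₁ J M₂ : Type) [Field K] [NumberField K] [Field M]
    [NumberField M] [Field K₁] [NumberField K₁] [Field M₁] [NumberField M₁] [Field J]
    [NumberField J] [Field M₂] [NumberField M₂] [IsTotallyComplex M₁] [Algebra K M] [Algebra K K₁]
    [Algebra K M₁] [Algebra M M₁] [Algebra K₁ M₁] [Algebra K J] [Algebra K M₂] [Algebra M M₂]
    [Algebra K₁ M₂] [Algebra M₁ M₂] [Algebra J M₂] (ε : K₁) (δ : M ≃ₐ[K] M) (P : (ZMod p)[X])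
    [Fact (Irreducible P)] (a₀ : M₂ˣ), SitB p K M K₁ M₁ J M₂ ε δ P a₀ →
  ∀ (B : Base p K M K₁ M₁ ε δ P) (D : BaseB B a₀) (n : ℕ) (E : TauF n B), NrmInd E M₂ →
    ZK E M₂ →
  ∀ (aτ : K₁ˣ) (tr : AdjoinRoot P →ₗ[ZMod p] ZMod p) (ψ₁ : AddChar (ZMod p) ℂ), tr ≠ 0 → ψ₁ ≠ 1 →
  ∃ K₀ : ℕ, 1 ≤ K₀ ∧ ∀ K' : ℕ, K₀ ≤ K' →
  ∀ W : Submodule (AdjoinRoot P) (Fin B.r → AdjoinRoot P), W ⊔ Zt B M₂ = ⊤ →
    SmF (subS (sysB B E (Spl M₂ B.S) D.s0 aτ) W) (psK tr ψ₁) K'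

/-- **A_CAS** (the two cases `J = K`, `J ≠ K`).

PROOF. `K₁ → M₁` is surjective (`OmS.gen`: `g ∈ Gal(M₁/K)` trivial on `K₁` is trivial). (i) Let `finrank K J = 1`. Every `g ∈ Gal(M₂/K)` which is trivial on `M₁` is trivial on `J` (`K → J` is surjective), so trivial (`lin₂`); `M₂/K` is Galois,
so `M₁ → M₂` and `K₁ → M₂` are surjective, `Spl K₁ S = Spl M₂ S` (transport of primes along the isomorphism of fields over `K`), and `q.1.1 ∈ calP = Spl K₁ S` for `q : B.LP` (`q.2`). `merN` is then the Mertens bound for the split primes: from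
`sv0B` (`Pool/Agent/Helper17/PB/SVB.lean`), field `mers`. (ii) Let `finrank K J ≠ 1`. `[J : K] = p^l`, `l ≥ 1`, divides `[M₂ : K]`, `[K₁ : K]` is prime to `p` (`Pool.Agent.Helper42.PP1.copK`), so `1 < finrank K₁ M₂`, and `merN` is `mernB` (same file). `YG P K J = ⊥`. -/
def A_CAS : Prop :=
  ∀ (p : ℕ) [Fact p.Prime] (K M K₁ M₁ J M₂ : Type) [Field K] [NumberField K] [Field M]
    [NumberField M] [Field K₁] [NumberField K₁] [Field M₁] [NumberField M₁] [Field J]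
    [NumberField J] [Field M₂] [NumberField M₂] [IsTotallyComplex K₁] [Algebra K M] [Algebra K K₁]
    [Algebra K M₁] [Algebra M M₁] [Algebra K₁ M₁] [Algebra K J] [Algebra K M₂] [Algebra M M₂]
    [Algebra K₁ M₂] [Algebra M₁ M₂] [Algebra J M₂] (ε : K₁) (δ : M ≃ₐ[K] M) (P : (ZMod p)[X])
    [Fact (Irreducible P)] (a₀ : M₂ˣ), SitB p K M K₁ M₁ J M₂ ε δ P a₀ → OmS p M₁ ε δ P →
  ∀ (B : Base p K M K₁ M₁ ε δ P) (D : BaseB B a₀) (n : ℕ) (E : TauF n B) (aτ : K₁ˣ),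
  ((∀ q, NV B J M₂ q ∧ (sysB B E (Spl M₂ B.S) D.s0 aτ).spl q) ∨
    ((∀ q, NV B J M₂ q → ¬ (sysB B E (Spl M₂ B.S) D.s0 aτ).spl q) ∧ YG P K J = ⊥)) ∧
  ∃ K₀ : ℕ, ∀ K' : ℕ, K₀ ≤ K' → MerNF (sysB B E (Spl M₂ B.S) D.s0 aτ) (NV B J M₂) K'

open Classical in
/-- **A_HYP3** (output: the self-dual and the unitary case). -/
def A_HYP3 : Prop :=
  ∀ (p : ℕ) [Fact p.Prime]
    (K M K₁ M₁ J M₂ : Type) [Field K]
    [NumberField K] [Field M] [NumberField M] [Field K₁] [NumberField K₁] [IsTotallyComplex K₁]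
    [Field M₁] [NumberField M₁] [IsTotallyComplex M₁] [Field J] [NumberField J] [Field M₂]
    [NumberField M₂] [Algebra K M] [Algebra K K₁] [Algebra K M₁] [Algebra M M₁] [Algebra K₁ M₁]
    [Algebra K J] [Algebra K M₂] [Algebra M M₂] [Algebra K₁ M₂] [Algebra M₁ M₂] [Algebra J M₂]
    (ε : K₁) (δ : M ≃ₐ[K] M) (P : (ZMod p)[X]) [Fact (Irreducible P)] [Fintype (AdjoinRoot P)]
    (a₀ : M₂ˣ), SitB p K M K₁ M₁ J M₂ ε δ P a₀ → NTV3 p M₁ ε δ P →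
  ∀ j : ℕ, SDual p M₁ ε δ P j → (j = 0 ∨ P.natDegree = 2 * j) →
  ∀ (B : Base p K M K₁ M₁ ε δ P) (D : BaseB B a₀), Nrml B →
  ∃ (Lk : AdjoinRoot P → AdjoinRoot P → Prop) (Cs : AdjoinRoot P → AddSubgroup (AdjoinRoot P))
    (Mc : ℕ) (g : ℝ → ℝ) (K₀ : ℝ), Mc * p ^ j = Fintype.card (AdjoinRoot P) ∧ Slow g K₀ ∧
  ∀ (n : ℕ) (E : TauF n B) (aτ : K₁ˣ), OmType p K ε (aτ : K₁) → NrmInd E M₂ →
  ∃ (ψ : AddChar (AdjoinRoot P) ℂ) (K' : ℕ),
    Hyp₃ (sysB B E (Spl M₂ B.S) D.s0 aτ) ψ Lk Cs Mc g K' ∧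
  ∃ c X₁ : ℝ, 0 < c ∧ ∀ X : ℝ, X₁ ≤ X → ∃ Q : Finset B.LP, c * (X * g X) ≤
    ∑ b ∈ Q.powerset with (sysB B E (Spl M₂ B.S) D.s0 aτ).Fam b,
      Real.exp (-((sysB B E (Spl M₂ B.S) D.s0 aτ).nm b / X))

open Classical in
/-- **A_HYP4** (output: `χ₀ ≡ ω`). `W` is a complement of `Zt B M₂`. -/
def A_HYP4 : Prop :=
  ∀ (p : ℕ) [Fact p.Prime]
    (K M K₁ M₁ J M₂ : Type) [Field K]
    [NumberField K] [Field M] [NumberField M] [Field K₁] [NumberField K₁] [IsTotallyComplex K₁]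
    [Field M₁] [NumberField M₁] [IsTotallyComplex M₁] [Field J] [NumberField J] [Field M₂]
    [NumberField M₂] [Algebra K M] [Algebra K K₁] [Algebra K M₁] [Algebra M M₁] [Algebra K₁ M₁]
    [Algebra K J] [Algebra K M₂] [Algebra M M₂] [Algebra K₁ M₂] [Algebra M₁ M₂] [Algebra J M₂]
    (ε : K₁) (δ : M ≃ₐ[K] M) (P : (ZMod p)[X]) [Fact (Irreducible P)] [Fintype (AdjoinRoot P)]
    (a₀ : M₂ˣ), SitB p K M K₁ M₁ J M₂ ε δ P a₀ → OmS p M₁ ε δ P →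
  ∀ (B : Base p K M K₁ M₁ ε δ P) (D : BaseB B a₀), Nrml B →
  ∃ (g : ℝ → ℝ) (K₀ : ℝ), Slow g K₀ ∧
  ∀ (n : ℕ) (E : TauF n B) (aτ : K₁ˣ), OmType p K ε (aτ : K₁) → NrmInd E M₂ → ZK E M₂ →
  ∀ W : Submodule (AdjoinRoot P) (Fin B.r → AdjoinRoot P), IsCompl W (Zt B M₂) →
  ∃ (ψ : AddChar (AdjoinRoot P) ℂ) (K' : ℕ),
    Hyp₄ (subS (sysB B E (Spl M₂ B.S) D.s0 aτ) W) ψ (eL B) (NV B J M₂) (YG P K J) g K' ∧
  ∃ c X₁ : ℝ, 0 < c ∧ ∀ X : ℝ, X₁ ≤ X → ∃ Q : Finset B.LP, c * (X * g X) ≤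
    ∑ b ∈ Q.powerset with (subS (sysB B E (Spl M₂ B.S) D.s0 aτ) W).Fam b,
      Real.exp (-((subS (sysB B E (Spl M₂ B.S) D.s0 aτ) W).nm b / X))

end Pool.Agent.Helper11.M3
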