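import Pool.Agent.Helper11.M3.CHRG
import Pool.Agent.Helper11.M3.GoalsA

/-!
# Project M3 (MP_fc6b1e_nt, step 2): the two-sided characters of the systems `sysB`, pointwise form
-/

set_option autoImplicit false
set_option linter.unusedSectionVars false

namespace Pool.Agent.Helper11.M3

open NumberField Polynomial Module IsDedekindDomain
open Pool.Agent.Helper51.RP Pool.Agent.Helper42.RD Pool.Agent.Helper42.PP Pool.Agent.Helper42.PP1
open Pool.Agent.Helper76.PP Pool.Agent.Helper51.REC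
open Pool.Agent.Helper51.PP (RC Chs)
open Pool.Agent.Helper17.PP (Sys)
open Pool.Agent.Helper42.PB (TauF sysB)
open Pool.Agent.Helper35.PP (val_p_eq_one sup_mul_top span_sup_top)

/-- **A_BLG**. -/
theorem a_blg (hTWO : R_TWO) : A_BLG := by
  classical
  intro p hpF K M K₁ M₁ _ _ _ _ _ _ _ _ _ _ _ _ _ _ ε δ P hPi hs B hNr n E V s0 aτ hV tr ψ₁ hψ
  have h2 := Pool.Agent.Helper14.PP.b_prc
  have h3 := Pool.Agent.Helper94.PP.b_idn
  have := hs.st1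
  have := hs.st2
  have := hs.gM
  have := hs.gK
  have := hs.gMK
  have hψ0 := Pool.Agent.Helper12.PP.kap_psi p ψ₁ hψ
  obtain ⟨hm0, hidn, hidn2⟩ := h3 p K M₁ B.S B.abp
  have hcth : ∀ v ∈ B.Vis, (fun _ => 1 : HeightOneSpectrum (𝓞 K) → ZMod p) v ≠ 0 ∧
      ∀ x : M₁ˣ, (p : ℤ) ∣ ordv (B.W v) (x : M₁) →
        B.th v x = (fun _ => 1 : HeightOneSpectrum (𝓞 K) → ZMod p) v *
          kap p (algebraMap K₁ M₁ ε) (B.W v) x := by
    intro v hv
    refine ⟨one_ne_zero, fun x hx => ?_⟩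
    rw [one_mul]
    exact hNr v hv x hx
  -- the characters
  have hex : ∀ (q : B.LP) (t s c y : AdjoinRoot P) (e : (ZMod p)ˣ),
      ∃ ψ : Ideal (𝓞 M₁) → ZMod p, q.1.1 ∈ B.Vis →
        Psi p (modu p M₁ B.S * q.1.1.asIdeal.map (algebraMap (𝓞 K) (𝓞 M₁))) ψ ∧
        (∀ v ∈ B.Vis, v ≠ q.1.1 → ψ (B.W v).asIdeal = tr (s * c * B.A q.1.1 v) +
          (-((e : ZMod p) * (q.1.2 : ZMod p)⁻¹ * tr (s * t))) * B.pi q.1.1 v +
          (tr (t * y * B.A v q.1.1) +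
            (-((q.1.2 : ZMod p) * (e : ZMod p)⁻¹ * tr (y * c))) * B.pi v q.1.1)) ∧
        (NzG p M₁ ε δ P tr (s * c) (t * y)
            (-((e : ZMod p) * (q.1.2 : ZMod p)⁻¹ * tr (s * t)))
            (-((q.1.2 : ZMod p) * (e : ZMod p)⁻¹ * tr (y * c))) →
          ∃ α : 𝓞 M₁, α - 1 ∈ modu p M₁ B.S ∧
          Ideal.span {α} ⊔ q.1.1.asIdeal.map (algebraMap (𝓞 K) (𝓞 M₁)) = ⊤ ∧
          ψ (Ideal.span {α}) ≠ 0) := by
    intro q t s c y e
    by_cases hq : q.1.1 ∈ B.Vis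
    · obtain ⟨ψ, h4, h5, h6⟩ := chrG hTWO hs B (fun _ => 1) hcth tr hq (s * c) (t * y)
        (-((e : ZMod p) * (q.1.2 : ZMod p)⁻¹ * tr (s * t)))
        (-((q.1.2 : ZMod p) * (e : ZMod p)⁻¹ * tr (y * c))) 1
      refine ⟨ψ, fun _ => ⟨h4, fun v hv hne => ?_, fun h7 => h6 ?_⟩⟩
      · rw [h5 v hv hne, inv_one, one_mul, one_mul]
      · rw [inv_one, one_mul, one_smul, one_mul]
        exact h7
    · exact ⟨fun _ => 0, fun h => absurd h hq⟩
  choose Ψ hΨ using hex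
  refine ⟨fun q t s c y e ↦ chI (modu p M₁ B.S *
    q.1.1.asIdeal.map (algebraMap (𝓞 K) (𝓞 M₁))) ψ₁ (Ψ q t s c y e), ?_, ?_⟩
  · intro t s c y e Up Lo hUp hLo hnt
    refine
      { m0 := hm0
        inj := ?_
        nW := ?_
        nne := ?_
        cop₀ := ?_
        cop := ?_
        rc := ?_
        nt := ?_ }
    · intro q hq1 q' hq1' h
      obtain ⟨hq, hqe⟩ := hUp q hq1
      obtain ⟨hq', hqe'⟩ := hUp q' hq1'
      have hq0 : q.1.1 ∈ B.Vis := hV hq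
      have hq0' : q'.1.1 ∈ B.Vis := hV hq'
      have a1 : Above (B.W q.1.1) q.1.1 := (B.Wa _ hq0).1
      have a2 : Above (B.W q'.1.1) q'.1.1 := (B.Wa _ hq0').1
      have h' : B.W q.1.1 = B.W q'.1.1 := h
      have hv : q.1.1 = q'.1.1 := by
        apply HeightOneSpectrum.ext
        have a3 : (B.W q.1.1).asIdeal.comap (algebraMap (𝓞 K) (𝓞 M₁)) = q.1.1.asIdeal := a1
        have a4 : (B.W q'.1.1).asIdeal.comap (algebraMap (𝓞 K) (𝓞 M₁)) = q'.1.1.asIdeal := a2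
        rw [← a3, ← a4, h']
      have he : q.1.2 = q'.1.2 := hqe.trans hqe'.symm
      exact Subtype.ext (Prod.ext hv he)
    · intro q hq1
      obtain ⟨hq, -⟩ := hUp q hq1
      have hq0 : q.1.1 ∈ B.Vis := hV hq
      obtain ⟨hVIS, -, -⟩ := hs.vis q.1.1 (val_p_eq_one p B.abp hq0.1)
      obtain ⟨hWv, -, -, hWf⟩ := B.Wa _ hq0
      exact (hVIS _ hWv hWf).1
    · intro q hq
      obtain ⟨g1, g2, g3, -, -⟩ := hidn q.1.1
      exact ⟨g1, g2, le_of_eq g3⟩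
    · intro q hq
      have hq0 : q.1.1 ∈ B.Vis := hV (hLo q hq)
      exact (hidn q.1.1).2.2.2.1 hq0.1
    · intro q hq q' hq' hne
      exact (hidn q.1.1).2.2.2.2 q'.1.1 (fun h => hne h.symm)
    · intro q hq
      have hq0 : q.1.1 ∈ B.Vis := hV (hLo q hq)
      exact h2 p M₁ _ _ (hΨ q (t q) (s q) (c q) (y q) e hq0).1 ψ₁
    · intro q hq
      have hq0 : q.1.1 ∈ B.Vis := hV (hLo q hq)
      obtain ⟨α, hα1, hα2, hα3⟩ := (hΨ q (t q) (s q) (c q) (y q) e hq0).2.2 (hnt q hq)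
      refine ⟨α, hα1, hα2, ?_⟩
      have hα0 : Ideal.span {α} ≠ ⊥ := by
        intro h
        rw [h, bot_sup_eq] at hα2
        exact (hidn q.1.1).2.1 hα2
      have hcop : Ideal.span {α} ⊔ modu p M₁ B.S *
          q.1.1.asIdeal.map (algebraMap (𝓞 K) (𝓞 M₁)) = ⊤ :=
        sup_mul_top (span_sup_top hα1) hα2
      show chI _ ψ₁ _ (Ideal.span {α}) ≠ 1
      unfold chI
      rw [if_pos ⟨hα0, hcop⟩]
      intro h
      exact hα3 (hψ0 _ h)
  · intro t s c y q q₁ hq hq₁ hvv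
    have hq0 : q.1.1 ∈ B.Vis := hV hq
    have hq0' : q₁.1.1 ∈ B.Vis := hV hq₁
    have hWv : Above (B.W q₁.1.1) q₁.1.1 := (B.Wa _ hq0').1
    have hcop : (B.W q₁.1.1).asIdeal ⊔ modu p M₁ B.S *
          q.1.1.asIdeal.map (algebraMap (𝓞 K) (𝓞 M₁)) = ⊤ := by
      have g1 := hidn2 q₁.1.1 {q.1.1} hq0'.1 (by
        rw [Finset.mem_singleton]
        exact fun h => hvv h.symm) _ hWv
      unfold mD at g1
      rw [Finset.prod_singleton] at g1
      exact g1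
    show chI _ ψ₁ _ (B.W q₁.1.1).asIdeal = _
    unfold chI
    rw [if_pos ⟨(B.W q₁.1.1).ne_bot, hcop⟩,
      (hΨ q t s c y q₁.1.2 hq0).2.1 q₁.1.1 hq0' (fun h => hvv h.symm)]
    show ψ₁ _ = ψ₁ (tr (s * (c * B.A q.1.1 q₁.1.1 + t * algebraMap (ZMod p) (AdjoinRoot P)
      (-((q₁.1.2 : ZMod p) * (q.1.2 : ZMod p)⁻¹ * B.pi q.1.1 q₁.1.1))) +
      y * (t * B.A q₁.1.1 q.1.1 + c * algebraMap (ZMod p) (AdjoinRoot P)
      (-((q.1.2 : ZMod p) * (q₁.1.2 : ZMod p)⁻¹ * B.pi q₁.1.1 q.1.1)))))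
    congr 1
    have g2 : s * (c * B.A q.1.1 q₁.1.1 + t * algebraMap (ZMod p) (AdjoinRoot P)
      (-((q₁.1.2 : ZMod p) * (q.1.2 : ZMod p)⁻¹ * B.pi q.1.1 q₁.1.1))) +
      y * (t * B.A q₁.1.1 q.1.1 + c * algebraMap (ZMod p) (AdjoinRoot P)
      (-((q.1.2 : ZMod p) * (q₁.1.2 : ZMod p)⁻¹ * B.pi q₁.1.1 q.1.1))) =
        s * c * B.A q.1.1 q₁.1.1 +
          (-((q₁.1.2 : ZMod p) * (q.1.2 : ZMod p)⁻¹ * B.pi q.1.1 q₁.1.1)) • (s * t) +
        (t * y * B.A q₁.1.1 q.1.1 +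
          (-((q.1.2 : ZMod p) * (q₁.1.2 : ZMod p)⁻¹ * B.pi q₁.1.1 q.1.1)) • (y * c)) := by
      rw [Algebra.smul_def, Algebra.smul_def]
      ring
    rw [g2, map_add, map_add, map_add, map_smul, map_smul, smul_eq_mul, smul_eq_mul]
    ring

end Pool.Agent.Helper11.M3
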