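import Pool.Agent.Helper11.M3.Defs4
import Pool.Agent.Helper11.R.Goals
import Pool.Agent.Helper38.WY.Goals7
import Pool.Agent.Helper38.ND.Defs

/-!
# Project M3 (MP_fc6b1e_nt, step 2): the arithmetic side: definitions
-/

set_option autoImplicit false

namespace Pool.Agent.Helper11.M3

open NumberField Polynomial Module IsDedekindDomain
open Pool.Agent.Helper51.RP Pool.Agent.Helper42.RD Pool.Agent.Helper42.PP Pool.Agent.Helper42.PP1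
open Pool.Agent.Helper42.PB Pool.Agent.Helper11.PP
open Pool.Agent.Helper17.PP (Sys)

section abs

variable {p : ℕ} {B B₀ k U Λ C : Type} [Field k] [AddCommGroup U] [Module k U]
    [AddCommGroup Λ] [Module k Λ] [AddCommGroup C] (S : Sys p B B₀ k U Λ C)

/-- The system `S` with `U` replaced by a subspace. -/
def subS (W : Submodule k U) : Sys p B B₀ k W Λ C where
  bs := S.bs
  N := S.N
  spl := S.spl
  cls := S.cls
  cl₀ := S.cl₀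
  lam₀ := S.lam₀.comp W.subtype
  lam := S.lam
  res q := (S.res q).comp W.subtype
  a := S.a
  dg := S.dg
  kap := S.kap
  two_le := S.two_le
  fin := S.fin
  bsN := S.bsN
  bsS := S.bsS

/-- `AnaN` with an arbitrary set `Bp` in the place of the bad sets. -/
def AnaP (Bp : Finset B → Prop) (g : ℝ → ℝ) (θ Kc c X₁ : ℝ) : Prop :=
  (∀ X : ℝ, 0 < X → {b | S.Fam b ∧ (S.nm b : ℝ) ≤ X}.Finite ∧
    ({b | S.Fam b ∧ (S.nm b : ℝ) ≤ X}.ncard : ℝ) ≤ Kc * (X * g X)) ∧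
  (∀ X : ℝ, 0 < X → X₁ ≤ X → c * (X * g X) ≤ {b | S.Fam b ∧ (S.nm b : ℝ) ≤ X}.ncard) ∧
  ∀ η : ℝ, 0 < η → ∃ X₀ : ℝ, ∀ X : ℝ, X₀ ≤ X →
    ({b | S.Fam b ∧ Bp b ∧ (S.nm b : ℝ) ≤ X}.ncard : ℝ) ≤
      θ * {b | S.Fam b ∧ (S.nm b : ℝ) ≤ X}.ncard + η * (X * g X)

end abs

section grp

variable (p : ℕ) [Fact p.Prime] {K M K₁ : Type} (M₁ : Type) [Field K] [Field M] [Field K₁]
    [Field M₁] [Algebra K M] [Algebra K K₁] [Algebra K M₁] [Algebra M M₁] [Algebra K₁ M₁] (ε : K₁)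
    (δ : M ≃ₐ[K] M) (P : (ZMod p)[X])

/-- The function `g ↦ tr(η ξ^(-i(g))) + n(g)⁻¹ tr(η' ξ^(i(g))) + γ n(g)⁻¹ + γ'` on `Gal(M₁/K)` is not zero. -/
def NzG (tr : AdjoinRoot P →ₗ[ZMod p] ZMod p) (η η' : AdjoinRoot P) (γ γ' : ZMod p) : Prop :=
  ∃ (g : M₁ ≃ₐ[K] M₁) (i : ℕ) (σ : K₁ ≃ₐ[K] K₁), i < finrank K M ∧
    (∀ y : M, g (algebraMap M M₁ y) = algebraMap M M₁ ((δ ^ i) y)) ∧
    (∀ y : K₁, g (algebraMap K₁ M₁ y) = algebraMap K₁ M₁ (σ y)) ∧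
    tr (η * AdjoinRoot.root P ^ (finrank K M - i)) +
      (nsig p ε σ)⁻¹ * tr (η' * AdjoinRoot.root P ^ i) + γ * (nsig p ε σ)⁻¹ + γ' ≠ 0

/-- The nonvanishing in the self-dual (`τ = 1`) and in the unitary case. -/
def NzT (τ : AdjoinRoot P ≃+* AdjoinRoot P) : Prop :=
  ∀ (η η' : AdjoinRoot P) (γ γ' : ZMod p), η + τ η' ≠ 0 →
    NzG p M₁ ε δ P (Algebra.trace (ZMod p) (AdjoinRoot P)) η η' γ γ'

/-- `χ₀ ≡ ω` (or `χ₀ = 1` and `K` contains the `p`-th roots of unity), `p` odd. -/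
structure OmS : Prop where
  two : p ≠ 2
  deg : P.natDegree = 1
  eps : ∃ ε₀ : M, algebraMap M M₁ ε₀ = algebraMap K₁ M₁ ε
  gen : ∀ g : M₁ ≃ₐ[K] M₁, g (algebraMap K₁ M₁ ε) = algebraMap K₁ M₁ ε → g = 1
  rel : ∀ (g : M₁ ≃ₐ[K] M₁) (i : ℕ) (σ : K₁ ≃ₐ[K] K₁),
    (∀ y : M, g (algebraMap M M₁ y) = algebraMap M M₁ ((δ ^ i) y)) →
    (∀ y : K₁, g (algebraMap K₁ M₁ y) = algebraMap K₁ M₁ (σ y)) →
    AdjoinRoot.root P ^ i = algebraMap (ZMod p) (AdjoinRoot P) (nsig p ε σ)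

end grp

section fld

variable {p : ℕ} {B B₀ k U Λ C : Type} [Field k] [AddCommGroup U] [Module k U]
    [AddCommGroup Λ] [Module k Λ] [AddCommGroup C] (S : Sys p B B₀ k U Λ C)

open Classical in
/-- The field `bl₃` of `Hyp₃`. -/
def Bl3F [Algebra (ZMod p) k] (ψ : AddChar k ℂ) (Lk : k → k → Prop) (K : ℕ) : Prop :=
  ∀ (i j : ℕ) (t s c y : k) (α β : B → ℂ) (Y : ℝ), 1 ≤ i → 1 ≤ j → i ≠ j → t ≠ 0 →
    s ≠ 0 → (c ≠ 0 ∨ y ≠ 0) → Lk (s * c) (t * y) → 0 < Y → (∀ q, ‖α q‖ ≤ 1) →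
    (∀ q, ‖β q‖ ≤ 1) →
    ‖∑ q₁ ∈ S.blk i with S.spl q₁, ∑ q ∈ S.blk j with S.spl q, α q₁ * β q *
      ψ (s * (c * S.a q q₁ + t * algebraMap (ZMod p) k (S.kap q q₁)) +
        y * (t * S.a q₁ q + c * algebraMap (ZMod p) k (S.kap q₁ q))) *
      (Real.exp (-((S.N q : ℝ) * S.N q₁ / Y)) : ℂ)‖ ≤
      K * 2 ^ (i + j) * (i + j) ^ K * (2 : ℝ) ^ (-(min i j : ℝ) / K) *
        Real.exp (-((2 : ℝ) ^ (i + j) / (2 * Y)))

open Classical in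
/-- The field `bl₁` of `Hyp₄`. -/
def Bl1F [Fintype k] [Algebra (ZMod p) k] (ψ : AddChar k ℂ) (e : B → k) (K : ℕ) : Prop :=
  ∀ (i j : ℕ) (t ε : k) (y c : B → k) (α : B → ℂ) (β : Finset B → ℂ) (X : ℝ), 1 ≤ j →
    t ≠ 0 → 0 < X → (∀ q, ‖α q‖ ≤ 1) → (∀ D, ‖β D‖ ≤ (Fintype.card k : ℝ) ^ D.card) →
    (∀ D, β D ≠ 0 → Set.InjOn S.bs (D : Set B) ∧
      ∀ q ∈ D, S.spl q ∧ S.bl q ≠ j ∧ y q ≠ 0 ∧ c q * ε ≠ t * e q) →
    ‖∑ q ∈ S.blk j with (S.spl q ∧ e q = ε), ∑ D ∈ S.mods i, α q * β D * S.chr ψ D y c t q *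
      (Real.exp (-(S.N q * S.nm D / X)) : ℂ)‖ ≤
      K * 2 ^ (i + j) * (i + 1) ^ K * (2 : ℝ) ^ (-(min i j : ℝ) / K) *
        Real.exp (-((2 : ℝ) ^ (i + j) / (2 * X)))

open Classical in
/-- The field `bl₄` of `Hyp₄`. -/
def Bl4F [Fintype k] [Algebra (ZMod p) k] (ψ : AddChar k ℂ) (N : B → Prop) (K : ℕ) : Prop :=
  ∀ (i j : ℕ) (y c : B → k) (α : B → ℂ) (β : Finset B → ℂ) (X : ℝ), 1 ≤ j →
    0 < X → (∀ q, ‖α q‖ ≤ 1) → (∀ D, ‖β D‖ ≤ (Fintype.card k : ℝ) ^ D.card) →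
    (∀ D, β D ≠ 0 → Set.InjOn S.bs (D : Set B) ∧
      ∀ q ∈ D, S.spl q ∧ (S.bl q ≠ j ∨ ∀ q', N q' → ¬ S.spl q') ∧ y q ≠ 0 ∧ c q ≠ 0) →
    ‖∑ P₁ ∈ S.blk j with N P₁, ∑ D ∈ S.mods i, α P₁ * β D *
      (∏ q' ∈ D, ψ (y q' * (c q' * algebraMap (ZMod p) k (S.kap q' P₁)))) *
      (Real.exp (-(S.N P₁ * S.nm D / X)) : ℂ)‖ ≤
      K * 2 ^ (i + j) * (i + 1) ^ K * (2 : ℝ) ^ (-(min i j : ℝ) / K) *
        Real.exp (-((2 : ℝ) ^ (i + j) / (2 * X)))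

open Classical in
/-- The field `bl₅` of `Hyp₄`. -/
def Bl5F [Algebra (ZMod p) k] (ψ : AddChar k ℂ) (N : B → Prop) (Y : AddSubgroup k) (K : ℕ) :
    Prop :=
  ∀ (i j : ℕ) (t s y : k) (α β : B → ℂ) (X : ℝ), 1 ≤ i → 1 ≤ j →
    (i ≠ j ∨ ∀ q', N q' → ¬ S.spl q') → t ≠ 0 → y ∈ Y → (s ≠ 0 ∨ y ≠ 0) → 0 < X →
    (∀ q, ‖α q‖ ≤ 1) → (∀ q, ‖β q‖ ≤ 1) →
    ‖∑ P₁ ∈ S.blk i with N P₁, ∑ q ∈ S.blk j with S.spl q, α P₁ * β q *
      ψ (s * (t * algebraMap (ZMod p) k (S.kap q P₁)) + y * (t * S.a P₁ q)) *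
      (Real.exp (-((S.N q : ℝ) * S.N P₁ / X)) : ℂ)‖ ≤
      K * 2 ^ (i + j) * (i + j) ^ K * (2 : ℝ) ^ (-(min i j : ℝ) / K) *
        Real.exp (-((2 : ℝ) ^ (i + j) / (2 * X)))

open Classical in
/-- The field `merN` of `Hyp₄`. -/
def MerNF (N : B → Prop) (K : ℕ) : Prop :=
  ∀ m n : ℕ, 1 ≤ m → m ≤ n → (1 / K : ℝ) * Real.log (n / m) - K ≤
    ∑ q ∈ S.below n with N q ∧ m ≤ S.bl q, (1 : ℝ) / S.N q

end fld

section bas

variable {p : ℕ} [Fact p.Prime] {K M K₁ M₁ : Type} [Field K] [NumberField K] [Field M]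
    [NumberField M] [Field K₁] [NumberField K₁] [Field M₁] [NumberField M₁] [Algebra K M]
    [Algebra K K₁] [Algebra K M₁] [Algebra M M₁] [Algebra K₁ M₁] {ε : K₁} {δ : M ≃ₐ[K] M}
    {P : (ZMod p)[X]} (B : Base p K M K₁ M₁ ε δ P)

/-- The normalised logarithms: `th v` is the tame symbol with `ε`. -/
def Nrml : Prop := ∀ v ∈ B.Vis, ∀ x : M₁ˣ, (p : ℤ) ∣ ordv (B.W v) (x : M₁) →
  B.th v x = Pool.Agent.Helper51.REC.kap p (algebraMap K₁ M₁ ε) (B.W v) x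

/-- The coordinates of the `S`-units which are `p`-th powers in `M₂`. -/
noncomputable def Zt [Fact (Irreducible P)] (M₂ : Type) [Field M₂] [Algebra M M₂] : Submodule (AdjoinRoot P)
    (Fin B.r → AdjoinRoot P) :=
  Submodule.span (AdjoinRoot P) {x | ∃ y : Mˣ, y ∈ (up M B.S).unit M ∧ Pw p (pol P δ y) ∧
    (∃ w : M₂, w ^ p = algebraMap M M₂ (y : M)) ∧ ∀ i, B.rho i y = x i}

/-- The functionals kill the elements of type `P` which are `p`-th powers in `M₂`. -/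
def ZK {n : ℕ} {B : Base p K M K₁ M₁ ε δ P} (E : TauF n B) (M₂ : Type) [Field M₂] [Algebra M M₂] :
    Prop :=
  ∀ y : Mˣ, Pw p (pol P δ y) → (∃ w : M₂, w ^ p = algebraMap M M₂ (y : M)) → ∀ j, E.h j y = 0

/-- The label of `q`. -/
noncomputable def eL (q : B.LP) : AdjoinRoot P :=
  algebraMap (ZMod p) (AdjoinRoot P) ((q.1.2 : (ZMod p)ˣ) : ZMod p)

/-- The possible pivots: all primes if `J = K`, otherwise the primes which are not visible. -/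
def NV (J M₂ : Type) [Field J] [Algebra K J] [Field M₂] [NumberField M₂] [Algebra K M₂]
    (q : B.LP) : Prop := finrank K J = 1 ∨ q.1.1 ∉ Spl M₂ B.S

open Classical in
/-- The group of characters at the pivot. -/
noncomputable def YG (P : (ZMod p)[X]) [Fact (Irreducible P)] (K J : Type) [Field K] [Field J] [Algebra K J] :
    AddSubgroup (AdjoinRoot P) :=
  if finrank K J = 1 ∧ AdjoinRoot.root P ≠ 1 then ⊤ else ⊥

end bas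

end Pool.Agent.Helper11.M3
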