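import Pool.Agent.Helper11.R.Chr
import Pool.Agent.Helper11.R.BL3
import Pool.Agent.Helper11.M3.DefsA

/-!
# Project M3 (MP_fc6b1e_nt, step 2): the two-sided characters, pointwise form of the nontriviality
-/

set_option autoImplicit false
set_option linter.unusedSectionVars false

namespace Pool.Agent.Helper11.M3

open NumberField Polynomial Module IsDedekindDomain
open Pool.Agent.Helper51.RP Pool.Agent.Helper42.RD Pool.Agent.Helper42.PP Pool.Agent.Helper42.PP1
open Pool.Agent.Helper76.PP Pool.Agent.Helper51.REC Pool.Agent.Helper11.R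
open Pool.Agent.Helper40.RS (bel gw bel_smul lies conj_of_bel free_gw absNorm_free val_smul)
open Pool.Agent.Helper13.RD (eq_gw ram_free eq_of_val)
open Pool.Agent.Helper40.RD (bel_of_above ordW)
open Pool.Agent.Helper22.PP (nsig_eq nsig_mul nsig_one nsig_ne nsig_inv exists_n)

variable {p : ℕ} [hpF : Fact p.Prime] {K M K₁ M₁ : Type} [Field K] [NumberField K] [Field M]
    [NumberField M] [Field K₁] [NumberField K₁] [Field M₁] [NumberField M₁] [Algebra K M]
    [Algebra K K₁] [Algebra K M₁] [Algebra M M₁] [Algebra K₁ M₁] {ε : K₁} {δ : M ≃ₐ[K] M}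
    {P : (ZMod p)[X]}

theorem chrG (hTWO : R_TWO) [IsTotallyComplex M₁] (hs : SitW p K M K₁ M₁ ε δ P)
    (B : Base p K M K₁ M₁ ε δ P) (cth : HeightOneSpectrum (𝓞 K) → ZMod p)
    (hcth : ∀ v ∈ B.Vis, cth v ≠ 0 ∧ ∀ x : M₁ˣ, (p : ℤ) ∣ ordv (B.W v) (x : M₁) →
        B.th v x = cth v * kap p (algebraMap K₁ M₁ ε) (B.W v) x)
    (tr : AdjoinRoot P →ₗ[ZMod p] ZMod p) {v : HeightOneSpectrum (𝓞 K)} (hv : v ∈ B.Vis)
    (η η' : AdjoinRoot P) (γ ρ κ : ZMod p) :
    ∃ ψ : Ideal (𝓞 M₁) → ZMod p,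
      Psi p (modu p M₁ B.S * v.asIdeal.map (algebraMap (𝓞 K) (𝓞 M₁))) ψ ∧
      (∀ q ∈ B.Vis, q ≠ v → ψ (B.W q).asIdeal = tr (η * B.A v q) + γ * B.pi v q +
        κ * ((cth q)⁻¹ * (tr (η' * B.A q v) + ρ * B.pi q v))) ∧
      (NzG p M₁ ε δ P tr η ((κ * (cth v)⁻¹) • η') γ (κ * (cth v)⁻¹ * ρ) →
        ∃ α : 𝓞 M₁, α - 1 ∈ modu p M₁ B.S ∧
        Ideal.span {α} ⊔ v.asIdeal.map (algebraMap (𝓞 K) (𝓞 M₁)) = ⊤ ∧
        ψ (Ideal.span {α}) ≠ 0) := by
  classical
  have hUPR := Pool.Agent.Helper16.PP.p_upr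
  have hCHR := Pool.Agent.Helper96.PP.b_chr
  have hIDN := Pool.Agent.Helper94.PP.b_idn
  have hCRT := Pool.Agent.Helper56.PP.b_crt hUPR hIDN
  have hNOR := Pool.Agent.Helper32.PP.b_nor hUPR
  have := hs.st1
  have := hs.st2
  have := hs.gM
  have := hs.gK
  have := hs.gMK
  have hp : p.Prime := hpF.out
  set m : ℕ := finrank K M with hmdef
  have hm : finrank K M = m := rfl
  have hδ : orderOf δ = m := hs.ord
  have hm0 : AdjoinRoot.root P ^ m = 1 := root_pow_m m hs.dvdP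
  have hδm : δ ^ m = 1 := by rw [← hδ]; exact pow_orderOf_eq_one δ
  obtain ⟨c, hc1⟩ := exists_chr0 (P := P) δ m hδ hm hm0
  obtain ⟨hN1, hN2, hN3⟩ := w_nrm p K M K₁ M₁ ε δ P hs B
  obtain ⟨hL1, ⟨c₀, hc₀, hL2⟩, -⟩ := w_log p K M K₁ M₁ ε δ P hs B v hv
  obtain ⟨hR, hG⟩ := hN3 v hv
  obtain ⟨htR, htR0, htR1⟩ := hN1 _ hR
  obtain ⟨htG, htG0, htG1⟩ := hN2 _ hG
  obtain ⟨hWv, hWQ, hWw, hWf⟩ := B.Wa v hv
  have hvS : v ∉ B.S := hv.1
  obtain ⟨hI1, hI2, -⟩ := hIDN p K M₁ B.S B.abp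
  obtain ⟨hn1, hn2, hn3, -⟩ := hNOR p K M M₁ B.S
  obtain ⟨hn1', hn2', hn3', hn4'⟩ := hNOR p K K₁ M₁ B.S
  set ε' : M₁ := algebraMap K₁ M₁ ε with hε'
  have hε : IsPrimitiveRoot ε' p := hs.prim.map_of_injective (algebraMap K₁ M₁).injective
  set Z : Set (HeightOneSpectrum (𝓞 M₁)) := up M₁ B.S with hZ
  have hZf : Z.Finite := (hUPR p K M₁ B.S).1
  have habp : ∀ W : HeightOneSpectrum (𝓞 M₁), W.valuation M₁ (p : M₁) < 1 → W ∈ Z := by
    intro W hW
    rw [hZ, up_iff]
    refine B.abp _ (lt_of_le_of_ne ?_ fun h => ?_)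
    · have := (bel K W).valuation_le_one (K := K) (p : 𝓞 K)
      simpa using this
    · exact absurd (val_above (above_bel W) p h) hW.ne
  have hSit : Pool.Agent.Helper51.REC.Sit p M₁ ε' Z := ⟨hε, inferInstance, hZf, habp, B.prMK⟩
  have hvp : ∀ W : HeightOneSpectrum (𝓞 M₁), Above W v → W.valuation M₁ (p : M₁) = 1 :=
    fun W hW => val_above hW p (val_vis B hv)
  obtain ⟨hB1, hB2, -, hB4, -⟩ := Pool.Agent.Helper33.REC.k_brk Pool.Agent.Helper16.REC.k_bas p M₁ ε'
    Z hε habp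
  -- the element `Θ`
  obtain ⟨Θ, hΘ1, hΘ2, hΘ3⟩ := exists_theta hs B hm0 tr c hc1 hv η' ρ
  -- the primes above `v`
  have hT : {W : HeightOneSpectrum (𝓞 M₁) | Above W v}.Finite := above_fin M₁ v
  set T : Finset (HeightOneSpectrum (𝓞 M₁)) := hT.toFinset with hTdef
  have hTm : ∀ W, W ∈ T ↔ Above W v := fun W => by rw [hTdef, Set.Finite.mem_toFinset]; exact Iff.rfl
  have hTS : ∀ W ∈ T, W ∉ Z := by
    intro W hW
    rw [hZ, up_iff, bel_of_above ((hTm W).1 hW)]
    exact hvS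
  have hbrk : ∀ x : M₁ˣ, brk p ε' Z x Θ = ∑ W ∈ T, ((ordv W (Θ : M₁) : ℤ) : ZMod p) *
      kap p ε' W x := by
    intro x
    refine hB4 x Θ T hTS fun W hW h => ?_
    rw [hTm]
    by_contra h1
    exact h (by rw [hΘ2 W hW h1]; exact dvd_zero _)
  -- the reciprocity law
  have hrec : ∀ (x : M₁ˣ) (α : 𝓞 M₁), (x : M₁) = α → α - 1 ∈ modu p M₁ B.S →
      (∀ W, Above W v → ordv W (x : M₁) = 0) →
      brk p ε' Z Θ x = ∑ W ∈ T, ((ordv W (Θ : M₁) : ℤ) : ZMod p) * kap p ε' W x := by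
    intro x α hx hα hW0
    rw [← hbrk]
    refine hTWO p M₁ ε' Z hSit Θ x ?_ ?_
    · exact Pool.Agent.Helper35.PP.locS_of_modu p B.S x α hx hα
    · intro W hW
      by_cases h : Above W v
      · right
        rw [hW0 W h]
        exact dvd_zero _
      · left
        rw [hΘ2 W hW h]
        exact dvd_zero _
  -- the functional
  have hf : Hom (fun x => fU B tr v η γ x + κ * brk p ε' Z Θ x) := by
    intro x y
    change fU B tr v η γ (x * y) + κ * brk p ε' Z Θ (x * y) = _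
    rw [hB1]
    unfold fU
    rw [MonoidHom.map_mul, MonoidHom.map_mul, htR.1, htG.1, mul_add, mul_add, LinearMap.map_add]
    ring
  have hf0 : ∀ x ∈ Z.unit M₁, fU B tr v η γ x + κ * brk p ε' Z Θ x = 0 := by
    intro x hx
    have e1 : brk p ε' Z Θ x = 0 := by
      refine hB2 Θ x fun W hW => ?_
      have h1 : W.valuation M₁ (x : M₁) = 1 := hx W hW
      unfold ordv
      rw [h1, WithZero.log_one, neg_zero]
      exact dvd_zero _
    rw [e1]
    unfold fU
    rw [htR0 _ (hn1 x hx), htG0 _ (hn1' x hx), mul_zero, mul_zero, map_zero, add_zero, mul_zero,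
      add_zero]
  -- the value at `x = α ≡ 1`
  have hf1 : ∀ (x : M₁ˣ) (α : 𝓞 M₁), (x : M₁) = α → α - 1 ∈ modu p M₁ B.S →
      fU B tr v η γ x = ∑ g : M₁ ≃ₐ[K] M₁, (tr (η * c (AlgEquiv.restrictNormalHom M g)) +
        γ * (nsig p ε (AlgEquiv.restrictNormalHom K₁ g))⁻¹) * B.th v (act g x) := by
    intro x α hx hα
    have e1 := (hn3 x α hx).1 hα
    have e2 := (hn3' x α hx).1 hα
    unfold fU
    rw [htR1 _ e1, htG1 _ e2, tr_R B hNOR m hδ hm tr hv c hc1 η x, G_nrm B hNOR hv x,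
      Finset.mul_sum, ← Finset.sum_add_distrib]
    refine Finset.sum_congr rfl fun g _ ↦ ?_
    ring
  have hf2 : ∀ (x : M₁ˣ) (α : 𝓞 M₁), (x : M₁) = α →
      α - 1 ∈ modu p M₁ B.S * v.asIdeal.map (algebraMap (𝓞 K) (𝓞 M₁)) →
      fU B tr v η γ x + κ * brk p ε' Z Θ x = 0 := by
    intro x α hx hα
    have hα1 : α - 1 ∈ modu p M₁ B.S := (Ideal.mul_le_left (I := modu p M₁ B.S)
      (J := v.asIdeal.map (algebraMap (𝓞 K) (𝓞 M₁)))) hα
    have hα2 : α - 1 ∈ v.asIdeal.map (algebraMap (𝓞 K) (𝓞 M₁)) :=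
      (Ideal.mul_le_right (I := modu p M₁ B.S)
        (J := v.asIdeal.map (algebraMap (𝓞 K) (𝓞 M₁)))) hα
    have hα3 : ∀ W, Above W v → α - 1 ∈ W.asIdeal := by
      intro W hW
      refine (Ideal.map_le_iff_le_comap.2 ?_) hα2
      exact le_of_eq hW.symm
    rw [hf1 x α hx hα1, hrec x α hx hα1 (fun W hW => by
      rw [hx]; exact ordv_zero_of_sub_one (hα3 W hW))]
    have e2 : ∑ W ∈ T, ((ordv W (Θ : M₁) : ℤ) : ZMod p) * kap p ε' W x = 0 := by
      refine Finset.sum_eq_zero fun W hW => ?_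
      rw [kap_zero_of_sub_one hε (hvp W ((hTm W).1 hW)) (hα3 W ((hTm W).1 hW)) x hx, mul_zero]
    rw [e2, mul_zero, add_zero]
    refine Finset.sum_eq_zero fun g _ ↦ ?_
    have e0 : B.th v (act g x) = 0 := by
      apply hL1
      have e1 : ((act g x : M₁ˣ) : M₁) = g (α : M₁) := by rw [← hx]; rfl
      rw [e1]
      exact val_act_lt g v (B.W v) hWv α hα2
    rw [e0, mul_zero]
  have h𝔪 : modu p M₁ B.S * v.asIdeal.map (algebraMap (𝓞 K) (𝓞 M₁)) ≠ ⊥ :=
    mul_ne_zero hI1 (hI2 v).1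
  obtain ⟨-, -, hC1, hC2, hC3⟩ := hCHR p M₁ Z B.prMK _ h𝔪
    (fun x => fU B tr v η γ x + κ * brk p ε' Z Θ x) hf hf0 hf2
  refine ⟨idl Z (fun x => fU B tr v η γ x + κ * brk p ε' Z Θ x), hC1, fun q hq hqv ↦ ?_,
    fun hNZ ↦ ?_⟩
  · -- value at `W q`
    obtain ⟨hq1, hq2, hq3, hq4⟩ := B.Wa q hq
    have e1 : idl Z (fun x => fU B tr v η γ x + κ * brk p ε' Z Θ x) (B.W q).asIdeal =
        fU B tr v η γ (B.z q) + κ * brk p ε' Z Θ (B.z q) :=
      hC3 (B.W q) (B.z q) (B.zo q hq)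
    rw [e1]
    have hqK : q ∈ Spl K₁ B.S := by
      have := ((hs.vis q (val_vis B hq)).1 (B.W q) hq1 hq4).2.2 (B.Q q) hq2
      exact ⟨hq.1, B.Q q, this.2.2, this.1⟩
    have e2 : B.tilw (B.G v) (nrm K₁ M₁ (B.z q)) = B.tilw (B.G v) (B.y q) := by
      have e3 : nrm K₁ M₁ (B.z q) / B.y q ∈ (up K₁ B.S).unit K₁ := by
        intro w hw
        have e4 := hn4' q (B.W q) (B.Q q) hq.1 hq1 hq2 hq4 (B.z q) (B.zo q hq) w hw
        have e5 := B.yo q hqK w hw
        have e6 : ordv w ((nrm K₁ M₁ (B.z q) : K₁ˣ) : K₁) = ordv w (B.y q : K₁) := by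
          by_cases h : w = B.Q q
          · rw [e4.1 h, e5.1 h]
          · rw [e4.2 h, e5.2 h]
        have e7 : w.valuation K₁ ((nrm K₁ M₁ (B.z q) : K₁ˣ) : K₁) = w.valuation K₁ (B.y q : K₁) := by
          unfold ordv at e6
          have a1 : w.valuation K₁ ((nrm K₁ M₁ (B.z q) : K₁ˣ) : K₁) ≠ 0 := by
            rw [Valuation.ne_zero_iff]; exact Units.ne_zero _
          have a2 : w.valuation K₁ (B.y q : K₁) ≠ 0 := by
            rw [Valuation.ne_zero_iff]; exact Units.ne_zero _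
          rw [← WithZero.exp_log a1, ← WithZero.exp_log a2, neg_injective e6]
        change w.valuation K₁ ((nrm K₁ M₁ (B.z q) / B.y q : K₁ˣ) : K₁) = 1
        rw [Units.val_div_eq_div_val, map_div₀, e7, div_self]
        rw [Valuation.ne_zero_iff]; exact Units.ne_zero _
      have e8 := htG.1 (nrm K₁ M₁ (B.z q) / B.y q) (B.y q)
      rw [div_mul_cancel, htG0 _ e3, zero_add] at e8
      exact e8
    have hWqZ : B.W q ∉ Z := by
      rw [hZ, up_iff, bel_of_above hq1]
      exact hq.1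
    have hWqv : ¬ Above (B.W q) v := by
      intro h
      apply hqv
      rw [← bel_of_above hq1, bel_of_above h]
    have hΘW : (p : ℤ) ∣ ordv (B.W q) (Θ : M₁) := by
      rw [hΘ2 _ hWqZ hWqv]
      exact dvd_zero _
    have e9 : brk p ε' Z Θ (B.z q) = kap p ε' (B.W q) Θ := by
      rw [hB4 Θ (B.z q) {B.W q} ?_ ?_, Finset.sum_singleton,
        (B.zo q hq _ hWqZ).1 rfl, Int.cast_one, one_mul]
      · intro W hW
        rw [Finset.mem_singleton] at hW
        rw [hW]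
        exact hWqZ
      · intro W hW h
        rw [Finset.mem_singleton]
        by_contra h1
        exact h (by rw [(B.zo q hq W hW).2 h1]; exact dvd_zero _)
    have e10 : kap p ε' (B.W q) Θ = (cth q)⁻¹ * (tr (η' * B.A q v) + ρ * B.pi q v) := by
      have h1 := (hcth q hq).2 Θ hΘW
      rw [hΘ1 q hq] at h1
      rw [h1, ← mul_assoc, inv_mul_cancel₀ (hcth q hq).1, one_mul]
    rw [e9, e10]
    unfold fU Base.A
    rw [e2]
    rfl
  · -- nontriviality
    obtain ⟨g, i, σ, hi, h1, h2, h3⟩ := hNZ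
    have hgM : AlgEquiv.restrictNormalHom M g = δ ^ i := restr_eq (E := M) g (δ ^ i) h1
    have hgK : AlgEquiv.restrictNormalHom K₁ g = σ := restr_eq (E := K₁) g σ h2
    obtain ⟨W', hW1, hW2⟩ := exists_pull (K := K) (B.W v) g
    have hW' : Above W' v := by
      rw [bel_of_above hWv] at hW2
      rw [← hW2]; rfl
    obtain ⟨α, hα0, hα1, hα2, hα3, hα4, -⟩ := hCRT p K M₁ B.S ∅ B.abp v hvS (Finset.notMem_empty _)
      c₀ hc₀ W' hW'
    have hα1' : α - 1 ∈ modu p M₁ B.S := by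
      unfold mD at hα1
      simpa using hα1
    refine ⟨α, hα1', hα4, ?_⟩
    have hα0' : (α : M₁) ≠ 0 := by
      intro h
      exact hα0 (RingOfIntegers.coe_eq_zero_iff.1 h)
    set x : M₁ˣ := Units.mk0 (α : M₁) hα0' with hx
    have hαW : ∀ W, Above W v → ordv W (x : M₁) = 0 := by
      intro W hW
      refine ordv_zero_of_notMem fun h => ?_
      apply W.isPrime.ne_top
      rw [eq_top_iff, ← hα4, sup_le_iff]
      refine ⟨?_, ?_⟩
      · rw [Ideal.span_singleton_le_iff_mem]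
        exact h
      · exact Ideal.map_le_iff_le_comap.2 (le_of_eq hW.symm)
    have e0 : idl Z (fun x => fU B tr v η γ x + κ * brk p ε' Z Θ x) (Ideal.span {α}) =
        fU B tr v η γ x + κ * brk p ε' Z Θ x := hC2 x α rfl
    have hth1 : B.th v (act g x) = 1 := by
      apply hL2
      change (B.W v).valuation M₁ (g (α : M₁) - algebraMap K M₁ (c₀ : K)) < 1
      have e2 : g (α : M₁) - algebraMap K M₁ (c₀ : K) =
          g ((α - algebraMap (𝓞 K) (𝓞 M₁) c₀ : 𝓞 M₁) : M₁) := by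
        have e3 : ((α - algebraMap (𝓞 K) (𝓞 M₁) c₀ : 𝓞 M₁) : M₁) =
            (α : M₁) - algebraMap K M₁ (c₀ : K) := rfl
        rw [e3, map_sub g, g.commutes]
      rw [e2, hW1]
      exact (val_of_ord _).1 hα2
    -- first part
    have hfU : fU B tr v η γ x = tr (η * c (AlgEquiv.restrictNormalHom M g)) +
        γ * (nsig p ε (AlgEquiv.restrictNormalHom K₁ g))⁻¹ := by
      rw [hf1 x α rfl hα1', Finset.sum_eq_single g]
      · rw [hth1, mul_one]
      · intro g' _ hg'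
        obtain ⟨W'', hW1', hW2'⟩ := exists_pull (K := K) (B.W v) g'
        have hW'' : Above W'' v := by
          rw [bel_of_above hWv] at hW2'
          rw [← hW2']; rfl
        have hne : W'' ≠ W' := by
          intro h
          apply hg'
          have h1 : g' * g⁻¹ = 1 := by
            apply hWf
            intro y
            rw [AlgEquiv.mul_apply, hW1', h, ← hW1, ← AlgEquiv.mul_apply, mul_inv_cancel]
            rfl
          exact mul_inv_eq_one.1 h1
        have e1 : B.th v (act g' x) = 0 := by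
          apply hL1
          change (B.W v).valuation M₁ (g' (α : M₁) - 1) < 1
          have e2 : g' (α : M₁) - 1 = g' ((α - 1 : 𝓞 M₁) : M₁) := by
            have e3 : ((α - 1 : 𝓞 M₁) : M₁) = (α : M₁) - 1 := rfl
            rw [e3, map_sub g', map_one]
          rw [e2, hW1']
          exact (val_of_ord _).1 (hα3 W'' hW'' hne)
        rw [e1, mul_zero]
      · intro h
        exact absurd (Finset.mem_univ _) h
    -- second part
    have hN : Ideal.absNorm (B.W v).asIdeal = Ideal.absNorm W'.asIdeal := by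
      have hf' : FreeP K W' := by
        intro h hh
        have h5 : g * h * g⁻¹ = 1 := by
          apply hWf
          intro y
          rw [AlgEquiv.mul_apply, AlgEquiv.mul_apply, hW1, hh, ← hW1, ← AlgEquiv.mul_apply,
            mul_inv_cancel]
          rfl
        have h6 : h = g⁻¹ * (g * h * g⁻¹) * g := by group
        rw [h6, h5, mul_one, inv_mul_cancel]
      rw [absNorm_free (K := K) _ hWf, absNorm_free (K := K) _ hf', bel_of_above hWv,
        bel_of_above hW']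
    have hkap : kap p ε' W' x = (nsig p ε σ)⁻¹ * (cth v)⁻¹ := by
      obtain ⟨n, hn⟩ := exists_n (p := p) hs.prim σ
      have hgε : g ε' = ε' ^ n := by
        rw [hε', h2 ε, hn, map_pow]
      have h5 := kap_act hε (B.W v) W' (hvp _ hWv) g hW1 hN n hgε x (by
        rw [hαW W' hW']; exact dvd_zero _)
      have h6 := (hcth v hv).2 (act g x) (by
        change (p : ℤ) ∣ ordv (B.W v) (g (x : M₁))
        have h7 : ordv (B.W v) (g (x : M₁)) = ordv W' (x : M₁) := by unfold ordv; rw [hW1]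
        rw [h7, hαW W' hW']
        exact dvd_zero _)
      rw [hth1, h5] at h6
      have h8 : nsig p ε σ = n := nsig_eq hs.prim hn
      have h9 : (n : ZMod p) ≠ 0 := by rw [← h8]; exact nsig_ne hs.prim σ
      have h10 := (hcth v hv).1
      rw [h8]
      field_simp
      rw [mul_comm] at h6
      linear_combination -h6
    have hbr : brk p ε' Z Θ x = (tr (η' * c (AlgEquiv.restrictNormalHom M g)⁻¹) +
        ρ * nsig p ε σ) * ((nsig p ε σ)⁻¹ * (cth v)⁻¹) := by
      rw [hrec x α rfl hα1' hαW, Finset.sum_eq_single W', hkap, hΘ3 g W' hW1, hgK]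
      · intro W hW hne
        rw [kap_zero_of_sub_one hε (hvp W ((hTm W).1 hW)) (hα3 W ((hTm W).1 hW) hne) x rfl,
          mul_zero]
      · intro h
        exact absurd ((hTm W').2 hW') h
    rw [e0, hfU, hbr, hgM, hgK]
    have hc2 : c (δ ^ i)⁻¹ = AdjoinRoot.root P ^ i := by
      have h5 : (δ ^ i)⁻¹ = δ ^ (m - i) := by
        rw [inv_eq_iff_mul_eq_one, ← pow_add, Nat.add_sub_cancel' hi.le]
        exact hδm
      rw [h5, hc1 _ (Nat.sub_le _ _), Nat.sub_sub_self hi.le]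
    rw [hc2, hc1 i hi.le]
    intro h
    apply h3
    rw [← h, smul_mul_assoc, map_smul, smul_eq_mul]
    have h5 := nsig_ne (p := p) hs.prim σ
    have h6 := (hcth v hv).1
    field_simp
    ring

end Pool.Agent.Helper11.M3
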