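import Pool.Agent.Helper30.PP2.ROSA
import Pool.Agent.Helper17.PP2.FinB

/-!
# Project M3 (MP_fc6b1e_nt, step 2): the moment theorem with a linking relation: definitions

The label of a split prime `q'` of `b` is the pair `(c q', y q')`; the phase of two primes `q, q₁` with labels
`(t, s)`, `(c, y)` is `ψ(s (c a(q,q₁) + t κ(q,q₁)) + y (t a(q₁,q) + c κ(q₁,q)))`. The labels are LINKED if
`Lk (s c) (t y)`; only for linked labels is the phase supposed to oscillate. In the self-dual case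
(`χ² = ω`: `τ = 1`, or `χ^(1 + p^(f/2)) = ω`: `τ` the involution of `k`) `Lk η η'` is `η + τ η' ≠ 0`; otherwise
it is `¬ (η = 0 ∧ η' = 0)`.
-/

set_option autoImplicit false

namespace Pool.Agent.Helper11.M3

open Finset Pool.Agent.Helper17.PP Pool.Agent.Helper17.PP0 Pool.Agent.Helper17.PP2
open Pool.Agent.Helper30.PP2 (c0 y0)

variable {p : ℕ} {B B₀ k U Λ C : Type} [Field k] [AddCommGroup U] [Module k U]
    [AddCommGroup Λ] [Module k Λ] [AddCommGroup C] (S : Sys p B B₀ k U Λ C)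

open Classical in
/-- The analytic hypotheses without those on the symbols. -/
structure HypW [Fintype k] [Algebra (ZMod p) k] (ψ : AddChar k ℂ) (g : ℝ → ℝ) (K : ℕ) :
    Prop where
  one_le : 1 ≤ K
  ψ_ne : ψ ≠ 1
  /-- Chebyshev. -/
  che : ∀ j : ℕ, 1 ≤ j → ∑ q ∈ S.blk j, (1 : ℝ) / S.N q ≤ K / j
  g_one : ∀ Y, 1 ≤ g Y
  g_mono : ∀ Y X, Y ≤ X → g Y ≤ K * g X
  /-- The upper bound for sums of multiplicative functions. -/
  ht : ∀ (f : B → ℝ), (∀ q, 0 ≤ f q ∧ f q ≤ Fintype.card k + 4) → ∀ (Y : ℝ), 0 < Y →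
    ∀ P : Finset B, ∑ b ∈ P.powerset, (∏ q ∈ b, f q) * Real.exp (-(S.nm b / Y)) ≤
      K * (Y * min 1 Y * g Y) * Real.exp (∑ q ∈ S.upto Y, (f q - 1) / S.N q)
  /-- Mertens, lower bound, split primes. -/
  mers : ∀ m n : ℕ, 1 ≤ m → m ≤ n → (1 / K : ℝ) * Real.log (n / m) - K ≤
    ∑ q ∈ S.below n with S.spl q ∧ m ≤ S.bl q, (1 : ℝ) / S.N q

theorem HypW.of_hyp₀ [Fintype k] [Algebra (ZMod p) k] {ψ : AddChar k ℂ} {g : ℝ → ℝ} {K : ℕ}
    (h : Hyp₀ S ψ g K) : HypW S ψ g K where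
  one_le := h.one_le
  ψ_ne := h.ψ_ne
  che := h.che
  g_one := h.g_one
  g_mono := h.g_mono
  ht := h.ht
  mers := h.mers

open Classical in
/-- The analytic hypotheses with a linking relation. `Cs t` is a subgroup of `k` with `M` elements such that for
`s ∈ Cs t`, `s ≠ 0`, any two nonzero labels which are not linked with `(t, s)` are linked with each other. -/
structure Hyp₃ [Fintype k] [Algebra (ZMod p) k] (ψ : AddChar k ℂ) (Lk : k → k → Prop)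
    (Cs : k → AddSubgroup k) (M : ℕ) (g : ℝ → ℝ) (K : ℕ) : Prop extends Hyp₀ S ψ g K where
  M_pos : 0 < M
  card : ∀ t : k, t ≠ 0 → Nat.card (Cs t) = M
  two : ∀ t s c₁ y₁ c₂ y₂ : k, t ≠ 0 → s ∈ Cs t → s ≠ 0 → (c₁ ≠ 0 ∨ y₁ ≠ 0) →
    (c₂ ≠ 0 ∨ y₂ ≠ 0) → ¬ Lk (s * c₁) (t * y₁) → ¬ Lk (s * c₂) (t * y₂) →
    c₁ ≠ 0 ∧ y₁ ≠ 0 ∧ Lk (y₁ * c₂) (c₁ * y₂)
  /-- Bilinear bound for two split primes `q`, `q₁` with linked labels `(t, s)`, `(c, y)`. -/
  bl₃ : ∀ (i j : ℕ) (t s c y : k) (α β : B → ℂ) (Y : ℝ), 1 ≤ i → 1 ≤ j → i ≠ j → t ≠ 0 →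
    s ≠ 0 → (c ≠ 0 ∨ y ≠ 0) → Lk (s * c) (t * y) → 0 < Y → (∀ q, ‖α q‖ ≤ 1) →
    (∀ q, ‖β q‖ ≤ 1) →
    ‖∑ q₁ ∈ S.blk i with S.spl q₁, ∑ q ∈ S.blk j with S.spl q, α q₁ * β q *
      ψ (s * (c * S.a q q₁ + t * algebraMap (ZMod p) k (S.kap q q₁)) +
        y * (t * S.a q₁ q + c * algebraMap (ZMod p) k (S.kap q₁ q))) *
      (Real.exp (-((S.N q : ℝ) * S.N q₁ / Y)) : ℂ)‖ ≤
      K * 2 ^ (i + j) * (i + j) ^ K * (2 : ℝ) ^ (-(min i j : ℝ) / K) *
        Real.exp (-((2 : ℝ) ^ (i + j) / (2 * Y)))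

open Classical in
/-- **MT₃**, the abstract moment theorem with a linking relation. The bad `b` of the family have Abel mean at
most `(|U|/|Λ|) Q/(M (Q-1))`, where `Q = |k|`. -/
def MT₃ : Prop :=
  ∀ (p : ℕ) [Fact p.Prime] (B B₀ k U Λ C : Type) [Field k] [Fintype k] [Algebra (ZMod p) k]
    [AddCommGroup U] [Module k U] [Fintype U] [AddCommGroup Λ] [Module k Λ] [Fintype Λ]
    [AddCommGroup C] [Finite C] (S : Sys p B B₀ k U Λ C) (ψ : AddChar k ℂ) (Lk : k → k → Prop)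
    (Cs : k → AddSubgroup k) (M : ℕ) (g : ℝ → ℝ) (K : ℕ), Hyp₃ S ψ Lk Cs M g K →
  ∀ ε : ℝ, 0 < ε → ∃ X₀ : ℝ, ∀ X : ℝ, X₀ ≤ X → ∀ P : Finset B,
    ∑ b ∈ P.powerset with (S.Fam b ∧ S.Bad b), Real.exp (-(S.nm b / X)) ≤
      (Fintype.card U / Fintype.card Λ) * (Fintype.card k / (M * (Fintype.card k - 1))) *
        ∑ b ∈ P.powerset with S.Fam b, Real.exp (-(S.nm b / X)) + ε * (X * g X)

open Classical in
/-- The part of the expansion of the condition at `q` where the label functions satisfy `F` and the label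
of `q` is `(t, s)`. -/
noncomputable def ful₃ [Algebra (ZMod p) k] [Fintype k] [Fintype U] [Fintype Λ] (ψ : AddChar k ℂ)
    (E : ℕ) (P b : Finset B) (q : B) (t s : k) (F : (B → k) → (B → k) → Prop) : ℂ :=
  ((Fintype.card k : ℂ) ^ (S.rs b q).card / (Fintype.card Λ * ((lab k P).card : ℂ) ^ 2)) *
    ∑ x : U, ∑ χ : AddChar Λ ℂ, ∑ c ∈ lab k P, ∑ y ∈ lab k P with F c y,
      ph S ψ χ b x (cutc S (S.bl q) q t c) (cuty S E (S.bl q) q s y)

/-- The label of `q'` is not `(0, 0)` and it is linked with the label `(t, s)` of `q`; `j` is the block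
of `q`. -/
def Lq (Lk : k → k → Prop) (E j : ℕ) (t s : k) (c y : B → k) (q' : B) : Prop :=
  Nz S E j c y q' ∧ Lk (s * c0 S j c q') (t * y0 S E j y q')

/-- `q₁` is the top prime of `b`, except `q`, with a label linked with that of `q`, and it is in a
block `≥ T`. -/
structure Tl (Lk : k → k → Prop) (T E : ℕ) (b : Finset B) (q : B) (t s : k) (c y : B → k)
    (q₁ : B) : Prop where
  mem : q₁ ∈ b
  ne : q₁ ≠ q
  le : T ≤ S.bl q₁
  lk : Lq S Lk E (S.bl q) t s c y q₁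
  top : ∀ q' ∈ b, q' ≠ q → q' ≠ q₁ → T ≤ S.bl q' → Lq S Lk E (S.bl q) t s c y q' →
    S.bl q' < S.bl q₁

/-- No prime of `b` in the blocks `≥ T`, except `q`, has a label linked with that of `q`, and `q₁`, `q₂` are the
top two primes (except `q`) with a label `≠ (0, 0)`; they are in blocks `≥ T`. -/
structure Tt (Lk : k → k → Prop) (T E : ℕ) (b : Finset B) (q : B) (t s : k) (c y : B → k)
    (q₁ q₂ : B) : Prop where
  mem₁ : q₁ ∈ b
  mem₂ : q₂ ∈ b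
  ne₁ : q₁ ≠ q
  ne₂ : q₂ ≠ q
  le : T ≤ S.bl q₂
  lt : S.bl q₂ < S.bl q₁
  nz₁ : Nz S E (S.bl q) c y q₁
  nz₂ : Nz S E (S.bl q) c y q₂
  no : ∀ q' ∈ b, q' ≠ q → T ≤ S.bl q' → ¬ Lq S Lk E (S.bl q) t s c y q'
  top : ∀ q' ∈ b, q' ≠ q → q' ≠ q₁ → q' ≠ q₂ → T ≤ S.bl q' → Nz S E (S.bl q) c y q' →
    S.bl q' < S.bl q₂

/-- No prime of `b` in the blocks `≥ T`, except `q`, has a label linked with that of `q`, and at most one of
them has a label `≠ (0, 0)`. -/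
structure Zo (Lk : k → k → Prop) (T E : ℕ) (b : Finset B) (q : B) (t s : k) (c y : B → k) :
    Prop where
  no : ∀ q' ∈ b, q' ≠ q → T ≤ S.bl q' → ¬ Lq S Lk E (S.bl q) t s c y q'
  one : ∀ q₁ ∈ b, ∀ q₂ ∈ b, q₁ ≠ q → q₂ ≠ q → T ≤ S.bl q₁ → T ≤ S.bl q₂ →
    Nz S E (S.bl q) c y q₁ → Nz S E (S.bl q) c y q₂ → q₁ = q₂

/-- `q` is a split prime of `b`, the only one in its block. -/
structure Wv (b : Finset B) (q : B) : Prop where
  mem : q ∈ b
  spl : S.spl q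
  uniq : ∀ q' ∈ b, q' ≠ q → S.spl q' → S.bl q' ≠ S.bl q

end Pool.Agent.Helper11.M3
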