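import Pool.Agent.Helper11.M3.Defs

/-!
# Project M3 (MP_fc6b1e_nt, step 2): the moment theorem for `χ = ω`: definitions

For `χ₀ = ω` there is always a trivial solution. Two cases.
(a) `J = K`: all primes are split; the trivial solution is `c = e` on `b` (`e q` the label of `q`); the
solutions are normalised by `c P₁ = 0`, `P₁` the top prime of `b`.
(b) `J ≠ K`: there are primes which are not split, `P₁` is the top prime of `b` which is not split (then
`c P₁ = 0` for all solutions); the trivial solutions are removed by taking a quotient of `U`.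
`P₁` is called the pivot of `b`; `N` is the set of the primes which can be pivots (all primes in case (a), the primes
which are not split in case (b)). `Y` is the group of the characters by which the condition at the pivot is
detected: `⊤`, or `⊥` if this condition is not used. Two labels `(t, s)` of `q` and `(c, y)` of `q'` with
`c/e(q') = t/e(q)` need not be linked.
-/

set_option autoImplicit false

namespace Pool.Agent.Helper11.M3

open Finset Pool.Agent.Helper17.PP Pool.Agent.Helper17.PP0 Pool.Agent.Helper17.PP2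

variable {p : ℕ} {B B₀ k U Λ C : Type} [Field k] [AddCommGroup U] [Module k U]
    [AddCommGroup Λ] [Module k Λ] [AddCommGroup C] (S : Sys p B B₀ k U Λ C)

/-- `P₁` is the pivot of `b`: the top prime of `b` in the set `N`, alone in its block. -/
structure Piv (N : B → Prop) (b : Finset B) (P₁ : B) : Prop where
  mem : P₁ ∈ b
  isN : N P₁
  top : ∀ P' ∈ b, N P' → P' ≠ P₁ → S.bl P' < S.bl P₁

/-- There is a nonzero solution which vanishes at the pivot. -/
def Bad₄ [Algebra (ZMod p) k] (N : B → Prop) (b : Finset B) : Prop :=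
  ∃ (x : U) (c : B → k), S.IsSol b x c ∧ ¬ (x = 0 ∧ c = 0) ∧ ∀ P₁, Piv S N b P₁ → c P₁ = 0

open Classical in
/-- The analytic hypotheses for `χ = ω`. -/
structure Hyp₄ [Fintype k] [Algebra (ZMod p) k] (ψ : AddChar k ℂ) (e : B → k) (N : B → Prop)
    (Y : AddSubgroup k) (g : ℝ → ℝ) (K : ℕ) : Prop extends HypW S ψ g K where
  e_ne : ∀ q, e q ≠ 0
  cas : (∀ q, N q ∧ S.spl q) ∨ ((∀ q, N q → ¬ S.spl q) ∧ Y = ⊥)
  /-- Mertens, lower bound, for the pivots. -/
  merN : ∀ m n : ℕ, 1 ≤ m → m ≤ n → (1 / K : ℝ) * Real.log (n / m) - K ≤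
    ∑ q ∈ S.below n with N q ∧ m ≤ S.bl q, (1 : ℝ) / S.N q
  /-- A functional which is trivial on `U` is nontrivial at many primes. -/
  sm : ∀ (D : Finset B) (y : B → k) (χ : AddChar Λ ℂ) (n : ℕ), 1 ≤ n →
    (∀ q ∈ D, S.spl q ∧ y q ≠ 0) → Set.InjOn S.bs (D : Set B) → (D.Nonempty ∨ χ ≠ 1) →
    (∀ x : U, S.fU ψ χ D y x = 1) →
    (1 / K : ℝ) * Real.log n - K * Real.log (Real.log (S.nm D + 3)) - K ≤
      ∑ q ∈ S.below n with (S.spl q ∧ (∀ q' ∈ D, S.bs q' ≠ S.bs q) ∧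
        ∃ t : k, S.fB ψ χ D y q t ≠ 1), (1 : ℝ) / S.N q
  /-- A fixed nonzero element has nonzero symbol at many primes. -/
  kum : ∀ (x : U) (c : B →₀ k), (∀ q, c q ≠ 0 → S.spl q) →
    Set.InjOn S.bs (c.support : Set B) → ¬ (x = 0 ∧ c = 0) →
    ∀ T : ℝ, ∃ n : ℕ, T ≤ ∑ q ∈ S.below n with (S.spl q ∧ (∀ q' ∈ c.support, S.bs q' ≠ S.bs q) ∧
      S.res q x + ∑ q' ∈ c.support, c q' * S.a q q' ≠ 0), (1 : ℝ) / S.N q
  /-- Bilinear bound: a split prime `q` (the variable) with the label `(t, 0)`, `e q = ε`, and a modulus `D` of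
  split primes with labels `(c, y)`, `y ≠ 0`, `c ε ≠ t e`. -/
  bl₁ : ∀ (i j : ℕ) (t ε : k) (y c : B → k) (α : B → ℂ) (β : Finset B → ℂ) (X : ℝ), 1 ≤ j →
    t ≠ 0 → 0 < X → (∀ q, ‖α q‖ ≤ 1) → (∀ D, ‖β D‖ ≤ (Fintype.card k : ℝ) ^ D.card) →
    (∀ D, β D ≠ 0 → Set.InjOn S.bs (D : Set B) ∧
      ∀ q ∈ D, S.spl q ∧ S.bl q ≠ j ∧ y q ≠ 0 ∧ c q * ε ≠ t * e q) →
    ‖∑ q ∈ S.blk j with (S.spl q ∧ e q = ε), ∑ D ∈ S.mods i, α q * β D * S.chr ψ D y c t q *
      (Real.exp (-(S.N q * S.nm D / X)) : ℂ)‖ ≤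
      K * 2 ^ (i + j) * (i + 1) ^ K * (2 : ℝ) ^ (-(min i j : ℝ) / K) *
        Real.exp (-((2 : ℝ) ^ (i + j) / (2 * X)))
  /-- Bilinear bound: a pivot `P₁` (the variable) and a modulus `D` of split primes with labels `(c, y)`,
  `c ≠ 0`, `y ≠ 0`. -/
  bl₄ : ∀ (i j : ℕ) (y c : B → k) (α : B → ℂ) (β : Finset B → ℂ) (X : ℝ), 1 ≤ j →
    0 < X → (∀ q, ‖α q‖ ≤ 1) → (∀ D, ‖β D‖ ≤ (Fintype.card k : ℝ) ^ D.card) →
    (∀ D, β D ≠ 0 → Set.InjOn S.bs (D : Set B) ∧
      ∀ q ∈ D, S.spl q ∧ (S.bl q ≠ j ∨ ∀ q', N q' → ¬ S.spl q') ∧ y q ≠ 0 ∧ c q ≠ 0) →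
    ‖∑ P₁ ∈ S.blk j with N P₁, ∑ D ∈ S.mods i, α P₁ * β D *
      (∏ q' ∈ D, ψ (y q' * (c q' * algebraMap (ZMod p) k (S.kap q' P₁)))) *
      (Real.exp (-(S.N P₁ * S.nm D / X)) : ℂ)‖ ≤
      K * 2 ^ (i + j) * (i + 1) ^ K * (2 : ℝ) ^ (-(min i j : ℝ) / K) *
        Real.exp (-((2 : ℝ) ^ (i + j) / (2 * X)))
  /-- Bilinear bound: a pivot `P₁` with the label `(0, y)`, `y ∈ Y`, and a split prime `q` with the label
  `(t, s)`, `t ≠ 0`, `(s, y) ≠ (0, 0)`. -/
  bl₅ : ∀ (i j : ℕ) (t s y : k) (α β : B → ℂ) (X : ℝ), 1 ≤ i → 1 ≤ j →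
    (i ≠ j ∨ ∀ q', N q' → ¬ S.spl q') → t ≠ 0 → y ∈ Y → (s ≠ 0 ∨ y ≠ 0) → 0 < X →
    (∀ q, ‖α q‖ ≤ 1) → (∀ q, ‖β q‖ ≤ 1) →
    ‖∑ P₁ ∈ S.blk i with N P₁, ∑ q ∈ S.blk j with S.spl q, α P₁ * β q *
      ψ (s * (t * algebraMap (ZMod p) k (S.kap q P₁)) + y * (t * S.a P₁ q)) *
      (Real.exp (-((S.N q : ℝ) * S.N P₁ / X)) : ℂ)‖ ≤
      K * 2 ^ (i + j) * (i + j) ^ K * (2 : ℝ) ^ (-(min i j : ℝ) / K) *
        Real.exp (-((2 : ℝ) ^ (i + j) / (2 * X)))

open Classical in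
/-- **MT₄**, the abstract moment theorem for `χ = ω`. The `b` of the family with `Bad₄` have Abel mean at
most `(|U|/|Λ|)/(|Y| (Q-1))`, where `Q = |k|`. -/
def MT₄ : Prop :=
  ∀ (p : ℕ) [Fact p.Prime] (B B₀ k U Λ C : Type) [Field k] [Fintype k] [Algebra (ZMod p) k]
    [AddCommGroup U] [Module k U] [Fintype U] [AddCommGroup Λ] [Module k Λ] [Fintype Λ]
    [AddCommGroup C] [Finite C] (S : Sys p B B₀ k U Λ C) (ψ : AddChar k ℂ) (e : B → k)
    (N : B → Prop) (Y : AddSubgroup k) (g : ℝ → ℝ) (K : ℕ), Hyp₄ S ψ e N Y g K →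
  ∀ ε : ℝ, 0 < ε → ∃ X₀ : ℝ, ∀ X : ℝ, X₀ ≤ X → ∀ P : Finset B,
    ∑ b ∈ P.powerset with (S.Fam b ∧ Bad₄ S N b), Real.exp (-(S.nm b / X)) ≤
      (Fintype.card U / Fintype.card Λ) * (1 / (Nat.card Y * (Fintype.card k - 1))) *
        ∑ b ∈ P.powerset with S.Fam b, Real.exp (-(S.nm b / X)) + ε * (X * g X)

open Classical in
/-- The split primes of `b` except `q` and `P₁`. -/
noncomputable def sp (b : Finset B) (q P₁ : B) : Finset B :=
  ((b.erase q).erase P₁).filter fun q' ↦ S.spl q'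

open Classical in
/-- The split primes of `b` except `q` and `P₁` in the blocks below the block of `q`. -/
noncomputable def rs₄ (b : Finset B) (q P₁ : B) : Finset B :=
  ((b.erase q).erase P₁).filter fun q' ↦ S.spl q' ∧ S.bl q' < S.bl q

open Classical in
/-- The split primes of `b` except `q` and `P₁` in the blocks above the block of `q`. -/
noncomputable def ra₄ (b : Finset B) (q P₁ : B) : Finset B :=
  ((b.erase q).erase P₁).filter fun q' ↦ S.spl q' ∧ S.bl q < S.bl q'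

/-- `(x, c)` satisfies all the conditions except those at `q` and at `P₁`, `c P₁ = 0`, and `q` is the top prime of
the support of `c`. -/
structure IsPre₄ [Algebra (ZMod p) k] (b : Finset B) (q P₁ : B) (x : U) (c : B → k) : Prop where
  supp : ∀ q', c q' ≠ 0 → q' = q ∨ q' ∈ rs₄ S b q P₁
  ne : c q ≠ 0
  lam : S.lam₀ x + ∑ q' ∈ b, S.lam q' (c q') = 0
  loc : ∀ q' ∈ sp S b q P₁, S.R b x c q' = 0

open Classical in
/-- The number of the `(x, c)` with `IsPre₄` which also satisfy the conditions at `q` and (if it is split) at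
`P₁`. -/
noncomputable def cnt₅ [Algebra (ZMod p) k] [Fintype k] [Fintype U] (b : Finset B) (q P₁ : B) :
    ℕ :=
  (((univ : Finset U) ×ˢ lab k b).filter fun z ↦ IsPre₄ S b q P₁ z.1 z.2 ∧
    S.R b z.1 z.2 q = 0 ∧ (S.spl P₁ → S.R b z.1 z.2 P₁ = 0)).card

open Classical in
/-- The label function which is `t` at `q`, `0` at `P₁` and `c` at the other split primes in the blocks
below `j`. -/
noncomputable def cutd (j : ℕ) (q P₁ : B) (t : k) (c : B → k) : B → k :=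
  fun q' ↦ if q' = q then t else if q' = P₁ then 0 else
    if S.spl q' ∧ S.bl q' < j then c q' else 0

open Classical in
/-- The label function which is `s` at `q`, `y₁` at `P₁` and `y` at the other split primes in the blocks
`≠ j`. -/
noncomputable def cute (j : ℕ) (q P₁ : B) (s y₁ : k) (y : B → k) : B → k :=
  fun q' ↦ if q' = q then s else if q' = P₁ then y₁ else
    if S.spl q' ∧ S.bl q' ≠ j then y q' else 0

open Classical in
/-- The part of the expansion of `cnt₅` where the label of `q` is `(t, s)`, the label of `P₁` is `(0, y₁)`, and the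
label functions satisfy `F`. -/
noncomputable def ful₄ [Algebra (ZMod p) k] [Fintype k] [Fintype U] [Fintype Λ] (ψ : AddChar k ℂ)
    (P b : Finset B) (q P₁ : B) (t s y₁ : k) (F : AddChar Λ ℂ → (B → k) → (B → k) → Prop) : ℂ :=
  ((Fintype.card k : ℂ) ^ (rs₄ S b q P₁).card / (Fintype.card Λ * ((lab k P).card : ℂ) ^ 2)) *
    ∑ x : U, ∑ χ : AddChar Λ ℂ, ∑ c ∈ lab k P, ∑ y ∈ lab k P with F χ c y,
      ph S ψ χ b x (cutd S (S.bl q) q P₁ t c) (cute S (S.bl q) q P₁ s y₁ y)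

open Classical in
/-- The primes `q'` of `sp b q P₁` with a label `(c, y)`, `y ≠ 0`, `c e(q) ≠ t e(q')`. -/
noncomputable def D₁ (e : B → k) (b : Finset B) (q P₁ : B) (t : k) (c y : B → k) : Finset B :=
  (sp S b q P₁).filter fun q' ↦ y q' ≠ 0 ∧ cutd S (S.bl q) q P₁ t c q' * e q ≠ t * e q'

open Classical in
/-- The primes `q'` of `sp b q P₁` with a label `(c, y)`, `y ≠ 0`, `c e(q) = t e(q')`. -/
noncomputable def D₂ (e : B → k) (b : Finset B) (q P₁ : B) (t : k) (c y : B → k) : Finset B :=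
  (sp S b q P₁).filter fun q' ↦ y q' ≠ 0 ∧ cutd S (S.bl q) q P₁ t c q' * e q = t * e q'

/-- The main part. -/
def FM (b : Finset B) (q P₁ : B) (χ : AddChar Λ ℂ) (_c y : B → k) : Prop :=
  χ = 1 ∧ ∀ q' ∈ sp S b q P₁, y q' = 0

/-- The small moduli. -/
def FA (e : B → k) (I : ℕ) (b : Finset B) (q P₁ : B) (t : k) (χ : AddChar Λ ℂ) (c y : B → k) :
    Prop :=
  (χ ≠ 1 ∨ ∃ q' ∈ sp S b q P₁, y q' ≠ 0) ∧ Nat.log 2 (S.nm (D₁ S e b q P₁ t c y)) < I ∧
    Nat.log 2 (S.nm (D₂ S e b q P₁ t c y)) < I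

/-- `D₁` is large, in the block `i`. -/
def FB (e : B → k) (i : ℕ) (b : Finset B) (q P₁ : B) (t : k) (_χ : AddChar Λ ℂ) (c y : B → k) :
    Prop :=
  Nat.log 2 (S.nm (D₁ S e b q P₁ t c y)) = i

/-- `D₁` is small, `D₂` is in the block `i`. -/
def FC (e : B → k) (I i : ℕ) (b : Finset B) (q P₁ : B) (t : k) (_χ : AddChar Λ ℂ)
    (c y : B → k) : Prop :=
  Nat.log 2 (S.nm (D₁ S e b q P₁ t c y)) < I ∧ Nat.log 2 (S.nm (D₂ S e b q P₁ t c y)) = i

/-- `(x, c)` satisfies the conditions at the primes of `rt E b q`; `q` is the top prime of the support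
of `c`. -/
structure IsPreU [Algebra (ZMod p) k] (E : ℕ) (b : Finset B) (q : B) (x : U) (c : B → k) :
    Prop where
  supp : ∀ q', c q' ≠ 0 → q' = q ∨ q' ∈ S.rs b q
  ne : c q ≠ 0
  loc : ∀ q' ∈ S.rt E b q, S.R b x c q' = 0

open Classical in
/-- The number of the `(x, c)` with `IsPreU`. -/
noncomputable def cnu [Algebra (ZMod p) k] [Fintype k] [Fintype U] (E : ℕ) (b : Finset B)
    (q : B) : ℕ :=
  (((univ : Finset U) ×ˢ lab k b).filter fun z ↦ IsPreU S E b q z.1 z.2).card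

open Classical in
/-- The part of the expansion of `cnu` in which the nontrivial characters are at the primes of `D`. -/
noncomputable def pau [Algebra (ZMod p) k] [Fintype k] [Fintype U]
    (ψ : AddChar k ℂ) (E : ℕ) (P b : Finset B) (q : B) (t : k) (D : Finset B) : ℂ :=
  ((Fintype.card k : ℂ) ^ (S.rs b q).card / ((lab k P).card : ℂ) ^ 2) *
    ∑ x : U, ∑ c ∈ lab k P, ∑ y ∈ lab k P with (∀ q' ∈ S.rt E b q, y q' ≠ 0 ↔ q' ∈ D),
      ∏ q' ∈ D, ψ (y q' * S.R b x (S.trc b q t c) q')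

/-- The bound for the small blocks: `(log L)^A`. -/
def sl (A L : ℕ) : ℕ := Nat.log 2 L ^ A

end Pool.Agent.Helper11.M3
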