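import Pool.Agent.Helper11.M3.Goals4

/-!
# Project M3 (MP_fc6b1e_nt, step 2): goals for `MT₄`, part 2

The small blocks, the exceptional sets, the sums over the blocks, the assembly. Every statement is a
`def ... : Prop` with its complete proof in the docstring. `Q = |k|`, `e(z)` is `exp(-z)`.
-/

set_option autoImplicit false

namespace Pool.Agent.Helper11.M3

open Finset Pool.Agent.Helper17.PP Pool.Agent.Helper17.PP0 Pool.Agent.Helper17.PP2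

open Classical in
/-- **U_ORT** (the expansion of `cnu`). Let `q ∈ b ⊆ P`. Then `cnu E b q` is the sum over `t ≠ 0` and
`D ⊆ rt E b q` of `pau E P b q t D`; and `pau E P b q t ∅ = |U| Q^|rs b q| Q^(-|rt E b q|)`.

PROOF (from `C_LAB`; adaptation of `C_ORT`, `Pool/Agent/Helper23/PP`, and `C_PMN`, `Pool/Agent/Helper96/PP`: no `Λ`, and `rt`
in the place of `rg`). The pairs `(t, c)`, `t ≠ 0`, `c ∈ lab k (rs b q)`, correspond to the `c' ∈ lab k b` with `c' q ≠ 0` and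
support in `{q} ∪ rs b q` by `c' = trc b q t c` (`sum_trc` of `Helper74/PP/COSC.lean`). The indicator of
`R b x c' q' = 0` for all `q' ∈ rt E b q` is `|lab k P|⁻¹ ∑_{y ∈ lab k P} ∏_{q' ∈ rt E b q} ψ(y q' R b x c' q')` (`sum_ind`
there), and the sum over `D` of the sums over the `y` with `y q' ≠ 0 ↔ q' ∈ D` on `rt` is the sum over all `y`, with
`∏_{q' ∈ D} = ∏_{q' ∈ rt}` as `ψ 0 = 1`. For `D = ∅` all the terms are 1 and the number of the `y` is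
`|lab k P| Q^(-|rt|)` by `C_LAB` (4). -/
def U_ORT : Prop :=
  ∀ (p : ℕ) [Fact p.Prime] (B B₀ k U Λ C : Type) [Field k] [Fintype k] [Algebra (ZMod p) k]
    [AddCommGroup U] [Module k U] [Fintype U] [AddCommGroup Λ] [Module k Λ]
    [AddCommGroup C] (S : Sys p B B₀ k U Λ C) (ψ : AddChar k ℂ), ψ ≠ 1 →
  ∀ (E : ℕ) (P b : Finset B) (q : B), b ⊆ P → q ∈ b →
    ((cnu S E b q : ℂ) = ∑ t : k with t ≠ 0, ∑ D ∈ (S.rt E b q).powerset,
      pau S ψ E P b q t D) ∧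
    ∀ t : k, pau S ψ E P b q t ∅ = Fintype.card U * (Fintype.card k : ℂ) ^ (S.rs b q).card *
      (1 / Fintype.card k) ^ (S.rt E b q).card

open Classical in
/-- **U_LRG** (the bilinear sums for the small blocks). Let `1 ≤ i`, `1 ≤ j ≤ th E j`, `t ≠ 0`. The sum over `b` in the family,
over `q` in the block `j` with `Wt` and over the `D ⊆ rt E b q` in the block `i`, of `pau E P b q t D · e(nm b/X)`, is at most
`K' (j+2)^K' (i+1)^K 2^(-min(i,j)/K) X g(X)`.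

PROOF (from `C_LAB`, `C_DEC`, and `bl₁`, `ht`, `che`, `g_mono` of `Hyp₄`; adaptation of `C_LRG`,
`Pool/Agent/Helper17/PP0/LRG.lean`). Write `b = {q} ∪ D ∪ r` and fix `x, c, y, r` and the value `ε` of the label `e q`, as there.
Let `rs_j(r)`, `rt_j(r)` be the set of the split primes of `r` in the blocks `< j`, resp. `> j` and `≤ th E j`. Conditions: as
in `C_LRG` with `rt` in the place of `rg`: the primes of `D` are split, in blocks `> j`, `≤ th E j`; `y ≠ 0` on `D`, `y = 0` on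
`rt_j(r)`. `trc b q t c` is `t` at `q`, `c` on `rs b q = rs_j(r)`, `0` elsewhere, in particular `0` on `D`; so the phase is
`chr ψ D y 0 t q` times factors depending on `D, r` and on `q, r`. `bl₁` applies with `c := 0` (`0 · ε ≠ t e q'`), for each of the
at most `Q` values `ε` of `e q`: the norm is at most `K 2^(i+j) (i+1)^K 2^(-min(i,j)/K) e(2^(i+j) nm r/(2X))` times
`Q^|rs_j(r)|`.
*Summation.* The number of the `y` with `y = 0` on `rt_j(r)` is at most `|lab k P|`. `|U|` for `x`, `Q` for `ε`, `|C|` for the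
class of `q`. By `ht` with `f = Q` at the split primes in the blocks `< j`, `f = 1` otherwise,
`∑_{r ⊆ P} Q^|rs_j(r)| e(nm r/Y') ≤ K Y' min(1,Y') g(Y') exp(∑_{bl q' < j} (Q-1)/N q')`, `Y' = 2X/2^(i+j) ≤ X`; by `che` the exponent
is `≤ (Q-1) K (1 + log(j+1))`, so the exponential is `≤ (e (j+2))^(QK)`. -/
def U_LRG : Prop :=
  ∀ (p : ℕ) [Fact p.Prime] (B B₀ k U Λ C : Type) [Field k] [Fintype k] [Algebra (ZMod p) k]
    [AddCommGroup U] [Module k U] [Fintype U] [AddCommGroup Λ] [Module k Λ] [Fintype Λ]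
    [AddCommGroup C] [Finite C] (S : Sys p B B₀ k U Λ C) (ψ : AddChar k ℂ) (e : B → k)
    (N : B → Prop) (Y : AddSubgroup k) (g : ℝ → ℝ) (K : ℕ), Hyp₄ S ψ e N Y g K →
  ∃ K' : ℕ, ∀ (E i j : ℕ) (t : k) (X : ℝ) (P : Finset B), 1 ≤ i → 1 ≤ j → j ≤ th E j → t ≠ 0 →
      1 ≤ X →
    ‖∑ b ∈ P.powerset with S.Fam b, ∑ q ∈ b with (S.Wt E b q ∧ S.bl q = j),
      ∑ D ∈ (S.rt E b q).powerset with Nat.log 2 (S.nm D) = i,
        pau S ψ E P b q t D * (Real.exp (-(S.nm b / X)) : ℂ)‖ ≤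
      K' * ((j : ℝ) + 2) ^ K' * (i + 1) ^ K * (2 : ℝ) ^ (-(min i j : ℝ) / K) * (X * g X)

open Classical in
/-- **U_MNS** (the main terms for the small blocks).

PROOF (from `C_DEC`, and `mers`, `ht`, `che`, `g_mono`; adaptation of `Z_MNS`, `Pool/Agent/Helper17/PP0/MNS.lean`). As there,
with the multiplicative function `f = Q` at the split primes in the blocks `< j`, `f = 1/Q` at the split primes in the
blocks `j < · ≤ th E j`, `f = 1` otherwise: the first ones give the additional factor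
`exp(∑_{bl q' < j} (Q-1)/N q') ≤ (e (j+2))^(QK)`. -/
def U_MNS : Prop :=
  ∀ (p : ℕ) [Fact p.Prime] (B B₀ k U Λ C : Type) [Field k] [Fintype k] [Algebra (ZMod p) k]
    [AddCommGroup U] [Module k U] [Fintype U] [AddCommGroup Λ] [Module k Λ] [Fintype Λ]
    [AddCommGroup C] [Finite C] (S : Sys p B B₀ k U Λ C) (ψ : AddChar k ℂ)
    (g : ℝ → ℝ) (K : ℕ), HypW S ψ g K →
  ∃ K' : ℕ, ∀ (E j : ℕ) (X : ℝ) (P : Finset B), 1 ≤ j → j ≤ th E j → 1 ≤ X →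
      2 * (j + 1) ≤ lg X →
    ∑ b ∈ P.powerset, ∑ q ∈ b with (S.Wt E b q ∧ S.bl q = j),
        (Fintype.card k : ℝ) ^ (S.rs b q).card * (1 / Fintype.card k : ℝ) ^ (S.rt E b q).card *
          Real.exp (-(S.nm b / X)) ≤
      K' * ((j : ℝ) + 2) ^ K' *
        (((j + 1 : ℕ) : ℝ) / (min (th E j + 1) (lg X - j - 1) : ℕ)) ^ (1 / (2 * K) : ℝ) * (X * g X)

/-- **U_SM1** (sum of the bounds of `U_LRG`).

PROOF. For `i ≥ j + 1` the term is `(j+2)^K' (i+1)^K 2^(-j/K)`, and the sum over `i < tb E j`, `E = 2K(K+1)`, is at most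
`(j+2)^K' (tb E j + 1)^(K+1) 2^(-j/K) ≤ 2^(K+1) (j+2)^K' 2^((K+1) j/E - j/K) = 2^(K+1) (j+2)^K' 2^(-j/(2K))`, which is summable
in `j`. -/
def U_SM1 : Prop :=
  ∀ (K K' : ℕ) (ε : ℝ), 1 ≤ K → 0 < ε → ∃ j₁ : ℕ, ∀ j₀, j₁ ≤ j₀ → ∀ J : ℕ,
    ∑ j ∈ Ico j₀ J, ∑ i ∈ Ico (j + 1) (tb (2 * K * (K + 1)) j),
      ((j : ℝ) + 2) ^ K' * ((i : ℝ) + 1) ^ K * (2 : ℝ) ^ (-(min i j : ℝ) / K) ≤ ε

/-- **U_SM2** (sum of the bounds of `U_MNS`); `sl A L = (log₂ L)^A`.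

PROOF. Let `δ = 1/(2K)`. As `((j+1)/min(u, v))^δ ≤ ((j+1)/u)^δ + ((j+1)/v)^δ` for `u, v > 0`, it suffices to bound
`∑_{j ≥ j₀} (j+2)^K' ((j+1)/(th E j + 1))^δ`, a tail of a convergent series (`th E j ≥ 2^(j/(2E) - 1)`, real quotient), and
`∑_{j < sl A L} (j+2)^K' ((j+1)/(L-j-1))^δ ≤ sl (sl+2)^(K'+1) (2/L)^δ` (for `L` large `sl A L + 1 ≤ L/2`), which tends to `0` as
`L → ∞`, because `sl` is a power of `log L`. -/
def U_SM2 : Prop :=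
  ∀ (K K' E A : ℕ) (ε : ℝ), 1 ≤ K → 1 ≤ E → 0 < ε → ∃ j₁ : ℕ, ∀ j₀, j₁ ≤ j₀ →
    ∃ L₀ : ℕ, ∀ L, L₀ ≤ L → ∑ j ∈ Ico j₀ (sl A L), ((j : ℝ) + 2) ^ K' *
      (((j + 1 : ℕ) : ℝ) / (min (th E j + 1) (L - j - 1) : ℕ)) ^ (1 / (2 * K) : ℝ) ≤ ε

/-- **Q_SMA** (sum of the bounds of `Q_SML`, `I = ti A L`).

PROOF. Let `a = (2 I + 2)^K'`, at most a constant times `(log₂ L)^K'`. (i) `3 j ≤ L`: for `L` large
`L - (j + 1 + 2 I) ≥ L/3 ≥ j`, so the term is at most `a j^(-1-1/K)`, and the sum over `j ≥ s := sl A₅ L` is at most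
`a (1 + K) (s - 1)^(-1/K)`, which tends to `0` if `A₅ > K K'` (for instance `A₅ ≥ K K' + 1`). (ii) `L/3 < j ≤ L + 1`: as in
`C_SM2` (`Pool/Agent/Helper59/PP/CSM2.lean`) the sum of these terms is at most
`(3/L) a (2 I + 3 + √L + L^(1-1/(2K)) + 2L (L/3)^(-1/K))`, which tends to `0`. (iii) `j = L + 1 + m`, `m ≥ 1`: the term is at
most `a 2^(-m)/L`. -/
def Q_SMA : Prop :=
  ∀ (K K' A : ℕ), 1 ≤ K → ∃ A₀ : ℕ, ∀ A₅, A₀ ≤ A₅ → ∀ ε : ℝ, 0 < ε →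
    ∃ L₀ : ℕ, ∀ L, L₀ ≤ L → ∀ J : ℕ,
    ∑ j ∈ Ico (sl A₅ L) J, (2 * (ti A L : ℝ) + 2) ^ K' / j * min 1 (2 ^ (L + 1) / 2 ^ j) *
      ((max 1 (min j (L - (j + 1 + 2 * ti A L))) : ℕ) : ℝ) ^ (-(1 / K : ℝ)) ≤ ε

/-- **Q_SMB** (comparison of the thresholds).

PROOF. `sl A₅ L = (log₂ L)^A₅`, `ti A L + 1 ≤ (log₂ L)²` for `log₂ L ≥ A + 1`, and powers of `log₂ L` are eventually smaller than
`√L`, `L/4`. -/
def Q_SMB : Prop :=
  ∀ (A A₅ j₀ : ℕ), 2 ≤ A₅ → ∃ L₀ : ℕ, ∀ L, L₀ ≤ L →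
    ti A L + j₀ ≤ sl A₅ L ∧ sl A₅ L ≤ Nat.sqrt L ∧ 2 * (sl A₅ L + 1) ≤ L ∧ j₀ ≤ Nat.sqrt L

open Classical in
/-- **X_EX0**: `Z_EX0` for `Hyp₄`, with the same proof (only `ht` and `kum` are used);
`Pool/Agent/Helper17/PP0/EX0.lean`. -/
def X_EX0 : Prop :=
  ∀ (p : ℕ) [Fact p.Prime] (B B₀ k U Λ C : Type) [Field k] [Fintype k] [Algebra (ZMod p) k]
    [AddCommGroup U] [Module k U] [Fintype U] [AddCommGroup Λ] [Module k Λ] [Fintype Λ]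
    [AddCommGroup C] [Finite C] (S : Sys p B B₀ k U Λ C) (ψ : AddChar k ℂ) (e : B → k)
    (N : B → Prop) (Y : AddSubgroup k) (g : ℝ → ℝ) (K : ℕ), Hyp₄ S ψ e N Y g K →
  ∀ (j₀ : ℕ) (ε : ℝ), 0 < ε → ∃ X₀ : ℝ, ∀ X, X₀ ≤ X → ∀ P : Finset B,
    ∑ b ∈ P.powerset with (S.Fam b ∧ ∃ (x : U) (c : B → k), S.IsSol b x c ∧
      ¬ (x = 0 ∧ c = 0) ∧ ∀ q, c q ≠ 0 → S.bl q < j₀), Real.exp (-(S.nm b / X)) ≤ ε * (X * g X)

open Classical in
/-- **X_EX2**: `Z_EX2` for `HypW`, with the same proof; `Pool/Agent/Helper17/PP0/EX2.lean`. -/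
def X_EX2 : Prop :=
  ∀ (p : ℕ) [Fact p.Prime] (B B₀ k U Λ C : Type) [Field k] [Fintype k] [Algebra (ZMod p) k]
    [AddCommGroup U] [Module k U] [Fintype U] [AddCommGroup Λ] [Module k Λ] [Fintype Λ]
    [AddCommGroup C] [Finite C] (S : Sys p B B₀ k U Λ C) (ψ : AddChar k ℂ)
    (g : ℝ → ℝ) (K : ℕ), HypW S ψ g K →
  ∃ K' : ℕ, ∀ (j₀ : ℕ) (X : ℝ) (P : Finset B), 1 ≤ j₀ → 1 ≤ X →
    ∑ b ∈ P.powerset with (∃ q ∈ b, ∃ q' ∈ b, q ≠ q' ∧ S.bl q = S.bl q' ∧ j₀ ≤ S.bl q),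
      Real.exp (-(S.nm b / X)) ≤ K' / j₀ * (X * g X)

open Classical in
/-- **X_EX5**: `Z_EX5` for `HypW`, with the same proof; `Pool/Agent/Helper17/PP0/EX5.lean`. -/
def X_EX5 : Prop :=
  ∀ (p : ℕ) [Fact p.Prime] (B B₀ k U Λ C : Type) [Field k] [Fintype k] [Algebra (ZMod p) k]
    [AddCommGroup U] [Module k U] [Fintype U] [AddCommGroup Λ] [Module k Λ] [Fintype Λ]
    [AddCommGroup C] [Finite C] (S : Sys p B B₀ k U Λ C) (ψ : AddChar k ℂ)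
    (g : ℝ → ℝ) (K : ℕ), HypW S ψ g K →
  ∀ (E : ℕ) (ε : ℝ), 1 ≤ E → 0 < ε → ∃ j₁ : ℕ, ∀ j₀, j₁ ≤ j₀ → ∀ X : ℝ, 1 ≤ X → ∀ P : Finset B,
    ∑ b ∈ P.powerset with (∃ q ∈ b, j₀ ≤ S.bl q ∧ ∃ D ⊆ b, q ∉ D ∧
      (∀ q' ∈ D, S.bl q' ≤ th E (S.bl q)) ∧ 2 ^ tb E (S.bl q) ≤ S.nm D),
      Real.exp (-(S.nm b / X)) ≤ ε * (X * g X)

open Classical in
/-- **X_EXN** (no large prime in `N`): `C_EX3` with `N` in the place of the primes which are not split, with the same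
proof (from `ht`, `merN`); the file of `C_EX3` is in `Pool/Agent/*/PP` (see `Helper17/PP/AsmC.lean`). -/
def X_EXN : Prop :=
  ∀ (p : ℕ) [Fact p.Prime] (B B₀ k U Λ C : Type) [Field k] [Fintype k] [Algebra (ZMod p) k]
    [AddCommGroup U] [Module k U] [Fintype U] [AddCommGroup Λ] [Module k Λ] [Fintype Λ]
    [AddCommGroup C] [Finite C] (S : Sys p B B₀ k U Λ C) (ψ : AddChar k ℂ) (e : B → k)
    (N : B → Prop) (Y : AddSubgroup k) (g : ℝ → ℝ) (K : ℕ), Hyp₄ S ψ e N Y g K →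
  ∀ ε : ℝ, 0 < ε → ∃ X₀ : ℝ, ∀ X, X₀ ≤ X → ∀ P : Finset B,
    ∑ b ∈ P.powerset with (∀ q ∈ b, N q → S.bl q < Nat.sqrt (lg X)),
      Real.exp (-(S.nm b / X)) ≤ ε * (X * g X)

/-- **Q_FIN** (assembly of `MT₄`).

PROOF (compare `Pool/Agent/Helper17/PP/FinB.lean`, `FinC.lean`, `FinD.lean`, `Helper17/PP2/Fin.lean`). Let `Q = |k|`,
`ρ = |U|/|Λ|`, `E = 2K(K+1)`; let `A` be the number given by `R_SM6` for the maximum `K₁` of the constants of `Q_B`, `Q_C`,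
`Q_D` (each of these bounds is also true with `K₁`); `A₅ ≥ 2` larger than the `A₀` of `Q_SMA` for this `A` and the constant
of `Q_SML`; `ε' > 0` small. `j₀ ≥ 2` such that `j ≤ th E j` for `j ≥ j₀`, `K₅/j₀ ≤ ε'` (`K₅` the constant of `X_EX2`), and `j₀` is at
least the `j₁` of `X_EX5`, `U_SM1`, `U_SM2` for `ε'`. Then `X` large, `L = lg X`, `s = Nat.sqrt L`, `s' = sl A₅ L`,
`I = ti A L + 1`: all the statements for `L ≥ L₀`, `X ≥ X₀` hold (`Q_SMB`: `j₀ ≤ I ≤ s' ≤ s`; use `Q_SMA` with `A + 1` if you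
prefer `I = ti (A+1) L`). Let `J` be larger than `L`, `s`, `Nat.log 2 (nm P) + 1`; all the primes of `P` are in blocks `< J`, and
`nm b < 2^J` for `b ⊆ P`.
(1) The `b ⊆ P` in one of the sets of `X_EX0` (`j₀`), `X_EX2`, `X_EX5`, `X_EXN` have measure `≤ 4 ε' X g(X)`. Let `b ⊆ P` be in the
family, `Bad₄`, and in none of these sets. There is a prime of `b` in `N` in a block `≥ s`; the one in the highest block
is the pivot `P₁` (no two primes of `b` are in the same block `≥ j₀`), `s ≤ bl P₁`. By `Q_CNT` there is `q ∈ b` with `Wt E b q`,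
`j₀ ≤ bl q`, `q ≠ P₁`, `Q - 1 ≤ cnu E b q`, `Q - 1 ≤ cnt₅ b q P₁`; `Wt` implies `Wv`. So
`(Q-1) ≤ ∑_{q, Wt, j₀ ≤ bl q < s'} cnu E b q + ∑_{q, Wv, s' ≤ bl q} ∑_{P₁, Piv, ≠ q, s ≤ bl P₁} cnt₅ b q P₁`.
(2) First sum, for each `j < s'`: by `U_ORT` it is the main term, `(Q-1) |U|` times the sum of `U_MNS`, and the terms with
`D ≠ ∅`: the primes of `D ⊆ rt E b q` are in blocks `≥ j + 1`, so `Nat.log 2 (nm D) ≥ j + 1`, and `nm D < 2^(tb E j)` by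
`Wt.small`: at most `Q ∑_{j+1 ≤ i < tb E j}` of the bounds of `U_LRG` (sum over `t ≠ 0`). By `U_SM1`, `U_SM2` the sum over
`j₀ ≤ j < s'` is `≤ C ε' X g(X)` (drop `Fam` in the main term).
(3) Second sum. By `Q_FUL` (`cas`: `Y = ⊥`, or all the primes are split) it is at most `(1/(Q |Y|))` times the sum over
`t ≠ 0`, `s`, `y₁ ∈ Y` of the real parts of the sums of `ful₄ t s y₁ True · e(nm b/X)`. The terms with `(s, y₁) ≠ (0, 0)`: at most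
`Q³ ∑_{s' ≤ j < J} ∑_{s ≤ i < J}` of the bounds of `Q_D`, `≤ C ε' X g(X)` by `R_SM6` (`T = ti A L`). The terms with
`(s, y₁) = (0, 0)`: by `Q_SPL`, `FM + FA + ∑_{I ≤ i < J} (FB i + FC i)`. `FA`: `Q_SML`, `Q_SMA`. `FB`: `Q_B` for
`s' ≤ j < J`, `I ≤ i < J`, `m = s`, and `R_SM6` (`(i+1)^K ≤ (i+j)^K`). `FC`: `Q_C` for `s ≤ i' < J`, `I ≤ i < J`, `m = s'`, and
`R_SM6`. `FM`: by `Q_MN` and `Q_MNB` (at most one pivot `P₁` for each `b`; drop the condition `s' ≤ bl q`)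
`∑_{t ≠ 0} ∑_{b ∈ Fam} ∑_q ∑_{P₁} ρ Q^(-|ra₄|) e(nm b/X) ≤ ρ Q ∑_{b ∈ Fam} e(nm b/X)`.
(4) So `(Q-1) ∑_{good} e(nm b/X) ≤ (ρ/|Y|) ∑_{b ∈ Fam} e(nm b/X) + C ε' X g(X)`. -/
def Q_FIN : Prop :=
  Q_CNT → Q_FUL → Q_SPL → Q_MN → Q_MNB → Q_SML → Q_B → Q_C → Q_D → U_ORT → U_LRG → U_MNS →
    U_SM1 → U_SM2 → Q_SMA → Q_SMB → R_SM6 → X_EX0 → X_EX2 → X_EX5 → X_EXN → MT₄

end Pool.Agent.Helper11.M3
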