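import Pool.Agent.Helper11.M3.Goals3
import Pool.Agent.Helper11.M3.Goals4b
import Pool.Agent.Helper38.ND.Goals

/-!
# Project M3 (MP_fc6b1e_nt, step 2): the moment theorems with weights, and their assembly

These replace `S_FIN` and `Q_FIN` (only the forms with weights are used).
-/

set_option autoImplicit false

namespace Pool.Agent.Helper11.M3

open Finset Pool.Agent.Helper17.PP Pool.Agent.Helper17.PP0 Pool.Agent.Helper17.PP2
open Pool.Agent.Helper38.ND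

open Classical in
/-- **MT₃W**: `MT₃` for weights. -/
def MT₃W : Prop :=
  ∀ (p : ℕ) [Fact p.Prime] (B B₀ k U Λ C : Type) [Field k] [Fintype k] [Algebra (ZMod p) k]
    [AddCommGroup U] [Module k U] [Fintype U] [AddCommGroup Λ] [Module k Λ] [Fintype Λ]
    [AddCommGroup C] [Finite C] (S : Sys p B B₀ k U Λ C) (ψ : AddChar k ℂ) (Lk : k → k → Prop)
    (Cs : k → AddSubgroup k) (M : ℕ) (g : ℝ → ℝ) (K : ℕ), Hyp₃ S ψ Lk Cs M g K →
  ∀ w : ℝ → ℝ, WF w → ∀ ε : ℝ, 0 < ε → ∃ X₀ : ℝ, ∀ X : ℝ, X₀ ≤ X → ∀ P : Finset B,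
    ∑ b ∈ P.powerset with (S.Fam b ∧ S.Bad b), w (S.nm b / X) ≤
      (Fintype.card U / Fintype.card Λ) * (Fintype.card k / (M * (Fintype.card k - 1))) *
        ∑ b ∈ P.powerset with S.Fam b, w (S.nm b / X) + ε * (X * g X)

open Classical in
/-- **MT₄W**: `MT₄` for weights. -/
def MT₄W : Prop :=
  ∀ (p : ℕ) [Fact p.Prime] (B B₀ k U Λ C : Type) [Field k] [Fintype k] [Algebra (ZMod p) k]
    [AddCommGroup U] [Module k U] [Fintype U] [AddCommGroup Λ] [Module k Λ] [Fintype Λ]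
    [AddCommGroup C] [Finite C] (S : Sys p B B₀ k U Λ C) (ψ : AddChar k ℂ) (e : B → k)
    (N : B → Prop) (Y : AddSubgroup k) (g : ℝ → ℝ) (K : ℕ), Hyp₄ S ψ e N Y g K →
  ∀ w : ℝ → ℝ, WF w → ∀ ε : ℝ, 0 < ε → ∃ X₀ : ℝ, ∀ X : ℝ, X₀ ≤ X → ∀ P : Finset B,
    ∑ b ∈ P.powerset with (S.Fam b ∧ Bad₄ S N b), w (S.nm b / X) ≤
      (Fintype.card U / Fintype.card Λ) * (1 / (Nat.card Y * (Fintype.card k - 1))) *
        ∑ b ∈ P.powerset with S.Fam b, w (S.nm b / X) + ε * (X * g X)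

/-- **S_FINW** (assembly of `MT₃W`; it replaces `S_FIN`).

PROOF (that of `S_FIN`, in the weighted form of `w_mt2`, `Pool/Agent/Helper85/ND/WMT2.lean`, `G = fun _ ↦ True`). `step1W`,
`step4W` and `W_COR` are used as they are; `S_FUL`, `S_SPL` are statements for fixed `b`; the exceptional sets, `S_OSZ`, `S_TL`: `w`
is at most a multiple of `exp(-t)` (`WF.dom`); `S_OSA`, `S_OSB`: the norm of the sum with weights is at most
`∑_l |a_l|` times the bound at `X/(l+1)` (`norm_A1W_le`, `osa_scale` there). -/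
def S_FINW : Prop :=
  W_COR → C_CNT → Z_EX0 → Z_EX2 → Z_EX5 → Z_EX6 → R_SM5 → R_SM6 → S_FUL → S_SPL → S_OSZ →
    S_OSA → S_OSB → S_TL → MT₃W

/-- **Q_FINW** (assembly of `MT₄W`; it replaces `Q_FIN`).

PROOF. That of `Q_FIN` (see its docstring) with the weight `w (nm b/X)` in the place of `e(nm b/X)`: `Q_CNT`, `Q_FUL`, `Q_SPL`, `Q_MN`,
`Q_MNB`, `U_ORT` are statements for fixed `b`; for the exceptional sets, `Q_SML`, `U_MNS` (nonnegative sums) use `w t ≤ C exp(-t)`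
(`WF.dom`); for `Q_B`, `Q_C`, `Q_D`, `U_LRG`: `w = ∑_l a_l exp(-(l+1)t)`, the norm of the sum with weights is at most
`∑_l |a_l|` times the bound at `X/(l+1) ≥ 1`, which is at most `K` times the bound at `X` (compare `norm_A1W_le`,
`osa_scale` in `Pool/Agent/Helper85/ND/WMT2.lean`). -/
def Q_FINW : Prop :=
  Q_CNT → Q_FUL → Q_SPL → Q_MN → Q_MNB → Q_SML → Q_B → Q_C → Q_D → U_ORT → U_LRG → U_MNS →
    U_SM1 → U_SM2 → Q_SMA → Q_SMB → R_SM6 → X_EX0 → X_EX2 → X_EX5 → X_EXN → MT₄W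

end Pool.Agent.Helper11.M3
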