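import Pool.Agent.Helper11.M3.HYP4A
import Pool.Agent.Helper11.M3.BLGA
import Pool.Agent.Helper3.M3.ABL1
import Pool.Agent.Helper18.M3.ABL4
import Pool.Agent.Helper64.M3.ABL5
import Pool.Agent.Helper85.M3.ACAS
import Pool.Agent.Helper61.M3.AKUM
import Pool.Agent.Helper98.M3.AKUE
import Pool.Agent.Helper32.M3.ABLH
import Pool.Agent.Helper15.M3.ANZO

/-!
# Project M3 (MP_fc6b1e_nt, step 2): `A_HYP4` with the proofs of the packets inserted
-/

set_option autoImplicit false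

namespace Pool.Agent.Helper11.M3

/-- **A_HYP4** from `A_SMO`. -/
theorem f_hyp4 (hTWO : Pool.Agent.Helper51.REC.R_TWO) (hsmo : A_SMO) : A_HYP4 :=
  a_hyp4 (Pool.Agent.Helper3.M3.a_bl1 (a_blg hTWO) Pool.Agent.Helper15.M3.a_nzo)
    (Pool.Agent.Helper18.M3.a_bl4 Pool.Agent.Helper32.M3.a_blh Pool.Agent.Helper15.M3.a_nzo)
    (Pool.Agent.Helper64.M3.a_bl5 (a_blg hTWO) Pool.Agent.Helper32.M3.a_blh
      Pool.Agent.Helper15.M3.a_nzo)
    Pool.Agent.Helper85.M3.a_cas (Pool.Agent.Helper61.M3.a_kum Pool.Agent.Helper98.M3.a_kue) hsmo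

end Pool.Agent.Helper11.M3
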