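import Pool.Agent.Helper11.M3.Defs
import Pool.Agent.Helper17.PP0.Goals

/-!
# Project M3 (MP_fc6b1e_nt, step 2): goals for `MT₃`

Every statement is a `def ... : Prop` with its complete proof in the docstring. `Q = |k|`, `e(z)` is
`exp(-z)`. In the statements with `∃ K'` the constant `K'` depends on everything except
`E, T, i, j, m, t, s, X, P`. All primes are in `G` (`G = fun _ ↦ True` in `Ok`).
-/

set_option autoImplicit false

namespace Pool.Agent.Helper11.M3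

open Finset Pool.Agent.Helper17.PP Pool.Agent.Helper17.PP0 Pool.Agent.Helper17.PP2
open Pool.Agent.Helper30.PP2 (c0 y0)

open Classical in
/-- **S_FUL** (expansion of the condition at `q` by the characters of the subgroup `Cs t`). Let
`q ∈ b ⊆ P`. Then
`cnt₂ E b q ≤ (1/M) cnt E b q + (1/M) ∑_{t ≠ 0} ∑_{s ∈ Cs t, s ≠ 0} Re (ful₃ E P b q t s)`.

PROOF (adaptation of `Pool/Agent/Helper86/PP2/RFUL.lean`). For `t ≠ 0` and `s ∈ k` let `V(t, s)` be the sum of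
`ψ(s R b x c q)` over the pairs `(x, c)`, `c ∈ lab k b`, with `IsPre E b q x c` and `c q = t`. The proof of
`Helper86.PP2.ful_eq` shows, for each fixed `t` (the sum over `t` is the outermost one there: `sum_trc` writes the
sum over `c` as a sum over `t ≠ 0`), `V(t, s) = ful₃ E P b q t s (True)`. (If you prefer to use `sum_trc` as it is:
apply it to the function `c ↦ if IsPre .. ∧ c q = t₀ then ψ(s R) else 0`; only the term `t = t₀` remains.)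
`cnt E b q = ∑_{t ≠ 0} V(t, 0)`. For fixed `(x, c)` with `IsPre`, `t = c q ≠ 0`, `R = R b x c q`: the function
`s ↦ ψ(s R)` is a character of the finite group `Cs t` with `M` elements, so `∑_{s ∈ Cs t} ψ(s R)` is `M` or `0`
(`AddChar.sum_eq_ite`, or: if some `ψ(s₀ R) ≠ 1` translate by `s₀`), and it is `M` if `R = 0`. So
`1[R = 0] ≤ (1/M) Re ∑_{s ∈ Cs t} ψ(s R)`. Sum over `(x, c)` and separate `s = 0`. -/
def S_FUL : Prop :=
  ∀ (p : ℕ) [Fact p.Prime] (B B₀ k U Λ C : Type) [Field k] [Fintype k] [Algebra (ZMod p) k]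
    [AddCommGroup U] [Module k U] [Fintype U] [AddCommGroup Λ] [Module k Λ] [Fintype Λ]
    [AddCommGroup C] (S : Sys p B B₀ k U Λ C) (ψ : AddChar k ℂ), ψ ≠ 1 →
  ∀ (Cs : k → AddSubgroup k) (M : ℕ), 0 < M → (∀ t : k, t ≠ 0 → Nat.card (Cs t) = M) →
  ∀ (E : ℕ) (P b : Finset B) (q : B), b ⊆ P → q ∈ b →
    (S.cnt₂ E b q : ℝ) ≤ (1 / M : ℝ) * S.cnt E b q + (1 / M : ℝ) *
      ∑ t : k with t ≠ 0, ∑ s : k with (s ∈ Cs t ∧ s ≠ 0),
        (ful₃ S ψ E P b q t s fun _ _ ↦ True).re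

open Classical in
/-- **S_SPL** (exactly one of the cases `Zo`, `Tl .. q₁`, `Tt .. q₁ q₂`).

PROOF (compare `Helper17.PP2.split_one`, `ful_split`). As there it suffices to prove the identity for the indicator
functions, for fixed `c, y`. Distinct primes of `b` in the blocks `≥ T` are in distinct blocks (`Ok`).
(1) If some `q' ∈ b`, `q' ≠ q`, `T ≤ bl q'` has `Lq`, there is exactly one `q₁` with `Tl` (the one in the highest
block), and `Zo`, `Tt` are false. (2) Otherwise `Tl` is false. If there are no two different primes (`≠ q`, blocks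
`≥ T`) with `Nz`, then `Zo` holds and `Tt` is false (`q₁ ≠ q₂` by `lt`). If there are two, `Zo` is false and `Tt`
holds exactly for `q₁` the highest of them and `q₂` the highest of the others. -/
def S_SPL : Prop :=
  ∀ (p : ℕ) (B B₀ k U Λ C : Type) [Field k] [Fintype k] [Algebra (ZMod p) k]
    [AddCommGroup U] [Module k U] [Fintype U] [AddCommGroup Λ] [Module k Λ] [Fintype Λ]
    [AddCommGroup C] (S : Sys p B B₀ k U Λ C) (ψ : AddChar k ℂ) (Lk : k → k → Prop)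
    (T E : ℕ) (P b : Finset B) (q : B) (t s : k), Ok S (fun _ ↦ True) T b →
    ful₃ S ψ E P b q t s (fun _ _ ↦ True) = ful₃ S ψ E P b q t s (Zo S Lk T E b q t s) +
      ∑ q₁ ∈ b, ful₃ S ψ E P b q t s (fun c y ↦ Tl S Lk T E b q t s c y q₁) +
      ∑ q₁ ∈ b, ∑ q₂ ∈ b, ful₃ S ψ E P b q t s (fun c y ↦ Tt S Lk T E b q t s c y q₁ q₂)

open Classical in
/-- **S_OSZ** (at most one label in the blocks `≥ T` is not zero). Let `1 ≤ T ≤ j`, and let all the primes of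
`P` be in blocks `≤ th E j`. The sum over `b ⊆ P` and over `q` in the block `j` with `Wt` of
`‖ful₃ E P b q t s Zo‖ e(nm b/X)` is at most
`K' (T+2)^K' j⁻¹ min(1, X/2^j) (max 1 n)^(-1/(4K)) X g(X)`, `n = lg X - (j+1)` (subtraction in `ℕ`).

PROOF (adaptation of `Pool/Agent/Helper74/PP2/ROSZ.lean`). `|ph| = 1`, so
`‖ful₃‖ ≤ |U| Q^|rs b q| |lab k P|⁻² #{(c, y) : Zo}`. Let `A` be the set of the split primes of `b.erase q` in the
blocks `T ≤ · < j`, `A'` the set of those in the blocks `≥ T`, `≠ j`, `n' = |A'|` (`A ⊆ A'`). If `Zo` holds then there is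
`q₁ ∈ A'` such that `c = 0` on `A \ {q₁}` and `y = 0` on `A' \ {q₁}`, or `c = 0` on `A` and `y = 0` on `A'`
(all the primes of `b` are in blocks `≤ th E j`). By `C_LAB` (4) the number of these pairs is at most
`(1 + n' Q²) |lab k P|² Q^(-|A|) Q^(-|A'|)`. `1 + n' Q² ≤ Q² (1 + n') ≤ 2 Q² (3/2)^n'` (`(3/2)^n ≥ 1 + n/2`). So
`‖ful₃‖ ≤ 2 |U| Q² ∏_{q' ∈ b.erase q} f q'`, `f q' = Q` if `q'` is split in a block `< T`, `f q' = (3/2)/Q` if
`q'` is split in a block `≥ T`, `≠ j`, and `f q' = 1` otherwise (the other split primes of `b.erase q`; recall that none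
of them is in the block `j`). From here on the proof is the one of `R_OSZ` with `3/(2Q)` in the place of
`1/Q`: the exponent is `(Q-1) Σ₁ - (1 - 3/(2Q)) Σ₂` and `1 - 3/(2Q) ≥ 1/4`, which gives the exponent
`-1/(4K)` (`(max 1 n)^(1/(4K)) ≤ T` if `n ≤ T`; `Σ₂ ≥ K⁻¹ log(n/T) - 2K` otherwise). -/
def S_OSZ : Prop :=
  ∀ (p : ℕ) [Fact p.Prime] (B B₀ k U Λ C : Type) [Field k] [Fintype k] [Algebra (ZMod p) k]
    [AddCommGroup U] [Module k U] [Fintype U] [AddCommGroup Λ] [Module k Λ] [Fintype Λ]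
    [AddCommGroup C] [Finite C] (S : Sys p B B₀ k U Λ C) (ψ : AddChar k ℂ)
    (Lk : k → k → Prop) (g : ℝ → ℝ) (K : ℕ), HypW S ψ g K →
  ∃ K' : ℕ, ∀ (E T j : ℕ) (t s : k) (X : ℝ) (P : Finset B), 1 ≤ T → T ≤ j →
      (∀ q ∈ P, S.bl q ≤ th E j) → 1 ≤ X →
    ∑ b ∈ P.powerset, ∑ q ∈ b with (S.Wt E b q ∧ S.bl q = j),
        ‖ful₃ S ψ E P b q t s (Zo S Lk T E b q t s)‖ * Real.exp (-(S.nm b / X)) ≤
      K' * ((T : ℝ) + 2) ^ K' / j * min 1 (X / 2 ^ j) *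
        ((max 1 (lg X - (j + 1)) : ℕ) : ℝ) ^ (-(1 / (4 * K) : ℝ)) * (X * g X)

open Classical in
/-- **S_OSA** (the oscillating sums, first kind). Let `1 ≤ T ≤ i, j`, `i ≠ j`, `t, s ≠ 0`. The sum over the `b ⊆ P` in
the family with `Ok T b`, over `q` in the block `j` with `Wt` and over `q₁` in the block `i`, of
`ful₃ E P b q t s (Tl .. q₁) · e(nm b/X)`, is at most
`K' (lg X + 2)^K' (i+j)^K 2^(-min(i,j)/K) min(1, X/2^(i+j)) X g(X)`.

PROOF: the one of `R_OSA` (`Pool/Agent/Helper30/PP2/ROSA.lean`) for a fixed value of `t`, with `Tp`, `Nz` replaced by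
`Tl`, `Lq`: `Lq` at `q'` depends only on `t, s`, the block of `q'` and the values of the label functions `c⁰`, `y⁰` at
`q'`, as `Nz` does. In the bilinear form the value `(c₁, y₁)` of `(c⁰ q₁, y⁰ q₁)` satisfies `(c₁, y₁) ≠ (0, 0)` and
`Lk (s c₁) (t y₁)`, as needed for `bl₃`. -/
def S_OSA : Prop :=
  ∀ (p : ℕ) [Fact p.Prime] (B B₀ k U Λ C : Type) [Field k] [Fintype k] [Algebra (ZMod p) k]
    [AddCommGroup U] [Module k U] [Fintype U] [AddCommGroup Λ] [Module k Λ] [Fintype Λ]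
    [AddCommGroup C] [Finite C] (S : Sys p B B₀ k U Λ C) (ψ : AddChar k ℂ)
    (Lk : k → k → Prop) (Cs : k → AddSubgroup k) (M : ℕ) (g : ℝ → ℝ) (K : ℕ),
    Hyp₃ S ψ Lk Cs M g K →
  ∃ K' : ℕ, ∀ (E T i j : ℕ) (t s : k) (X : ℝ) (P : Finset B), 1 ≤ T → T ≤ i → T ≤ j → i ≠ j →
      t ≠ 0 → s ≠ 0 → 1 ≤ X →
    ‖∑ b ∈ P.powerset with (S.Fam b ∧ Ok S (fun _ ↦ True) T b),
      ∑ q ∈ b with (S.Wt E b q ∧ S.bl q = j), ∑ q₁ ∈ b with S.bl q₁ = i,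
        ful₃ S ψ E P b q t s (fun c y ↦ Tl S Lk T E b q t s c y q₁) *
          (Real.exp (-(S.nm b / X)) : ℂ)‖ ≤
      K' * (lg X + 2) ^ K' * (i + j) ^ K * (2 : ℝ) ^ (-(min i j : ℝ) / K) *
        min 1 (X / 2 ^ (i + j)) * (X * g X)

open Classical in
/-- **S_OSB** (the oscillating sums, second kind). Let `1 ≤ T ≤ i₂ < i₁`, `T ≤ m`, `t ≠ 0`, `s ∈ Cs t`, `s ≠ 0`. The sum
over the `b ⊆ P` in the family with `Ok T b`, over the `q ∈ b` in the blocks `≥ m` with `Wv`, over `q₁` in the block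
`i₁` and `q₂` in the block `i₂`, of `ful₃ E P b q t s (Tt .. q₁ q₂) · e(nm b/X)`, is at most
`K' (lg X + 2)^K' (i₁+i₂)^K 2^(-i₂/K) min(1, X/2^(i₁+i₂)) X g(X)`.

PROOF (compare `R_OSA`, `Pool/Agent/Helper30/PP2/ROSA.lean`, whose lemmas `ph_insert`, `ph_congr`, `AA`, `Ph`, `R_ins`,
`upto_sum` can be used). Now `q` is in the rest: write `b = {q₁, q₂} ∪ r` (disjoint), `q ∈ r`, by `C_DEC` (1) twice. Bring
the sums over `x, χ, c, y` outside, and fix these, `r` and `q ∈ r`; `j = bl q`. Let `ĉ = cutc j q t c`, `ŷ = cuty E j q s y`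
(these functions do not depend on `q₁, q₂`; at `q' ≠ q` they are `c⁰ = c0 j c`, `y⁰ = y0 E j y`).
*Conditions.* They are equivalent to: (1) `bl q₁ = i₁`, `bl q₂ = i₂`, `i₁, i₂ ≠ j` (`q` is in a block `≥ m ≥ T`, `Ok`); (2)
`bs` is injective on `r`, `Ok T r`, no prime of `r` is in the block `i₁` or `i₂`; `Wv r q`, `m ≤ j`; for
`q' ∈ r`, `q' ≠ q`, `T ≤ bl q'`: not `Lq`, and `bl q' < i₂` if `Nz`; (3) `Nz` and not `Lq` at `q₁`, at `q₂` (so `q₁, q₂` are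
split); (4) `cls q₁ + cls q₂ + ∑_r cls = cl₀`. Only (4) involves both `q₁` and `q₂`. (`bs` is then injective on `b`
because primes with the same base are in the same block; `Wv b q` holds as `i₁, i₂ ≠ j`.)
*Phases.* By `ph_insert` twice, `ph χ b x ĉ ŷ = ph χ r x ĉ ŷ · A₁(q₁) · A₂(q₂) · Φ(q₁, q₂)`, with `A₁`, `A₂` of norm 1,
`A₁` depending only on `r` and `q₁`, and `Φ = Ph ψ c₁ y₁ c₂ y₂ q₁ q₂`, `(c₁, y₁)`, `(c₂, y₂)` the values of `(c⁰, y⁰)` at `q₁`,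
`q₂`, that is the phase of `bl₃` for `q := q₁` with the label `(t, s) := (c₁, y₁)` and `q₁ := q₂` with `(c, y) := (c₂, y₂)`.
By the field `two` of `Hyp₃`: `c₁ ≠ 0`, `y₁ ≠ 0`, `Lk (y₁ c₂) (c₁ y₂)`, and `(c₂, y₂) ≠ (0, 0)`. So `bl₃` applies with the
blocks `i := i₂`, `j := i₁`.
*The bilinear form.* `Q^|rs b q| ≤ Q^|r| Q²` (it is `Q^|rs r q|` times a power of `Q` which depends only on `i₁, i₂, j`).
`nm b = N q₁ N q₂ nm r`. Sum over `γ ∈ C` (`cls q₁ = γ`) and over the values `(c₁, y₁)`, `(c₂, y₂)` (at most `Q⁴`): for fixed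
values we get a bilinear form as in `bl₃`, `Y = X/nm r`, `α q₂ = 1[conditions on q₂] A₂(q₂)`,
`β q₁ = 1[conditions on q₁] A₁(q₁)`. Its norm is at most
`K 2^(i₁+i₂) (i₁+i₂)^K 2^(-i₂/K) e(2^(i₁+i₂) nm r/(2X))`.
*Summation.* The number of `(x, χ, c, y)` divided by `|Λ| |lab k P|²` is at most `|U|`; `γ` and the labels: `|C| Q⁴`; the
number of `q ∈ r` is at most `|r| ≤ Q (1 + 1/Q)^|r|` (Bernoulli), so `∑_{q ∈ r} Q^|r| ≤ Q (Q+1)^|r|`. By `ht` with `f = Q + 1`,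
`∑_{r ⊆ P} (Q+1)^|r| e(nm r/Y') ≤ K Y' min(1,Y') g(Y') exp(∑_{upto Y'} Q/N q')`, `Y' = 2X/2^(i₁+i₂) ≤ X`, and as in `R_OSA`
the exponent is `≤ Q K (1 + log(lg X + 1))`, `2^(i₁+i₂) Y' = 2X`, `min(1,Y') ≤ 2 min(1, X/2^(i₁+i₂))`. -/
def S_OSB : Prop :=
  ∀ (p : ℕ) [Fact p.Prime] (B B₀ k U Λ C : Type) [Field k] [Fintype k] [Algebra (ZMod p) k]
    [AddCommGroup U] [Module k U] [Fintype U] [AddCommGroup Λ] [Module k Λ] [Fintype Λ]
    [AddCommGroup C] [Finite C] (S : Sys p B B₀ k U Λ C) (ψ : AddChar k ℂ)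
    (Lk : k → k → Prop) (Cs : k → AddSubgroup k) (M : ℕ) (g : ℝ → ℝ) (K : ℕ),
    Hyp₃ S ψ Lk Cs M g K →
  ∃ K' : ℕ, ∀ (E T i₁ i₂ m : ℕ) (t s : k) (X : ℝ) (P : Finset B), 1 ≤ T → T ≤ i₂ → i₂ < i₁ →
      T ≤ m → t ≠ 0 → s ∈ Cs t → s ≠ 0 → 1 ≤ X →
    ‖∑ b ∈ P.powerset with (S.Fam b ∧ Ok S (fun _ ↦ True) T b),
      ∑ q ∈ b with (Wv S b q ∧ m ≤ S.bl q),
        ∑ q₁ ∈ b with S.bl q₁ = i₁, ∑ q₂ ∈ b with S.bl q₂ = i₂,
          ful₃ S ψ E P b q t s (fun c y ↦ Tt S Lk T E b q t s c y q₁ q₂) *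
            (Real.exp (-(S.nm b / X)) : ℂ)‖ ≤
      K' * (lg X + 2) ^ K' * (i₁ + i₂) ^ K * (2 : ℝ) ^ (-(i₂ : ℝ) / K) *
        min 1 (X / 2 ^ (i₁ + i₂)) * (X * g X)

open Classical in
/-- **S_TL** (very large norms). The sum over `b ⊆ P` with a prime `q` in a block `≥ √(lg X)` and
`nm b ≥ 2^(tb E (bl q))`, of `Q^|b| e(nm b/X)`, is `o(1)`, for `E ≥ 1`.

PROOF (only `che` is used). Let `m = Nat.sqrt (lg X)`. If `b` contains such a `q` then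
`nm b ≥ Z := 2^(tb E m)` (`tb E` is monotone). So the sum is at most
`(sup_{n ≥ Z} n³ e(n/X)) ∑_{b ⊆ P} |b| Q^|b| (nm b)^(-3)`, and (`|b| Q^|b| ≤ Q (Q+1)^|b|`)
`∑_{b ⊆ P} (Q+1)^|b| (nm b)^(-3) = ∏_{q ∈ P} (1 + (Q+1)/N q³) ≤ exp((Q+1) ∑_{q ∈ P} N q^(-3))`, where by `che`
`∑_{q ∈ P} N q^(-3) ≤ ∑_{j ≥ 1} 2^(-2j) K/j ≤ K` (there is no prime in the block `0`). For `X` large `tb E m = 2^(m/E)`
(natural division) is at least `2 (lg X + 2)`, as `m ≥ √(lg X) - 1`, so `Z ≥ X²` and for `n ≥ Z`, `n/X ≥ √n`, and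
`n³ e(√n)` tends to `0` as `n → ∞`. Finally `X g(X) ≥ 1`. -/
def S_TL : Prop :=
  ∀ (p : ℕ) [Fact p.Prime] (B B₀ k U Λ C : Type) [Field k] [Fintype k] [Algebra (ZMod p) k]
    [AddCommGroup U] [Module k U] [AddCommGroup Λ] [Module k Λ]
    [AddCommGroup C] (S : Sys p B B₀ k U Λ C) (ψ : AddChar k ℂ)
    (g : ℝ → ℝ) (K : ℕ), HypW S ψ g K →
  ∀ (E : ℕ) (ε : ℝ), 1 ≤ E → 0 < ε → ∃ X₀ : ℝ, 1 ≤ X₀ ∧ ∀ X : ℝ, X₀ ≤ X → ∀ P : Finset B,
    ∑ b ∈ P.powerset, ∑ q ∈ b with (Nat.sqrt (lg X) ≤ S.bl q ∧ 2 ^ tb E (S.bl q) ≤ S.nm b),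
      (Fintype.card k : ℝ) ^ b.card * Real.exp (-(S.nm b / X)) ≤ ε * (X * g X)

/-- **S_FIN** (assembly of `MT₃`, from the goals of this file and those used in `Helper17.PP2.fin₂`).

PROOF (compare `Pool/Agent/Helper17/PP2/Fin.lean`). The same choices of `E, A, j₀, X₀`; `G = fun _ ↦ True` (then the last
exceptional set of `step1` is empty), `Hyp₃` contains `Hyp₀`. `step1`, `step4` of `Helper17/PP2/FinB.lean` are used as they
are: `(Q-1) G ≤ ∑_{j₀ ≤ j < √L} T1 j + ∑_{√L ≤ j < J} T2 j`, `T2 j` the sum of the `cnt₂` over `b` in the family with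
`Ok T b`, `q` in the block `j` with `Wt`. By `S_FUL` (in the place of `R_FUL`)
`T2 j ≤ (1/M) T1 j + (1/M) ∑_{t ≠ 0} ∑_{s ∈ Cs t, s ≠ 0} Re (sum of ful₃ t s (True) e(nm b/X))`, and by `S_SPL` the sum for
fixed `t, s` splits into: (a) `Zo`, at most the bound of `S_OSZ`; the sum over `j ≥ √L` is `≤ K₆ ε' X g(X)` by `R_SM5` with
`2K` in the place of `K`; (b) `Tl`, `∑_{T ≤ i < J, i ≠ j}` of the sums of `S_OSA` (`Tl` is impossible if `bl q₁ < T` or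
`bl q₁ = bl q`, as in `ful_tp_zero`), summed by `R_SM6`; (c) `Tt`: summed over `√L ≤ j < J` it is the sum over `b`, `q` with
`Wt` and `√L ≤ bl q`, and over `T ≤ i₂ < i₁ < J`, of `ful₃ (Tt)`. Replace `Wt` by `Wv`: by `S_OSB` and `R_SM6` (`i₂ = min(i₁, i₂)`)
the sum over all `(i₁, i₂)` is `≤ K₇ ε' X g(X)`; the difference is the sum over the `q` with `Wv` and not `Wt`, that is
`D ⊆ b`, `q ∉ D`, `nm D ≥ 2^(tb E (bl q))` for some `D`, so `nm b ≥ 2^(tb E (bl q))`; there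
`‖∑_{q₁, q₂} ful₃ (Tt .. q₁ q₂)‖ ≤ |U| Q^|b|` (for each `c, y` at most one pair `q₁, q₂` satisfies `Tt`; all the summands have
norm 1), and `S_TL` applies (its sum is over `q ∈ b`). The number of `(t, s)` is at most `Q²`. So
`(Q-1) G ≤ (1/M) ρ Q F + C ε' X g(X)`, `ρ = |U|/|Λ|`, which gives the constant `ρ Q/(M (Q-1))`. -/
def S_FIN : Prop :=
  C_CNT → Z_LRG → Z_SML → Z_MNS → C_MNB → Z_EX0 → Z_EX2 → Z_EX5 → Z_EX6 → C_SM1 → C_SM2 →
    C_SM3 → C_STJ → R_SM5 → R_SM6 → S_FUL → S_SPL → S_OSZ → S_OSA → S_OSB → S_TL → MT₃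

/-- **S_SDL** (the self-dual and unitary cases). `τ` is an involution or the identity of the finite field `k`,
`Lk η η'` is `η + τ η' ≠ 0`. There are `Cs` and `M` with the properties `M_pos`, `card`, `two` of `Hyp₃`, and with
`M = Q` if `τ = 1` and `p ≠ 2`, `M² = Q` if `τ ≠ 1`.

PROOF. For `t ≠ 0` let `I(t)` be the set of the `s` with `s t + τ(s t) = 0`. (a) `two` holds for `s ∉ I(t)`: if
`s c₁ + τ(t y₁) = 0` then `c₁ ≠ 0 ↔ y₁ ≠ 0`, so both are nonzero, and `t y₁ = -τ(s c₁)` (`τ² = 1`), and the same for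
`c₂, y₂`. `t τ(t) (y₁ c₂ + τ(c₁ y₂)) = τ(t) c₂ (t y₁) + t τ(c₁) τ(t y₂) = -τ(t) c₂ τ(s) τ(c₁) - t τ(c₁) s c₂ =
-τ(c₁) c₂ (τ(s t) + s t) ≠ 0`. (b) If `τ = 1` and `p ≠ 2`, `I(t) = 0` (`2 s t = 0`) and `Cs t = ⊤`, `M = Q`. (c) If
`τ ≠ 1`, let `k₀` be the fixed field of `τ`; `k/k₀` is of degree 2 (Artin), so `|k₀|² = Q`. `s ↦ s t + τ(s t)` is
`k₀`-linear from `k` to `k₀`, not zero (`τ ≠ 1`: if `z + τ z = 0` for all `z` then `z = 1` gives `2 = 0` and `τ z = -z = z`),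
so surjective, and its kernel `I(t)` is a `k₀`-subspace of dimension 1; a complement `Cs t` of it has `|k₀|` elements
(`Submodule.exists_isCompl`). Then `M = |k₀|`. -/
def S_SDL : Prop :=
  ∀ (p : ℕ) [Fact p.Prime] (k : Type) [Field k] [Fintype k] [Algebra (ZMod p) k] (τ : k ≃+* k),
    (∀ z, τ (τ z) = z) → (p = 2 → τ ≠ RingEquiv.refl k) →
  ∃ (Cs : k → AddSubgroup k) (M : ℕ), 0 < M ∧ (∀ t : k, t ≠ 0 → Nat.card (Cs t) = M) ∧
    (τ = RingEquiv.refl k → M = Fintype.card k) ∧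
    (τ ≠ RingEquiv.refl k → M ^ 2 = Fintype.card k) ∧
    ∀ t s c₁ y₁ c₂ y₂ : k, t ≠ 0 → s ∈ Cs t → s ≠ 0 → (c₁ ≠ 0 ∨ y₁ ≠ 0) →
      (c₂ ≠ 0 ∨ y₂ ≠ 0) → ¬ (s * c₁ + τ (t * y₁) ≠ 0) → ¬ (s * c₂ + τ (t * y₂) ≠ 0) →
      c₁ ≠ 0 ∧ y₁ ≠ 0 ∧ y₁ * c₂ + τ (c₁ * y₂) ≠ 0

end Pool.Agent.Helper11.M3
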