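import Pool.Agent.Helper11.M3.Defs4
import Pool.Agent.Helper17.PP0.Goals

/-!
# Project M3 (MP_fc6b1e_nt, step 2): goals for `MT₄`, part 1

Every statement is a `def ... : Prop` with its complete proof in the docstring. `Q = |k|`, `e(z)` is
`exp(-z)` (not to be confused with the label `e q`). In the statements with `∃ K'` the constant `K'` depends on
everything except `E, I, i, i', j, m, t, s, y₁, X, P`. Case (a) and case (b) are the two cases of the field `cas` of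
`Hyp₄`. `ĉ = cutd (bl q) q P₁ t c`, `ŷ = cute (bl q) q P₁ s y₁ y`, `c⁰ = c0 S j c` (`Helper30.PP2.c0`: `c` at the split
primes in the blocks `< j`, otherwise `0`); `ĉ = c⁰` except at `q` and `P₁`.
-/

set_option autoImplicit false

namespace Pool.Agent.Helper11.M3

open Finset Pool.Agent.Helper17.PP Pool.Agent.Helper17.PP0 Pool.Agent.Helper17.PP2

/-- **Q_CNT** (from bad sets to `cnu` and `cnt₅`). Let `Bad₄ b`, `P₁` the pivot of `b`; suppose that every nonzero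
solution `(x, c)` has a prime in the blocks `≥ j₀` in the support of `c`, and that every split prime `q` of `b` in the
blocks `≥ j₀` satisfies `Wt`. Then there is `q ∈ b`, `q ≠ P₁`, with `Wt E b q`, `j₀ ≤ bl q`, `Q - 1 ≤ cnu E b q` and
`Q - 1 ≤ cnt₅ b q P₁`.

PROOF (compare `C_CNT`, `Pool/Agent/Helper28/PP`). Let `(x, c)` be the solution of `Bad₄`, so `c P₁ = 0`, and `q` in the
support of `c` with `bl q` maximal; `q ∈ b` is split, `j₀ ≤ bl q`, `Wt E b q`, `q ≠ P₁`. If `c q' ≠ 0`, `q' ≠ q` then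
`q' ∈ b` is split, `q' ≠ P₁`, `bl q' < bl q` (`Wt.uniq`), so `q' ∈ rs b q` and `q' ∈ rs₄ b q P₁`. For `u ≠ 0` the pair
`(u x, u c)` satisfies all the conditions of `IsPreU`, `IsPre₄` and those at `q` and (if split) at `P₁`; these `Q - 1` pairs
are distinct. -/
def Q_CNT : Prop :=
  ∀ (p : ℕ) [Fact p.Prime] (B B₀ k U Λ C : Type) [Field k] [Fintype k] [Algebra (ZMod p) k]
    [AddCommGroup U] [Module k U] [Fintype U] [AddCommGroup Λ] [Module k Λ]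
    [AddCommGroup C] (S : Sys p B B₀ k U Λ C) (N : B → Prop) (E j₀ : ℕ) (b : Finset B) (P₁ : B),
    Bad₄ S N b → Piv S N b P₁ →
    (∀ (x : U) (c : B → k), S.IsSol b x c → ¬ (x = 0 ∧ c = 0) → ∃ q, c q ≠ 0 ∧ j₀ ≤ S.bl q) →
    (∀ q ∈ b, S.spl q → j₀ ≤ S.bl q → S.Wt E b q) →
  ∃ q, S.Wt E b q ∧ j₀ ≤ S.bl q ∧ q ≠ P₁ ∧ Fintype.card k - 1 ≤ cnu S E b q ∧
    Fintype.card k - 1 ≤ cnt₅ S b q P₁

open Classical in
/-- **Q_FUL** (the expansion of `cnt₅`). Let `q, P₁ ∈ b ⊆ P`, `q ≠ P₁`, `Wv b q`, and let `Y = ⊥` or `P₁` be split. Then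
`cnt₅ b q P₁ ≤ (1/(Q |Y|)) ∑_{t ≠ 0} ∑_s ∑_{y₁ ∈ Y} Re (ful₄ P b q P₁ t s y₁)`.

PROOF (from `C_LAB`; adaptation of `Pool/Agent/Helper86/PP2/RFUL.lean`, see also `S_FUL`). For `t ≠ 0` let `V(t, s, y₁)` be
the sum of `ψ(s R b x c q + y₁ R b x c P₁)` over the `(x, c)`, `c ∈ lab k b`, with `IsPre₄` and `c q = t`. CLAIM:
`V(t, s, y₁) = ful₄ t s y₁ True`. The pairs `(x, c)` with `c q = t` and support in `{q} ∪ rs₄` are the restrictions of
`ĉ` to `b` (`q' ∈ b` split, `≠ q, P₁`, `bl q' < bl q` iff `q' ∈ rs₄`), each one for `|lab k P| Q^(-|rs₄|)` functions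
`c ∈ lab k P` (`C_LAB` (5)); the conditions `lam` and `loc` are detected by `|Λ|⁻¹ ∑_χ` and
`|lab k P|⁻¹ ∑_{y ∈ lab k P} ∏_{q' ∈ sp b q P₁} ψ(y q' R b x ĉ q')` (`sum_ind` of `Helper74/PP/COSC.lean` with
`D = sp b q P₁ ⊆ P`). On `b`, `ŷ` is `s` at `q`, `y₁` at `P₁`, `y` on `sp b q P₁` (by `Wv.uniq` all the primes of `sp` are in
blocks `≠ bl q`), `0` elsewhere, so the product is `ph`.
For `(x, c)` with `IsPre₄`: `∑_s ψ(s R_q) = Q` or `0`, and `∑_{y₁ ∈ Y} ψ(y₁ R_(P₁)) = |Y|` or `0`, `= |Y|` if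
`R_(P₁) = 0` or `Y = ⊥`. If `(x, c)` is counted in `cnt₅` then `R_q = 0`, and `R_(P₁) = 0` or `P₁` is not split, so
`Y = ⊥`. So `1[(x, c) counted] ≤ (1/(Q |Y|)) ∑_s ∑_{y₁ ∈ Y} ψ(s R_q + y₁ R_(P₁))` (a real number). Sum over `(x, c)`. -/
def Q_FUL : Prop :=
  ∀ (p : ℕ) [Fact p.Prime] (B B₀ k U Λ C : Type) [Field k] [Fintype k] [Algebra (ZMod p) k]
    [AddCommGroup U] [Module k U] [Fintype U] [AddCommGroup Λ] [Module k Λ] [Fintype Λ]
    [AddCommGroup C] (S : Sys p B B₀ k U Λ C) (ψ : AddChar k ℂ), ψ ≠ 1 →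
  ∀ (Y : AddSubgroup k) (P b : Finset B) (q P₁ : B), b ⊆ P → Wv S b q → P₁ ∈ b → P₁ ≠ q →
    (Y = ⊥ ∨ S.spl P₁) →
    (cnt₅ S b q P₁ : ℝ) ≤ (1 / (Fintype.card k * Nat.card Y) : ℝ) *
      ∑ t : k with t ≠ 0, ∑ s : k, ∑ y₁ : k with y₁ ∈ Y,
        (ful₄ S ψ P b q P₁ t s y₁ fun _ _ _ ↦ True).re

open Classical in
/-- **Q_SPL** (the four parts of the expansion of the conditions other than those at `q` and `P₁`).

PROOF. It suffices that for all `χ, c, y` exactly one of `FM`, `FA`, `FB i`, `FC i` (`I ≤ i < J`) holds. `D₁`, `D₂` are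
subsets of `b`, so their norms are at most `nm b < 2^J` and `Nat.log 2` of them is `< J`. If `Nat.log 2 (nm D₁) ≥ I` then
exactly one `FB i` holds, and no `FA`, `FC`; `D₁ ≠ ∅` (`Nat.log 2 1 = 0 < I`), so not `FM`. If `Nat.log 2 (nm D₁) < I ≤
Nat.log 2 (nm D₂)` then exactly one `FC i` holds, `D₂ ≠ ∅`, so not `FM`, and not `FA`. If both are `< I`: `FM` or `FA`, not
both. -/
def Q_SPL : Prop :=
  ∀ (p : ℕ) (B B₀ k U Λ C : Type) [Field k] [Fintype k] [Algebra (ZMod p) k]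
    [AddCommGroup U] [Module k U] [Fintype U] [AddCommGroup Λ] [Module k Λ] [Fintype Λ]
    [AddCommGroup C] (S : Sys p B B₀ k U Λ C) (ψ : AddChar k ℂ) (e : B → k) (I J : ℕ)
    (P b : Finset B) (q P₁ : B) (t : k), 1 ≤ I → I ≤ J → S.nm b < 2 ^ J →
    ful₄ S ψ P b q P₁ t 0 0 (fun _ _ _ ↦ True) = ful₄ S ψ P b q P₁ t 0 0 (FM S b q P₁) +
      ful₄ S ψ P b q P₁ t 0 0 (FA S e I b q P₁ t) +
      ∑ i ∈ Ico I J, ful₄ S ψ P b q P₁ t 0 0 (FB S e i b q P₁ t) +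
      ∑ i ∈ Ico I J, ful₄ S ψ P b q P₁ t 0 0 (FC S e I i b q P₁ t)

/-- **Q_MN** (the main part).

PROOF (from `C_LAB`). If `χ = 1` and `y = 0` on `sp b q P₁` then `ŷ = 0` on `b` (`s = y₁ = 0`; a prime of `b` where the third
case of `cute` applies is in `sp`), so `ph = 1`. So `ful₄ = Q^|rs₄| |Λ|⁻¹ |lab k P|⁻² |U| |lab k P| #{y : y = 0 on sp}`,
and by `C_LAB` (4) the last number is `|lab k P| Q^(-|sp|)` (`sp ⊆ b ⊆ P`). `sp b q P₁` is the disjoint union of `rs₄` and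
`ra₄` by `Wv.uniq`. -/
def Q_MN : Prop :=
  ∀ (p : ℕ) (B B₀ k U Λ C : Type) [Field k] [Fintype k] [Algebra (ZMod p) k]
    [AddCommGroup U] [Module k U] [Fintype U] [AddCommGroup Λ] [Module k Λ] [Fintype Λ]
    [AddCommGroup C] (S : Sys p B B₀ k U Λ C) (ψ : AddChar k ℂ)
    (P b : Finset B) (q P₁ : B) (t : k), b ⊆ P → Wv S b q → P₁ ∈ b → P₁ ≠ q →
    ful₄ S ψ P b q P₁ t 0 0 (FM S b q P₁) = (Fintype.card U / Fintype.card Λ : ℂ) *
      (1 / Fintype.card k) ^ (ra₄ S b q P₁).card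

open Classical in
/-- **Q_MNB** (the sum of the main terms for a fixed `b` and a fixed pivot).

PROOF (compare `C_MNB`, `Pool/Agent/Helper61/PP`). Let `W` be the set of the `q ∈ b`, `q ≠ P₁`, with `Wv b q`. Different
elements of `W` are in different blocks. For `q ∈ W` let `h(q)` be the number of the elements of `W` in blocks above the
block of `q`; `h` is injective on `W`, and `h(q) ≤ |ra₄ b q P₁|` (they are split, in `b`, different from `q` and `P₁`). So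
the sum is at most `(Q-1) ∑_{h ≥ 0} Q^(-h) = Q`. -/
def Q_MNB : Prop :=
  ∀ (p : ℕ) (B B₀ k U Λ C : Type) [Field k] [Fintype k]
    [AddCommGroup U] [Module k U] [AddCommGroup Λ] [Module k Λ]
    [AddCommGroup C] (S : Sys p B B₀ k U Λ C) (b : Finset B) (P₁ : B),
    ∑ q ∈ b with (Wv S b q ∧ q ≠ P₁),
      ((Fintype.card k : ℝ) - 1) * (1 / Fintype.card k : ℝ) ^ (ra₄ S b q P₁).card ≤
        Fintype.card k

open Classical in
/-- **Q_PSM** (bound for the small moduli for a fixed `b`).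

PROOF (from `C_LAB`; compare `C_PSM`, `Pool/Agent/Helper79/PP`). Bring the sums over `χ` and `y` outside and fix them; let
`D = {q' ∈ sp b q P₁ : y q' ≠ 0}`. `D` is the disjoint union of `D₁` and `D₂`, so `nm D = nm D₁ nm D₂`, and if `FA` holds for
some `c` then `nm D < 2^(2I)`; and `D ≠ ∅` or `χ ≠ 1`. `ph = χ(lam₀ x + ∑_b lam(ĉ)) ∏_{q' ∈ D} ψ(y q' R b x ĉ q')`. The set of
the `c ∈ lab k P` with `FA` depends only on the restriction of `c` to `D` (`ĉ q'` for `q' ∈ D` depends only on `c q'`).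
CLAIM: if `fU χ D y u ≠ 1` for some `u ∈ U`, or `fB χ D y q'' z ≠ 1` for some `q'' ∈ rs₄ b q P₁`, `q'' ∉ D`, and some `z`,
then the sum of `ph` over `x ∈ U` and over the `c` with `FA` is `0`. Otherwise its norm is at most `|U| |lab k P|`. As
`|Λ| ≥ 1` this gives the result. *Case 1*: `x ↦ x + u` multiplies `ph` by `fU χ D y u`. *Case 2*: let `z'` be the function
with the value `z` at `q''` and `0` elsewhere (in `lab k P`); `c ↦ c + z'` preserves `FA` (`q'' ∉ D`), `ĉ` changes by `z'`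
(`q'' ∈ rs₄`), and `ph` is multiplied by `χ(lam q'' z) ∏_{q' ∈ D} ψ(y q' z a(q', q'')) = fB χ D y q'' z` (`q'' ∈ b.erase q'`
for `q' ∈ D`; `R b x ĉ q'` contains the value of `ĉ` at `q''` only in the first sum). -/
def Q_PSM : Prop :=
  ∀ (p : ℕ) [Fact p.Prime] (B B₀ k U Λ C : Type) [Field k] [Fintype k] [Algebra (ZMod p) k]
    [AddCommGroup U] [Module k U] [Fintype U] [AddCommGroup Λ] [Module k Λ] [Fintype Λ]
    [AddCommGroup C] (S : Sys p B B₀ k U Λ C) (ψ : AddChar k ℂ) (e : B → k)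
    (I : ℕ) (P b : Finset B) (q P₁ : B) (t : k), b ⊆ P → Wv S b q → P₁ ∈ b → P₁ ≠ q →
    ‖ful₄ S ψ P b q P₁ t 0 0 (FA S e I b q P₁ t)‖ ≤
      (Fintype.card U * (Fintype.card k : ℝ) ^ (rs₄ S b q P₁).card / (lab k P).card) *
      ∑ χ : AddChar Λ ℂ, (((lab k P).filter fun y ↦
        (((sp S b q P₁).filter fun q' ↦ y q' ≠ 0).Nonempty ∨ χ ≠ 1) ∧
        S.nm ((sp S b q P₁).filter fun q' ↦ y q' ≠ 0) < 2 ^ (2 * I) ∧
        (∀ x : U, S.fU ψ χ ((sp S b q P₁).filter fun q' ↦ y q' ≠ 0) y x = 1) ∧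
        ∀ q'' ∈ rs₄ S b q P₁, y q'' = 0 → ∀ z : k,
          S.fB ψ χ ((sp S b q P₁).filter fun q' ↦ y q' ≠ 0) y q'' z = 1).card : ℝ)

open Classical in
/-- **Q_SML** (the small moduli, sum over `b`).

PROOF (from `C_LAB`, `C_DEC`, `Q_PSM`, and `sm`, `ht`, `che`, `g_mono`; adaptation of `Z_SML`,
`Pool/Agent/Helper17/PP0/SML.lean`). Let `b, q, P₁` be as in the sum, `y` as in `Q_PSM`, `D` the set of the `q' ∈ sp` with
`y q' ≠ 0`, `r = (b.erase q) \ D` (`P₁ ∈ r`). For `D, χ, y, j` let `f(q'') = 0` if `q''` is split, `bl q'' < j`,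
`bs q'' ≠ bs q'` for all `q' ∈ D`, and `fB ψ χ D y q'' z ≠ 1` for some `z`; otherwise `f(q'') = 1`. Then `f = 1` on `r`: if
`q'' ∈ r` is split, `bl q'' < j` then `q'' ≠ P₁` (in case (a) `q` is a possible pivot, so `j < bl P₁`; in case (b) `P₁` is not
split), so `q'' ∈ rs₄` and `q'' ∉ D`. The number of `y ∈ lab k P` with support `D` on `sp b q P₁` and given on `D` is
`|lab k P| Q^(-|D|) Q^(-|sp \ D|)`, and `rs₄ ⊆ sp`, so exactly as in `C_SML`, for fixed `q, P₁, b`,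
`‖ful₄(FA)‖ ≤ |U| |lab k P|⁻¹ ∑_χ ∑_D Q^|D| ∑_{y ∈ lab k P} 1[y ≠ 0 on D, fU = 1 on U, nm D < 2^(2I), (D, χ) ≠ (∅, 1)]
∏_{q'' ∈ r} f(q'')`, where `D` runs over the subsets of `sp b q P₁`. There is at most one pivot `P₁`, so the sum over `P₁`
can be omitted, and the sum over `D ⊆ sp b q P₁` is at most the sum over the `D ⊆ b.erase q` of split primes with `bs`
injective on `D`. The rest is the proof of `C_SML` with `2I` in the place of `I` (there `Wt.uniq` and `small` are not used,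
and there is no sum over `t`). -/
def Q_SML : Prop :=
  ∀ (p : ℕ) [Fact p.Prime] (B B₀ k U Λ C : Type) [Field k] [Fintype k] [Algebra (ZMod p) k]
    [AddCommGroup U] [Module k U] [Fintype U] [AddCommGroup Λ] [Module k Λ] [Fintype Λ]
    [AddCommGroup C] [Finite C] (S : Sys p B B₀ k U Λ C) (ψ : AddChar k ℂ) (e : B → k)
    (N : B → Prop) (Y : AddSubgroup k) (g : ℝ → ℝ) (K : ℕ), Hyp₄ S ψ e N Y g K →
  ∃ K' : ℕ, ∀ (I j : ℕ) (t : k) (X : ℝ) (P : Finset B), 1 ≤ j → 1 ≤ X →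
    ∑ b ∈ P.powerset with S.Fam b, ∑ q ∈ b with (Wv S b q ∧ S.bl q = j),
      ∑ P₁ ∈ b with (Piv S N b P₁ ∧ P₁ ≠ q),
        ‖ful₄ S ψ P b q P₁ t 0 0 (FA S e I b q P₁ t)‖ * Real.exp (-(S.nm b / X)) ≤
      K' * (2 * I + 2) ^ K' / j * min 1 (X / 2 ^ j) *
        ((max 1 (min j (lg X - (j + 1 + 2 * I))) : ℕ) : ℝ) ^ (-(1 / K : ℝ)) * (X * g X)

open Classical in
/-- **Q_B** (`D₁` large: bilinear sum in `q` and `D₁`).

PROOF (from `C_DEC`, and `bl₁`, `ht`, `che`, `g_mono` of `Hyp₄`; compare `C_LRG`, `Pool/Agent/Helper17/PP0/LRG.lean`, and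
the lemmas `ph_insert`, `ph_congr`, `upto_sum` of `Pool/Agent/Helper30/PP2/ROSA.lean`). Write `b = {q} ∪ D ∪ r`, a disjoint
union, `D = D₁ e b q P₁ t c y`, `r = (b.erase q) \ D`; `P₁ ∈ r`. By `C_DEC` (1), (2) the sum is a sum over `r ⊆ P`,
`D ⊆ P \ r`, `q ∈ P \ (D ∪ r)`, `P₁ ∈ r`. Bring the sums over `x, χ, c, y` outside; fix these, `r`, `P₁ ∈ r`, and the value `ε`
of `e q`.
*Conditions.* They are equivalent to: (1) `q` split, `bl q = j`, `e q = ε`; (2) no split prime of `D ∪ r` is in the block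
`j`; (3) all `q' ∈ D` are split, `y q' ≠ 0`, `c⁰ q' ε ≠ t e q'`, and `Nat.log 2 (nm D) = i`; (4) every split `q' ∈ r`, `q' ≠ P₁`,
has `y q' = 0` or `c⁰ q' ε = t e q'`; (5) `bs` is injective on `D ∪ r` (then on `b`: if `bs q' = bs q` then `q'` is split in
the block `j`); (6) `Piv r P₁`, `m ≤ bl P₁`; in case (a) the primes of `D` are in blocks `< bl P₁` and `j < bl P₁`; in case (b)
nothing else (the primes of `D` and `q` are split, so not in `N`); (7) `cls q + ∑_D cls + ∑_r cls = cl₀`. Only (7) involves both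
`q` and `D` (`q ∉ D` follows from (2), (3)). By (6) `P₁` is determined by `r`.
*Phases.* `ĉ`, `ŷ` are `t`, `0` at `q`, and at the primes of `D ∪ r` they do not depend on `q` (given `j`, `P₁`); on `D`
they are `c⁰`, `y`. By `ph_insert` (`q ∉ D ∪ r`), `ph χ b x ĉ ŷ = ph χ (D ∪ r) x ĉ ŷ · χ(lam q t) ·
∏_{q' ∈ r} ψ(ŷ q' (t a(q', q) + ĉ q' κ(q', q))) · chr ψ D y c⁰ t q`; the first factor depends on `D` and `r`, the second and
third on `q` and `r`.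
*The bilinear form.* `Q^|rs₄ b q P₁| = Q^|rs_j(D)| Q^|rs_j(r \ P₁)|` and `nm b = N q nm D nm r`. Sum over `γ ∈ C` (`cls q = γ`):
we get a factor of norm `≤ Q^|r|` times a sum as in `bl₁` (with `c := c⁰`, `X := X/nm r`), `α` of norm `≤ 1` and
`‖β D‖ ≤ Q^|D|`. Its norm is at most `K 2^(i+j) (i+1)^K 2^(-min(i,j)/K) e(2^(i+j) nm r/(2X))`.
*Summation.* The number of `(x, χ, c, y)` divided by `|Λ| |lab k P|²` is `|U|`; `γ`: `|C|`; `ε`: `Q`; `P₁`: at most 1. By `ht`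
with `f = Q`, `∑_{r ⊆ P} Q^|r| e(nm r/Y') ≤ K Y' min(1,Y') g(Y') exp(∑_{upto Y'} (Q-1)/N q')`, `Y' = 2X/2^(i+j) ≤ X`, and by
`upto_sum` the exponent is `≤ (Q-1) K (1 + log(lg X + 1))`; `2^(i+j) Y' = 2X`, `min(1,Y') ≤ 2 min(1, X/2^(i+j))`. -/
def Q_B : Prop :=
  ∀ (p : ℕ) [Fact p.Prime] (B B₀ k U Λ C : Type) [Field k] [Fintype k] [Algebra (ZMod p) k]
    [AddCommGroup U] [Module k U] [Fintype U] [AddCommGroup Λ] [Module k Λ] [Fintype Λ]
    [AddCommGroup C] [Finite C] (S : Sys p B B₀ k U Λ C) (ψ : AddChar k ℂ) (e : B → k)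
    (N : B → Prop) (Y : AddSubgroup k) (g : ℝ → ℝ) (K : ℕ), Hyp₄ S ψ e N Y g K →
  ∃ K' : ℕ, ∀ (i j m : ℕ) (t : k) (X : ℝ) (P : Finset B), 1 ≤ i → 1 ≤ j → t ≠ 0 → 1 ≤ X →
    ‖∑ b ∈ P.powerset with S.Fam b, ∑ q ∈ b with (Wv S b q ∧ S.bl q = j),
      ∑ P₁ ∈ b with (Piv S N b P₁ ∧ P₁ ≠ q ∧ m ≤ S.bl P₁),
        ful₄ S ψ P b q P₁ t 0 0 (FB S e i b q P₁ t) * (Real.exp (-(S.nm b / X)) : ℂ)‖ ≤
      K' * (lg X + 2) ^ K' * (i + 1) ^ K * (2 : ℝ) ^ (-(min i j : ℝ) / K) *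
        min 1 (X / 2 ^ (i + j)) * (X * g X)

open Classical in
/-- **Q_C** (`D₁` small, `D₂` large: bilinear sum in the pivot `P₁` and `D₂`).

PROOF (from `C_DEC`, and `bl₄`, `ht`, `che`, `g_mono`; compare `Q_B`, `C_LRG`). Write `b = {P₁} ∪ D ∪ r`, a disjoint union,
`D = D₂ e b q P₁ t c y`, `q ∈ r`. Bring the sums over `x, χ, c, y` outside; fix these, `r` and `q ∈ r`; `j = bl q ≥ m`.
*Conditions.* They are equivalent to: (1) `N P₁`, `bl P₁ = i'`, `P₁ ∉ r`, `bs P₁ ∉ bs(r)`; (2) `Wv r q`, `m ≤ j`, `bs` is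
injective on `r`, all the `q' ∈ r` with `N q'` are in blocks `< i'`; every split `q' ∈ r`, `q' ≠ q`, has `y q' = 0` or
`c⁰ q' e q ≠ t e q'`; the norm of the set of those with `y q' ≠ 0` has `Nat.log 2 < I`; (3) all `q' ∈ D` are split, `≠ q`,
`y q' ≠ 0`, `c⁰ q' e q = t e q'`; `Nat.log 2 (nm D) = i`; `bs` is injective on `D ∪ r`; (4) the class condition. In (3)
`c⁰ q' ≠ 0` (`t, e q' ≠ 0`), so `bl q' < j`. In case (a) (2) gives `j < i'` (`N q`), so the primes of `D` are in blocks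
`< i'`; in case (b) they are split and `P₁` is not. So `P₁ ∉ D`, `bs P₁ ∉ bs(D)`, `Piv b P₁`, `Wv b q` follow (in case (a)
`i' ≠ j`; in case (b) `P₁` is not split). Only (4) involves both `P₁` and `D`.
*Phases.* `ĉ P₁ = ŷ P₁ = 0`; by `ph_insert` (`P₁ ∉ D ∪ r`), `ph χ b x ĉ ŷ = ph χ (D ∪ r) x ĉ ŷ ·
∏_{q' ∈ r} ψ(ŷ q' ĉ q' κ(q', P₁)) · ∏_{q' ∈ D} ψ(y q' c⁰ q' κ(q', P₁))`. (`ĉ`, `ŷ` at the primes of `D ∪ r` do not depend on
`P₁`.)
*The bilinear form.* `|rs₄ b q P₁| = |D| + |rs_j(r)|`, `nm b = N P₁ nm D nm r`. For `γ ∈ C` (`cls P₁ = γ`) we get a factor of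
norm `≤ Q^|r|` times a sum as in `bl₄` with `j := i'`, `c := c⁰`, `X := X/nm r`, `‖α‖ ≤ 1`, `‖β D‖ ≤ Q^|D|`.
*Summation.* `|U|` for `(x, χ, c, y)`; `γ`: `|C|`; the number of `q ∈ r` is at most `|r| ≤ Q (1 + 1/Q)^|r|`, so
`∑_{q ∈ r} Q^|r| ≤ Q (Q+1)^|r|`; then `ht` with `f = Q + 1` as in `S_OSB`. -/
def Q_C : Prop :=
  ∀ (p : ℕ) [Fact p.Prime] (B B₀ k U Λ C : Type) [Field k] [Fintype k] [Algebra (ZMod p) k]
    [AddCommGroup U] [Module k U] [Fintype U] [AddCommGroup Λ] [Module k Λ] [Fintype Λ]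
    [AddCommGroup C] [Finite C] (S : Sys p B B₀ k U Λ C) (ψ : AddChar k ℂ) (e : B → k)
    (N : B → Prop) (Y : AddSubgroup k) (g : ℝ → ℝ) (K : ℕ), Hyp₄ S ψ e N Y g K →
  ∃ K' : ℕ, ∀ (I i i' m : ℕ) (t : k) (X : ℝ) (P : Finset B), 1 ≤ i → 1 ≤ i' → t ≠ 0 →
      1 ≤ X →
    ‖∑ b ∈ P.powerset with S.Fam b, ∑ q ∈ b with (Wv S b q ∧ m ≤ S.bl q),
      ∑ P₁ ∈ b with (Piv S N b P₁ ∧ P₁ ≠ q ∧ S.bl P₁ = i'),
        ful₄ S ψ P b q P₁ t 0 0 (FC S e I i b q P₁ t) * (Real.exp (-(S.nm b / X)) : ℂ)‖ ≤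
      K' * (lg X + 2) ^ K' * (i + 1) ^ K * (2 : ℝ) ^ (-(min i i' : ℝ) / K) *
        min 1 (X / 2 ^ (i + i')) * (X * g X)

open Classical in
/-- **Q_D** (the conditions at `q` and at the pivot: bilinear sum in `q` and `P₁`).

PROOF (from `C_DEC`, and `bl₅`, `ht`, `che`, `g_mono`; compare `R_OSA`, `Pool/Agent/Helper30/PP2/ROSA.lean`, and `C_OSB`).
Write `b = {q, P₁} ∪ r` by `C_DEC` (1) twice. Bring the sums over `x, χ, c, y` outside, and fix these and `r`.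
*Conditions.* They are equivalent to: (1) `q` split, `bl q = j`; (2) `N P₁`, `bl P₁ = i`, `bs P₁ ∉ bs(r)`; (3) no split prime
of `r` is in the block `j`, `bs` is injective on `r`, all the `q' ∈ r` with `N q'` are in blocks `< i`; (4) in case (a) `j < i`;
(5) `cls q + cls P₁ + ∑_r cls = cl₀`. (`bs q ∉ bs(r)` follows from (3), `bs q ≠ bs P₁` from (4) or, in case (b), from
`bsS`; in case (b) `P₁` is not split, so `Wv.uniq` holds at `P₁`.) Only (5) involves both `q` and `P₁`.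
*Phases.* `ĉ`, `ŷ` are `t, s` at `q`, `0, y₁` at `P₁`, and on `r` they do not depend on `q`, `P₁` (they are `c⁰`, and `y` at the
split primes). By `ph_insert` twice `ph χ b x ĉ ŷ = ph χ r · A(q) · A₁(P₁) · Φ`, `A`, `A₁` of norm 1 depending on `q, r` and
on `P₁, r`, and `Φ = ψ(s t κ(q, P₁) + y₁ t a(P₁, q))`.
*The bilinear form and the summation* as in `R_OSA` with `bl₅`: `Q^|rs₄ b q P₁| = Q^|rs_j(r)|`, `nm b = N q N P₁ nm r`,
`ht` with `f = Q`. In case (a) the sum is empty if `i = j`, so `bl₅` can be applied with `i ≠ j`. -/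
def Q_D : Prop :=
  ∀ (p : ℕ) [Fact p.Prime] (B B₀ k U Λ C : Type) [Field k] [Fintype k] [Algebra (ZMod p) k]
    [AddCommGroup U] [Module k U] [Fintype U] [AddCommGroup Λ] [Module k Λ] [Fintype Λ]
    [AddCommGroup C] [Finite C] (S : Sys p B B₀ k U Λ C) (ψ : AddChar k ℂ) (e : B → k)
    (N : B → Prop) (Y : AddSubgroup k) (g : ℝ → ℝ) (K : ℕ), Hyp₄ S ψ e N Y g K →
  ∃ K' : ℕ, ∀ (i j : ℕ) (t s y₁ : k) (X : ℝ) (P : Finset B), 1 ≤ i → 1 ≤ j → t ≠ 0 →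
      y₁ ∈ Y → (s ≠ 0 ∨ y₁ ≠ 0) → 1 ≤ X →
    ‖∑ b ∈ P.powerset with S.Fam b, ∑ q ∈ b with (Wv S b q ∧ S.bl q = j),
      ∑ P₁ ∈ b with (Piv S N b P₁ ∧ P₁ ≠ q ∧ S.bl P₁ = i),
        ful₄ S ψ P b q P₁ t s y₁ (fun _ _ _ ↦ True) * (Real.exp (-(S.nm b / X)) : ℂ)‖ ≤
      K' * (lg X + 2) ^ K' * (i + j) ^ K * (2 : ℝ) ^ (-(min i j : ℝ) / K) *
        min 1 (X / 2 ^ (i + j)) * (X * g X)

end Pool.Agent.Helper11.M3
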