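import Pool.Agent.Helper11.M3.GoalsA
import Pool.Agent.Helper42.WY.HypO

/-!
# Project M3 (MP_fc6b1e_nt, step 2): the outputs of the arithmetic side in the form needed by `MOM3X`, `MOM4X`, `MOM4X0`

These are `O_HYP3`, `O_HYP4`, `O_HYP4J` (`Pool/Agent/Helper42/WY/HypO.lean`) for normalised bases (`Nrml B`), and, in the last
two, with `K₁ → M₁` surjective (true for `MOM4X`, `MOM4X0`).
-/

set_option autoImplicit false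

namespace Pool.Agent.Helper11.M3

open NumberField Polynomial Module IsDedekindDomain
open Pool.Agent.Helper51.RP Pool.Agent.Helper42.RD
open Pool.Agent.Helper42.PP (Spl Base)
open Pool.Agent.Helper42.PB (TauF sysB SitB BaseB)
open Pool.Agent.Helper76.PB (NrmInd)
open Pool.Agent.Helper11.PP (Slow)
open Pool.Agent.Helper38.WY (NTV3 SDual)
open Pool.Agent.Helper42.WY (quo Pw2)

/-- **N_HYP3**: `Hyp₃` for `sysB`, `χ₀^(1 + p^j) ≡ ω`, `M = p^(deg P - j)`. -/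
def N_HYP3 : Prop :=
  ∀ (p : ℕ) [Fact p.Prime] (K M K₁ M₁ J M₂ : Type) [Field K]
    [NumberField K] [Field M] [NumberField M] [Field K₁] [NumberField K₁] [IsTotallyComplex K₁]
    [Field M₁] [NumberField M₁] [IsTotallyComplex M₁] [Field J] [NumberField J] [Field M₂]
    [NumberField M₂] [Algebra K M] [Algebra K K₁] [Algebra K M₁] [Algebra M M₁] [Algebra K₁ M₁]
    [Algebra K J] [Algebra K M₂] [Algebra M M₂] [Algebra K₁ M₂] [Algebra M₁ M₂] [Algebra J M₂]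
    (ε : K₁) (δ : M ≃ₐ[K] M) (P : (ZMod p)[X]) [Fact (Irreducible P)] [Fintype (AdjoinRoot P)]
    (a₀ : M₂ˣ), SitB p K M K₁ M₁ J M₂ ε δ P a₀ → NTV3 p M₁ ε δ P →
  ∀ j : ℕ, SDual p M₁ ε δ P j → (j = 0 ∨ P.natDegree = 2 * j) →
  ∀ (B : Base p K M K₁ M₁ ε δ P) (D : BaseB B a₀), Nrml B →
  ∃ (g : ℝ → ℝ) (K₀ : ℝ), Slow g K₀ ∧
  ∀ (n : ℕ) (E : TauF n B) (aτ : K₁ˣ), OmType p K ε (aτ : K₁) → NrmInd E M₂ →
  ∃ (ψ : AddChar (AdjoinRoot P) ℂ) (Lk : AdjoinRoot P → AdjoinRoot P → Prop)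
    (Cs : AdjoinRoot P → AddSubgroup (AdjoinRoot P)) (K' : ℕ),
    Hyp₃ (sysB B E (Spl M₂ B.S) D.s0 aτ) ψ Lk Cs (p ^ (P.natDegree - j)) g K' ∧
  ∃ c X₁ : ℝ, 0 < c ∧ ∀ X : ℝ, X₁ ≤ X → ∃ Q : Finset B.LP, (open Classical in c * (X * g X) ≤
    ∑ b ∈ Q.powerset with (sysB B E (Spl M₂ B.S) D.s0 aτ).Fam b,
      Real.exp (-((sysB B E (Spl M₂ B.S) D.s0 aτ).nm b / X)))

/-- **N_HYP4**: `Hyp₄` for `sysB`, `χ₀ ≡ ω`, `J = K`; the pivot is the top prime. `Y = ⊤` if `χ₀ ≠ 1`. -/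
def N_HYP4 : Prop :=
  ∀ (p : ℕ) [Fact p.Prime], p ≠ 2 → ∀ (K M K₁ M₁ J M₂ : Type) [Field K]
    [NumberField K] [Field M] [NumberField M] [Field K₁] [NumberField K₁] [IsTotallyComplex K₁]
    [Field M₁] [NumberField M₁] [IsTotallyComplex M₁] [Field J] [NumberField J] [Field M₂]
    [NumberField M₂] [Algebra K M] [Algebra K K₁] [Algebra K M₁] [Algebra M M₁] [Algebra K₁ M₁]
    [Algebra K J] [Algebra K M₂] [Algebra M M₂] [Algebra K₁ M₂] [Algebra M₁ M₂] [Algebra J M₂]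
    (ε : K₁) (δ : M ≃ₐ[K] M) (i : ℕ) [Fact (Irreducible (X - C (i : ZMod p)))]
    [Fintype (AdjoinRoot (X - C (i : ZMod p)))] (a₀ : M₂ˣ),
    SitB p K M K₁ M₁ J M₂ ε δ (X - C (i : ZMod p)) a₀ →
    (∃ ε₀ : M, algebraMap M M₂ ε₀ = algebraMap K₁ M₂ ε ∧ δ ε₀ = ε₀ ^ i) →
    (∀ z : M₁, ∃ y : K₁, algebraMap K₁ M₁ y = z) →
    (∀ z : M₂, ∃ y : M, algebraMap M M₂ y = z) →
  ∀ Y : AddSubgroup (AdjoinRoot (X - C (i : ZMod p))),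
    (Y = ⊥ ∨ AdjoinRoot.root (X - C (i : ZMod p)) ≠ 1) →
  ∀ (B : Base p K M K₁ M₁ ε δ (X - C (i : ZMod p))) (D : BaseB B a₀), Nrml B →
  ∃ (g : ℝ → ℝ) (K₀ : ℝ), Slow g K₀ ∧
  ∀ (n : ℕ) (E : TauF n B) (aτ : K₁ˣ), OmType p K ε (aτ : K₁) → NrmInd E M₂ →
  ∃ (ψ : AddChar (AdjoinRoot (X - C (i : ZMod p))) ℂ) (e : B.LP → AdjoinRoot (X - C (i : ZMod p)))
    (K' : ℕ), Hyp₄ (sysB B E (Spl M₂ B.S) D.s0 aτ) ψ e (fun _ => True) Y g K' ∧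
  ∃ c X₁ : ℝ, 0 < c ∧ ∀ X : ℝ, X₁ ≤ X → ∃ Q : Finset B.LP, (open Classical in c * (X * g X) ≤
    ∑ b ∈ Q.powerset with (sysB B E (Spl M₂ B.S) D.s0 aτ).Fam b,
      Real.exp (-((sysB B E (Spl M₂ B.S) D.s0 aτ).nm b / X)))

/-- **N_HYP4J**: `Hyp₄` for the quotient of `sysB` by the line of `b`, `χ₀ ≡ ω`, `J ≠ K`; the pivot is the top prime which is
not split. -/
def N_HYP4J : Prop :=
  ∀ (p : ℕ) [Fact p.Prime], p ≠ 2 → ∀ (K M K₁ M₁ J M₂ : Type) [Field K]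
    [NumberField K] [Field M] [NumberField M] [Field K₁] [NumberField K₁] [IsTotallyComplex K₁]
    [Field M₁] [NumberField M₁] [IsTotallyComplex M₁] [Field J] [NumberField J] [Field M₂]
    [NumberField M₂] [Algebra K M] [Algebra K K₁] [Algebra K M₁] [Algebra M M₁] [Algebra K₁ M₁]
    [Algebra K J] [Algebra K M₂] [Algebra M M₂] [Algebra K₁ M₂] [Algebra M₁ M₂] [Algebra J M₂]
    (ε : K₁) (δ : M ≃ₐ[K] M) (i : ℕ) [Fact (Irreducible (X - C (i : ZMod p)))]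
    [Fintype (AdjoinRoot (X - C (i : ZMod p)))] (a₀ : M₂ˣ),
    SitB p K M K₁ M₁ J M₂ ε δ (X - C (i : ZMod p)) a₀ →
    (∃ ε₀ : M, algebraMap M M₂ ε₀ = algebraMap K₁ M₂ ε ∧ δ ε₀ = ε₀ ^ i) →
    (∀ z : M₁, ∃ y : K₁, algebraMap K₁ M₁ y = z) →
    (∀ z : M₁, ∃ y : M, algebraMap M M₁ y = z) →
    (¬ ∀ z : M₂, ∃ y : M, algebraMap M M₂ y = z) →
  ∀ (B : Base p K M K₁ M₁ ε δ (X - C (i : ZMod p))) (D : BaseB B a₀), Nrml B →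
  ∃ (g : ℝ → ℝ) (K₀ : ℝ), Slow g K₀ ∧
  ∀ (n : ℕ) (E : TauF n B) (aτ : K₁ˣ), OmType p K ε (aτ : K₁) → NrmInd E M₂ →
  ∀ b : Mˣ, Pw p (pol (X - C (i : ZMod p)) δ b) → ¬ Pw p b → Pw2 p M₂ b →
    (∀ x : Mˣ, Pw2 p M₂ x → ∃ (j : ℕ) (z : Mˣ), x = b ^ j * z ^ p) →
  ∀ (h1 : Submodule.span (AdjoinRoot (X - C (i : ZMod p))) {fun i => B.rho i b} ≤
      LinearMap.ker (sysB B E (Spl M₂ B.S) D.s0 aτ).lam₀)
    (h2 : ∀ q, (sysB B E (Spl M₂ B.S) D.s0 aτ).spl q →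
      Submodule.span (AdjoinRoot (X - C (i : ZMod p))) {fun i => B.rho i b} ≤
      LinearMap.ker ((sysB B E (Spl M₂ B.S) D.s0 aτ).res q)),
  ∃ (ψ : AddChar (AdjoinRoot (X - C (i : ZMod p))) ℂ) (e : B.LP → AdjoinRoot (X - C (i : ZMod p)))
    (K' : ℕ), Hyp₄ (quo (sysB B E (Spl M₂ B.S) D.s0 aτ)
      (Submodule.span (AdjoinRoot (X - C (i : ZMod p))) {fun i => B.rho i b}) h1 h2) ψ e
      (fun q => ¬ (sysB B E (Spl M₂ B.S) D.s0 aτ).spl q) ⊥ g K' ∧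
  ∃ c X₁ : ℝ, 0 < c ∧ ∀ X : ℝ, X₁ ≤ X → ∃ Q : Finset B.LP, (open Classical in c * (X * g X) ≤
    ∑ b ∈ Q.powerset with (sysB B E (Spl M₂ B.S) D.s0 aτ).Fam b,
      Real.exp (-((sysB B E (Spl M₂ B.S) D.s0 aτ).nm b / X)))

end Pool.Agent.Helper11.M3
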