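import Pool.Agent.Helper11.M3.GoalsB
import Pool.Agent.Helper11.R.HYP2
import Pool.Agent.Helper76.PB.KUM
import Pool.Agent.Helper42.WY.SELO3

/-!
# Project M3 (MP_fc6b1e_nt, step 2): the analytic hypotheses `Hyp₄`
-/

set_option autoImplicit false
set_option linter.unusedSectionVars false

namespace Pool.Agent.Helper11.M3

open NumberField Polynomial Module IsDedekindDomain
open Pool.Agent.Helper51.RP Pool.Agent.Helper42.RD
open Pool.Agent.Helper77.PPS Pool.Agent.Helper77.PPO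
open Pool.Agent.Helper42.PP (Spl Base)
open Pool.Agent.Helper42.PP1 (SitW NTV)
open Pool.Agent.Helper42.PB (TauF sysB SitB BaseB)
open Pool.Agent.Helper17.PP (Sys)
open Pool.Agent.Helper17.PB
open Pool.Agent.Helper76.PP (psK SmF KumF)
open Pool.Agent.Helper76.PB (NrmInd V_SMN)
open Pool.Agent.Helper11.PP (Slow)
open Pool.Agent.Helper60.PPS (vis_sub)

open Classical in
/-- The parts of `Hyp₄` which do not depend on `U`. -/
theorem core4 (w2 : V_SMN) (hb1 : A_BL1) (hb4 : A_BL4) (hb5 : A_BL5) (hcas : A_CAS) (p : ℕ)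
    [Fact p.Prime]
    (K M K₁ M₁ J M₂ : Type) [Field K]
    [NumberField K] [Field M] [NumberField M] [Field K₁] [NumberField K₁] [IsTotallyComplex K₁]
    [Field M₁] [NumberField M₁] [IsTotallyComplex M₁] [Field J] [NumberField J] [Field M₂]
    [NumberField M₂] [Algebra K M] [Algebra K K₁] [Algebra K M₁] [Algebra M M₁] [Algebra K₁ M₁]
    [Algebra K J] [Algebra K M₂] [Algebra M M₂] [Algebra K₁ M₂] [Algebra M₁ M₂] [Algebra J M₂]
    (ε : K₁) (δ : M ≃ₐ[K] M) (P : (ZMod p)[X]) [Fact (Irreducible P)] [Fintype (AdjoinRoot P)]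
    (a₀ : M₂ˣ) (hB : SitB p K M K₁ M₁ J M₂ ε δ P a₀) (hO : OmS p M₁ ε δ P)
    (B : Base p K M K₁ M₁ ε δ P) (D : BaseB B a₀) (hNr : Nrml B) :
  ∃ (g : ℝ → ℝ) (K₀ : ℝ), Slow g K₀ ∧
  ∀ (n : ℕ) (E : TauF n B) (aτ : K₁ˣ), OmType p K ε (aτ : K₁) → NrmInd E M₂ →
  ∃ (ψ : AddChar (AdjoinRoot P) ℂ) (K' : ℕ),
    HypW (sysB B E (Spl M₂ B.S) D.s0 aτ) ψ g K' ∧
    Bl1F (sysB B E (Spl M₂ B.S) D.s0 aτ) ψ (eL B) K' ∧
    (∀ N, Bl4F (sysB B E (Spl M₂ B.S) D.s0 aτ) ψ N K') ∧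
    (∀ N Y, (Y = ⊥ ∨ (AdjoinRoot.root P ≠ 1 ∧ ∀ q : B.LP, q.1.1 ∈ Spl M₂ B.S)) →
      Bl5F (sysB B E (Spl M₂ B.S) D.s0 aτ) ψ N Y K') ∧
    MerNF (sysB B E (Spl M₂ B.S) D.s0 aτ) (NV B J M₂) K' ∧
    SmF (sysB B E (Spl M₂ B.S) D.s0 aτ) ψ K' ∧
  ∃ c X₁ : ℝ, 0 < c ∧ ∀ X : ℝ, X₁ ≤ X → ∃ Q : Finset B.LP, c * (X * g X) ≤
    ∑ b ∈ Q.powerset with (sysB B E (Spl M₂ B.S) D.s0 aτ).Fam b,
      Real.exp (-((sysB B E (Spl M₂ B.S) D.s0 aτ).nm b / X)) := by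
  have hs := hB.sit
  have := hs.st1
  have := hs.st2
  have := hs.gM
  have := hs.gK
  have := hs.gMK
  have := hB.t1
  have := hB.t2
  have := hB.t3
  have := hB.gM₂
  have t6 : IsScalarTower K K₁ M₂ := IsScalarTower.of_algebraMap_eq fun x ↦ by
    rw [IsScalarTower.algebraMap_apply K M₁ M₂, IsScalarTower.algebraMap_apply K K₁ M₁,
      ← IsScalarTower.algebraMap_apply K₁ M₁ M₂]
  have hV : Spl M₂ B.S ⊆ B.Vis := vis_sub (K₁ := M₁) B.S
  have hdv := Pool.Agent.Helper14.RD.finrank_dvd_pred p K K₁ ε hs.prim hs.gen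
  have hp1 : 1 < p := (Fact.out : p.Prime).one_lt
  have hd0 : 0 < finrank K K₁ := finrank_pos
  set κ : ℝ := ((p : ℝ) - 1) / finrank K K₁ with hκ
  have hκ1 : 1 ≤ κ := by
    rw [hκ, le_div_iff₀ (by exact_mod_cast hd0), one_mul]
    have h : finrank K K₁ ≤ p - 1 := Nat.le_of_dvd (by omega) hdv
    have h' : ((finrank K K₁ : ℕ) : ℝ) ≤ ((p - 1 : ℕ) : ℝ) := by exact_mod_cast h
    rwa [Nat.cast_sub hp1.le, Nat.cast_one] at h'
  obtain ⟨g1, g2, g3, -⟩ := h_g κ hκ1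
  have h2k : (1 : ℝ) ≤ 2 ^ (κ - 1) := Real.one_le_rpow (by norm_num) (by linarith)
  refine ⟨gK κ, 2 ^ (κ - 1), ⟨g1, fun Y X h ↦ ?_, fun X _ ↦ g3 X⟩, ?_⟩
  · calc gK κ Y ≤ gK κ X := g2 Y X h
      _ = 1 * gK κ X := (one_mul _).symm
      _ ≤ 2 ^ (κ - 1) * gK κ X :=
        mul_le_mul_of_nonneg_right h2k (by linarith [g1 X])
  intro n E aτ haτ hN
  obtain ⟨tr, htr⟩ := Pool.Agent.Helper12.PP.kap_tr p P hs.irr
  obtain ⟨ψ₁, hψ₁⟩ := Pool.Agent.Helper12.PP.kap_ex p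
  have hpsK : psK tr ψ₁ ≠ 1 := by
    intro h
    apply one_ne_zero (α := ZMod p)
    apply Pool.Agent.Helper12.PP.kap_psi p ψ₁ hψ₁
    obtain ⟨x, hx⟩ := Pool.Agent.Helper12.PP.kap_surj p P tr htr 1
    have h1 := DFunLike.congr_fun h x
    rw [← hx]
    exact h1
  obtain ⟨Ka, hKa⟩ := sv0B p K M K₁ M₁ M₂ ε δ P B E hdv D.s0 aτ
    ((Fintype.card (AdjoinRoot P) : ℝ) + 4)
  have hSVa := hKa Ka le_rfl
  obtain ⟨Kb, hKb1, hKb⟩ := hb1 p K M K₁ M₁ ε δ P hs hO B hNr n E (Spl M₂ B.S) D.s0 aτ hV tr ψ₁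
    htr hψ₁ Ka hSVa.che
  obtain ⟨Kc, hKc1, hKc⟩ := hb4 p K M K₁ M₁ ε δ P hs hO B n E (Spl M₂ B.S) D.s0 aτ hV tr ψ₁
    htr hψ₁ Ka hSVa.che
  obtain ⟨Kd, hKd1, hKd⟩ := hb5 p K M K₁ M₁ ε δ P hs hO B hNr n E (Spl M₂ B.S) D.s0 aτ hV tr ψ₁
    htr hψ₁ Ka hSVa.che
  obtain ⟨-, Ke, hKe⟩ := hcas p K M K₁ M₁ J M₂ ε δ P a₀ hB hO B D n E aτ
  obtain ⟨Kf, hKf1, hKf⟩ := w2 p K M K₁ M₁ J M₂ ε δ P a₀ hB B D n E hN aτ tr ψ₁ htr hψ₁
  obtain ⟨K', hK'⟩ : ∃ K' : ℕ, K' = Ka + Kb + Kc + Kd + Ke + Kf := ⟨_, rfl⟩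
  have hSV := hKa K' (by omega)
  refine ⟨psK tr ψ₁, K', ?_, hKb K' (by omega), hKc K' (by omega), hKd K' (by omega),
    hKe K' (by omega), hKf K' (by omega), ?_⟩
  · exact
      { one_le := hSV.one_le
        ψ_ne := hpsK
        che := hSV.che
        g_one := hSV.g_one
        g_mono := hSV.g_mono
        ht := hSV.ht
        mers := hSV.mers }
  · obtain ⟨b, hb1, hb2⟩ := fam_ex p K M K₁ M₁ ε δ P hs B
      (sysB B E (Spl M₂ B.S) D.s0 aτ).cl₀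
    exact lowB p K M K₁ M₁ ε δ P B E (Spl M₂ B.S) D.s0 aτ ⟨b, hb1, hb2⟩

/-- `Hyp₄` from its parts. -/
theorem mk4 {p : ℕ} {B B₀ k U Λ C : Type} [Field k] [Fintype k] [Algebra (ZMod p) k]
    [AddCommGroup U] [Module k U] [AddCommGroup Λ] [Module k Λ] [AddCommGroup C]
    (S : Sys p B B₀ k U Λ C) (ψ : AddChar k ℂ) (e : B → k) (N : B → Prop) (Y : AddSubgroup k)
    (g : ℝ → ℝ) (K : ℕ) (h0 : HypW S ψ g K) (he : ∀ q, e q ≠ 0)
    (hc : (∀ q, N q ∧ S.spl q) ∨ ((∀ q, N q → ¬ S.spl q) ∧ Y = ⊥)) (hm : MerNF S N K)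
    (hs : SmF S ψ K) (hk : KumF S) (h1 : Bl1F S ψ e K) (h4 : Bl4F S ψ N K) (h5 : Bl5F S ψ N Y K) :
    Hyp₄ S ψ e N Y g K :=
  { toHypW := h0
    e_ne := he
    cas := hc
    merN := hm
    sm := by
      unfold SmF at hs
      intro D y χ n hn hD hinj hne hx
      have h' := hs D y χ n hn hD hinj hne hx
      convert h' using 2
      ext q
      simp only [Finset.mem_filter]
    kum := hk
    bl₁ := h1
    bl₄ := h4
    bl₅ := h5 }

theorem eL_ne {p : ℕ} [Fact p.Prime] {K M K₁ M₁ : Type} [Field K] [NumberField K] [Field M]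
    [NumberField M] [Field K₁] [NumberField K₁] [Field M₁] [NumberField M₁] [Algebra K M]
    [Algebra K K₁] [Algebra K M₁] [Algebra M M₁] [Algebra K₁ M₁] {ε : K₁} {δ : M ≃ₐ[K] M}
    {P : (ZMod p)[X]} [Fact (Irreducible P)] (B : Base p K M K₁ M₁ ε δ P) (q : B.LP) :
    eL B q ≠ 0 := by
  unfold eL
  rw [Ne, map_eq_zero_iff _ (algebraMap (ZMod p) (AdjoinRoot P)).injective]
  exact q.1.2.ne_zero

/-- There are split primes. -/
theorem ex_spl {p : ℕ} {B B₀ k U Λ C : Type} [Field k] [Fintype k] [Algebra (ZMod p) k]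
    [AddCommGroup U] [Module k U] [AddCommGroup Λ] [Module k Λ] [AddCommGroup C]
    (S : Sys p B B₀ k U Λ C) (ψ : AddChar k ℂ) (g : ℝ → ℝ) (K : ℕ) (h0 : HypW S ψ g K) :
    ∃ q, S.spl q := by
  classical
  by_contra hno
  push Not at hno
  obtain ⟨n, hn⟩ := exists_nat_gt (Real.exp ((K : ℝ) * K))
  have hK : (1 : ℝ) ≤ K := by exact_mod_cast h0.one_le
  have hn1 : 1 ≤ n := by
    have h1 : (0 : ℝ) < n := (Real.exp_pos _).trans hn
    exact_mod_cast h1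
  have h2 := h0.mers 1 n le_rfl hn1
  rw [Finset.sum_eq_zero] at h2
  · have h3 : (K : ℝ) * K < Real.log n := by
      rw [Real.lt_log_iff_exp_lt ((Real.exp_pos _).trans hn)]
      exact hn
    rw [Nat.cast_one, div_one] at h2
    have h4 : (1 / K : ℝ) * (K * K) < (1 / K : ℝ) * Real.log n := by
      have : (0 : ℝ) < 1 / K := by positivity
      exact mul_lt_mul_of_pos_left h3 this
    have h5 : (1 / K : ℝ) * (K * K) = K := by field_simp
    linarith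
  · intro q hq
    exact absurd (Finset.mem_filter.1 hq).2.1 (hno q)

section sit

variable {p : ℕ} [hpF : Fact p.Prime] {K M K₁ M₁ J M₂ : Type} [Field K] [NumberField K] [Field M]
    [NumberField M] [Field K₁] [NumberField K₁] [Field M₁] [NumberField M₁] [Field J]
    [NumberField J] [Field M₂] [NumberField M₂] [Algebra K M] [Algebra K K₁] [Algebra K M₁]
    [Algebra M M₁] [Algebra K₁ M₁] [Algebra K J] [Algebra K M₂] [Algebra M M₂] [Algebra K₁ M₂]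
    [Algebra M₁ M₂] [Algebra J M₂] {ε : K₁} {δ : M ≃ₐ[K] M} {P : (ZMod p)[X]} {a₀ : M₂ˣ}

theorem finrank_one {F E : Type} [Field F] [Field E] [Algebra F E]
    (h : ∀ z : E, ∃ y : F, algebraMap F E y = z) : finrank F E = 1 := by
  rw [finrank_eq_one_iff_of_nonzero' (1 : E) one_ne_zero]
  intro z
  obtain ⟨y, hy⟩ := h z
  exact ⟨y, by rw [Algebra.smul_def, mul_one, hy]⟩

/-- `OmS` from the hypotheses of `N_HYP4`. -/
theorem oms_of (hOMS : A_OMS) (hp2 : p ≠ 2) {i : ℕ} {a₀ : M₂ˣ}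
    (hB : SitB p K M K₁ M₁ J M₂ ε δ (X - C (i : ZMod p)) a₀)
    (he : ∃ ε₀ : M, algebraMap M M₂ ε₀ = algebraMap K₁ M₂ ε ∧ δ ε₀ = ε₀ ^ i)
    (hK : ∀ z : M₁, ∃ y : K₁, algebraMap K₁ M₁ y = z) : OmS p M₁ ε δ (X - C (i : ZMod p)) := by
  have := hB.t2
  have := hB.t3
  obtain ⟨ε₀, h1, h2⟩ := he
  refine hOMS p K M K₁ M₁ ε δ _ hB.sit hp2 (finrank_one hK) i ε₀ rfl ?_ h2
  apply (algebraMap M₁ M₂).injective
  rw [← IsScalarTower.algebraMap_apply M M₁ M₂, ← IsScalarTower.algebraMap_apply K₁ M₁ M₂, h1]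

/-- `J = K` if `M → M₂` is surjective. -/
theorem finJ_one (hB : SitB p K M K₁ M₁ J M₂ ε δ P a₀)
    (hM : ∀ z : M₂, ∃ y : M, algebraMap M M₂ y = z) : finrank K J = 1 := by
  have := hB.sit.st1
  have := hB.t1
  have := hB.t2
  have := hB.t4
  have htM : IsScalarTower K M M₂ := IsScalarTower.of_algebraMap_eq fun x => by
    rw [IsScalarTower.algebraMap_apply K M₁ M₂, IsScalarTower.algebraMap_apply K M M₁,
      ← IsScalarTower.algebraMap_apply M M₁ M₂]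
  obtain ⟨l, hl⟩ := hB.degJ
  have h1 : finrank K M * finrank M M₂ = finrank K M₂ := finrank_mul_finrank K M M₂
  rw [finrank_one hM, mul_one] at h1
  have h2 : finrank K J ∣ finrank K M₂ := ⟨_, (finrank_mul_finrank K J M₂).symm⟩
  rw [← h1] at h2
  have h3 : (finrank K J).Coprime p := Nat.Coprime.coprime_dvd_left h2 hB.sit.copm
  rcases Nat.eq_zero_or_pos l with rfl | h4
  · rw [hl, pow_zero]
  · rw [hl] at h3
    exact absurd (Nat.Coprime.eq_one_of_dvd h3.symm (dvd_pow_self p h4.ne')) hpF.out.ne_one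

/-- `J ≠ K` if `M → M₂` is not surjective. -/
theorem finJ_ne (hB : SitB p K M K₁ M₁ J M₂ ε δ P a₀)
    (hM₁ : ∀ z : M₁, ∃ y : M, algebraMap M M₁ y = z)
    (hM : ¬ ∀ z : M₂, ∃ y : M, algebraMap M M₂ y = z) : finrank K J ≠ 1 := by
  intro h
  apply hM
  have := hB.t1
  have := hB.t2
  have := hB.gM₂
  have hJ : ∀ x : J, ∃ y : K, algebraMap K J y = x := by
    intro x
    obtain ⟨c, hc⟩ := (finrank_eq_one_iff_of_nonzero' (1 : J) one_ne_zero).1 h x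
    exact ⟨c, by rw [← hc, Algebra.smul_def, mul_one]⟩
  have hG : IsGalois M₁ M₂ := IsGalois.tower_top_of_isGalois K M₁ M₂
  have hfd : FiniteDimensional M₁ M₂ := Module.Finite.of_restrictScalars_finite K M₁ M₂
  have := hB.t4
  intro z
  have hz : z ∈ Set.range (algebraMap M₁ M₂) := by
    rw [IsGalois.mem_range_algebraMap_iff_fixed]
    intro g
    have hg : g.restrictScalars K = 1 := by
      refine hB.lin₂ _ (fun x => g.commutes x) fun x => ?_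
      obtain ⟨y, rfl⟩ := hJ x
      rw [← IsScalarTower.algebraMap_apply K J M₂]
      exact (g.restrictScalars K).commutes y
    have h1 := congrArg (fun f : M₂ ≃ₐ[K] M₂ => f z) hg
    exact h1
  obtain ⟨x, rfl⟩ := hz
  obtain ⟨y, rfl⟩ := hM₁ x
  exact ⟨y, by rw [IsScalarTower.algebraMap_apply M M₁ M₂]⟩

theorem rho_pow (B : Base p K M K₁ M₁ ε δ P) (i : Fin B.r) (x : Mˣ) (k : ℕ) :
    B.rho i (x ^ k) = (k : AdjoinRoot P) * B.rho i x :=
  Pool.Agent.Helper42.WY.hom_npow (B.rhoP i).1 x k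

theorem zt_le [Fact (Irreducible P)] (B : Base p K M K₁ M₁ ε δ P)
    (Z : Submodule (AdjoinRoot P) (Fin B.r → AdjoinRoot P))
    (h : ∀ y : Mˣ, Pool.Agent.Helper42.WY.Pw2 p M₂ y → (fun i => B.rho i y) ∈ Z) :
    Zt B M₂ ≤ Z := by
  unfold Zt
  rw [Submodule.span_le]
  rintro x ⟨y, -, -, h1, h2⟩
  have h3 : x = fun i => B.rho i y := by
    funext i
    exact (h2 i).symm
  rw [h3]
  exact h y h1

theorem rho_natp [Fact (Irreducible P)] (B : Base p K M K₁ M₁ ε δ P) (i : Fin B.r) (x : Mˣ) :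
    B.rho i (x ^ p) = 0 := by
  rw [rho_pow]
  have : CharP (AdjoinRoot P) p := charP_of_injective_algebraMap
    (algebraMap (ZMod p) (AdjoinRoot P)).injective p
  rw [CharP.cast_eq_zero, zero_mul]

end sit

/-- **N_HYP4**. -/
theorem n_hyp4 (w2 : V_SMN) (hb1 : A_BL1) (hb4 : A_BL4) (hb5 : A_BL5) (hcas : A_CAS)
    (hkum : A_KUM) (hOMS : A_OMS) : N_HYP4 := by
  classical
  intro p hpF hp2 K M K₁ M₁ J M₂ _ _ _ _ _ _ _ _ _ _ _ _ _ _ _ _ _ _ _ _ _ _ _ _ _ ε δ i hirr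
    hfin a₀ hB he hK hM Y hY B D hNr
  have hO := oms_of hOMS hp2 hB he hK
  have hJ := finJ_one hB hM
  obtain ⟨g, K₀, hslow, hcore⟩ := core4 w2 hb1 hb4 hb5 hcas p K M K₁ M₁ J M₂ ε δ _ a₀ hB hO B D hNr
  refine ⟨g, K₀, hslow, fun n E aτ haτ hN => ?_⟩
  obtain ⟨ψ, K', h1, h2, h3, h4, h5, h6, h7⟩ := hcore n E aτ haτ hN
  have hNV : NV B J M₂ = fun _ => True := by
    funext q
    exact propext ⟨fun _ => trivial, fun _ => Or.inl hJ⟩
  have hspl : ∀ q : B.LP, q.1.1 ∈ Spl M₂ B.S := by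
    obtain ⟨h8, -⟩ := hcas p K M K₁ M₁ J M₂ ε δ _ a₀ hB hO B D n E aτ
    rcases h8 with h8 | ⟨h8, -⟩
    · exact fun q => (h8 q).2
    · obtain ⟨q, hq⟩ := ex_spl _ ψ g K' h1
      exact absurd hq (h8 q (Or.inl hJ))
  refine ⟨ψ, eL B, K', ?_, h7⟩
  rw [hNV] at h5
  refine mk4 _ ψ (eL B) _ Y g K' h1 (eL_ne B) (Or.inl fun q => ⟨trivial, hspl q⟩) h5 h6 ?_ h2
    (h3 _) (h4 _ Y ?_)
  · -- kum
    have hzt : (⊤ : Submodule (AdjoinRoot (X - C (i : ZMod p)))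
        (Fin B.r → AdjoinRoot (X - C (i : ZMod p)))) ⊓ Zt B M₂ = ⊥ := by
      rw [top_inf_eq, eq_bot_iff]
      refine zt_le B ⊥ fun y hy => ?_
      obtain ⟨w, hw⟩ := hy
      obtain ⟨z, rfl⟩ := hM w
      rw [← map_pow] at hw
      have h9 : z ^ p = (y : M) := (algebraMap M M₂).injective hw
      have hz0 : z ≠ 0 := by
        rintro rfl
        rw [zero_pow hpF.out.ne_zero] at h9
        exact y.ne_zero h9.symm
      have h10 : y = (Units.mk0 z hz0) ^ p := by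
        ext
        rw [Units.val_pow_eq_pow_val, Units.val_mk0, h9]
      rw [Submodule.mem_bot]
      funext j
      rw [h10]
      exact rho_natp B j _
    have hk := hkum p K M K₁ M₁ J M₂ ε δ _ a₀ hB B D n E aτ ⊤ hzt
    intro x c hc hinj hne
    refine hk ⟨x, trivial⟩ c hc hinj ?_
    rintro ⟨h8, h9⟩
    exact hne ⟨congrArg Subtype.val h8, h9⟩
  · rcases hY with h | h
    · exact Or.inl h
    · exact Or.inr ⟨h, hspl⟩

/-- **N_HYP4J**. -/
theorem n_hyp4j (w2 : V_SMN) (hb1 : A_BL1) (hb4 : A_BL4) (hb5 : A_BL5) (hcas : A_CAS)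
    (hkum : A_KUM) (hOMS : A_OMS) : N_HYP4J := by
  classical
  intro p hpF hp2 K M K₁ M₁ J M₂ _ _ _ _ _ _ _ _ _ _ _ _ _ _ _ _ _ _ _ _ _ _ _ _ _ ε δ i hirr
    hfin a₀ hB he hK hM₁ hM B D hNr
  have hO := oms_of hOMS hp2 hB he hK
  have hJ := finJ_ne hB hM₁ hM
  obtain ⟨g, K₀, hslow, hcore⟩ := core4 w2 hb1 hb4 hb5 hcas p K M K₁ M₁ J M₂ ε δ _ a₀ hB hO B D hNr
  refine ⟨g, K₀, hslow, fun n E aτ haτ hN b hbP hb hb2 hbu h1' h2' => ?_⟩
  obtain ⟨ψ, K', h1, h2, h3, h4, h5, h6, h7⟩ := hcore n E aτ haτ hN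
  have hNV : NV B J M₂ = fun q => ¬ (sysB B E (Spl M₂ B.S) D.s0 aτ).spl q := by
    funext q
    exact propext ⟨fun h => h.resolve_left hJ, fun h => Or.inr h⟩
  rw [hNV] at h5
  refine ⟨ψ, eL B, K', ?_, h7⟩
  refine mk4 _ ψ (eL B) _ ⊥ g K' ?_ (eL_ne B) (Or.inr ⟨fun q hq => hq, rfl⟩) h5 ?_ ?_ h2
    (h3 _) (h4 _ ⊥ (Or.inl rfl))
  · exact
      { one_le := h1.one_le
        ψ_ne := h1.ψ_ne
        che := h1.che
        g_one := h1.g_one
        g_mono := h1.g_mono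
        ht := h1.ht
        mers := h1.mers }
  · -- sm
    intro D' y χ m hm hD' hinj hne hx
    refine h6 D' y χ m hm hD' hinj hne fun x => ?_
    rw [← Pool.Agent.Helper42.WY.quo_fU _ _ h1' h2' ψ χ D' (fun q hq => (hD' q hq).1) y x]
    exact hx _
  · -- kum
    obtain ⟨W, hW⟩ := Submodule.exists_isCompl
      (Submodule.span (AdjoinRoot (X - C (i : ZMod p))) {fun j => B.rho j b})
    have hzt : W ⊓ Zt B M₂ = ⊥ := by
      rw [eq_bot_iff]
      refine le_trans (inf_le_inf_left W (zt_le B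
        (Submodule.span (AdjoinRoot (X - C (i : ZMod p))) {fun j => B.rho j b})
        fun y hy => ?_)) ?_
      · obtain ⟨j, z, hz⟩ := hbu y hy
        have h8 : (fun k => B.rho k y) = (j : AdjoinRoot (X - C (i : ZMod p))) •
            fun k => B.rho k b := by
          funext k
          rw [hz, (B.rhoP k).1, rho_pow, rho_natp, add_zero]
          rfl
        rw [h8]
        exact Submodule.smul_mem _ _ (Submodule.mem_span_singleton_self _)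
      · rw [inf_comm, hW.inf_eq_bot]
    have hk := hkum p K M K₁ M₁ J M₂ ε δ _ a₀ hB B D n E aτ W hzt
    intro x c hc hinj hne T
    obtain ⟨u, hu, z, hz, huz⟩ : ∃ u ∈ Submodule.span (AdjoinRoot (X - C (i : ZMod p)))
        {fun j => B.rho j b}, ∃ z ∈ W, Submodule.Quotient.mk (u + z) = x := by
      obtain ⟨v, rfl⟩ := Submodule.Quotient.mk_surjective _ x
      have h8 : v ∈ Submodule.span (AdjoinRoot (X - C (i : ZMod p))) {fun j => B.rho j b} ⊔ W := by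
        rw [hW.sup_eq_top]
        trivial
      obtain ⟨u, hu, z, hz, rfl⟩ := Submodule.mem_sup.1 h8
      exact ⟨u, hu, z, hz, rfl⟩
    have hxz : x = Submodule.mkQ _ z := by
      rw [← huz, Submodule.mkQ_apply, Submodule.Quotient.mk_add,
        (Submodule.Quotient.mk_eq_zero _).2 hu, zero_add]
    obtain ⟨m, hm⟩ := hk ⟨z, hz⟩ c hc hinj (by
      rintro ⟨h8, h9⟩
      refine hne ⟨?_, h9⟩
      have h10 : z = 0 := congrArg Subtype.val h8
      rw [hxz, h10, map_zero]) T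
    refine ⟨m, hm.trans (le_of_eq ?_)⟩
    refine Finset.sum_congr ?_ fun _ _ => rfl
    ext q
    rw [Finset.mem_filter, Finset.mem_filter]
    refine and_congr_right fun _ => and_congr_right fun hq => and_congr_right fun _ => ?_
    rw [hxz, Pool.Agent.Helper42.WY.quo_res _ _ h1' h2' hq]
    exact Iff.rfl

end Pool.Agent.Helper11.M3
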