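import Pool.Agent.Helper11.M3.HYP4

/-!
# Project M3 (MP_fc6b1e_nt, step 2): the analytic hypotheses `Hyp₄`
-/

set_option autoImplicit false
set_option linter.unusedSectionVars false

namespace Pool.Agent.Helper11.M3

open NumberField Polynomial Module IsDedekindDomain
open Pool.Agent.Helper51.RP Pool.Agent.Helper42.RD
open Pool.Agent.Helper77.PPS Pool.Agent.Helper77.PPO
open Pool.Agent.Helper42.PP (Spl Base)
open Pool.Agent.Helper42.PP1 (SitW NTV)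
open Pool.Agent.Helper42.PB (TauF sysB SitB BaseB)
open Pool.Agent.Helper17.PP (Sys)
open Pool.Agent.Helper17.PB
open Pool.Agent.Helper76.PP (psK SmF KumF)
open Pool.Agent.Helper76.PB (NrmInd V_SMN)
open Pool.Agent.Helper11.PP (Slow)
open Pool.Agent.Helper60.PPS (vis_sub)

open Classical in
/-- The parts of `Hyp₄` which do not depend on `U`. -/
theorem core5 (hb1 : A_BL1) (hb4 : A_BL4) (hb5 : A_BL5) (hcas : A_CAS) (p : ℕ)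
    [Fact p.Prime]
    (K M K₁ M₁ J M₂ : Type) [Field K]
    [NumberField K] [Field M] [NumberField M] [Field K₁] [NumberField K₁] [IsTotallyComplex K₁]
    [Field M₁] [NumberField M₁] [IsTotallyComplex M₁] [Field J] [NumberField J] [Field M₂]
    [NumberField M₂] [Algebra K M] [Algebra K K₁] [Algebra K M₁] [Algebra M M₁] [Algebra K₁ M₁]
    [Algebra K J] [Algebra K M₂] [Algebra M M₂] [Algebra K₁ M₂] [Algebra M₁ M₂] [Algebra J M₂]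
    (ε : K₁) (δ : M ≃ₐ[K] M) (P : (ZMod p)[X]) [Fact (Irreducible P)] [Fintype (AdjoinRoot P)]
    (a₀ : M₂ˣ) (hB : SitB p K M K₁ M₁ J M₂ ε δ P a₀) (hO : OmS p M₁ ε δ P)
    (B : Base p K M K₁ M₁ ε δ P) (D : BaseB B a₀) (hNr : Nrml B) :
  ∃ (g : ℝ → ℝ) (K₀ : ℝ), Slow g K₀ ∧
  ∀ (n : ℕ) (E : TauF n B) (aτ : K₁ˣ), OmType p K ε (aτ : K₁) → NrmInd E M₂ →
  ∃ (tr : AdjoinRoot P →ₗ[ZMod p] ZMod p) (ψ₁ : AddChar (ZMod p) ℂ) (K₂ : ℕ), tr ≠ 0 ∧ ψ₁ ≠ 1 ∧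
    (∀ K' : ℕ, K₂ ≤ K' → HypW (sysB B E (Spl M₂ B.S) D.s0 aτ) (psK tr ψ₁) g K' ∧
    Bl1F (sysB B E (Spl M₂ B.S) D.s0 aτ) (psK tr ψ₁) (eL B) K' ∧
    (∀ N, Bl4F (sysB B E (Spl M₂ B.S) D.s0 aτ) (psK tr ψ₁) N K') ∧
    (∀ N Y, (Y = ⊥ ∨ (AdjoinRoot.root P ≠ 1 ∧ ∀ q : B.LP, q.1.1 ∈ Spl M₂ B.S)) →
      Bl5F (sysB B E (Spl M₂ B.S) D.s0 aτ) (psK tr ψ₁) N Y K') ∧
    MerNF (sysB B E (Spl M₂ B.S) D.s0 aτ) (NV B J M₂) K') ∧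
  ∃ c X₁ : ℝ, 0 < c ∧ ∀ X : ℝ, X₁ ≤ X → ∃ Q : Finset B.LP, c * (X * g X) ≤
    ∑ b ∈ Q.powerset with (sysB B E (Spl M₂ B.S) D.s0 aτ).Fam b,
      Real.exp (-((sysB B E (Spl M₂ B.S) D.s0 aτ).nm b / X)) := by
  have hs := hB.sit
  have := hs.st1
  have := hs.st2
  have := hs.gM
  have := hs.gK
  have := hs.gMK
  have := hB.t1
  have := hB.t2
  have := hB.t3
  have := hB.gM₂
  have t6 : IsScalarTower K K₁ M₂ := IsScalarTower.of_algebraMap_eq fun x ↦ by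
    rw [IsScalarTower.algebraMap_apply K M₁ M₂, IsScalarTower.algebraMap_apply K K₁ M₁,
      ← IsScalarTower.algebraMap_apply K₁ M₁ M₂]
  have hV : Spl M₂ B.S ⊆ B.Vis := vis_sub (K₁ := M₁) B.S
  have hdv := Pool.Agent.Helper14.RD.finrank_dvd_pred p K K₁ ε hs.prim hs.gen
  have hp1 : 1 < p := (Fact.out : p.Prime).one_lt
  have hd0 : 0 < finrank K K₁ := finrank_pos
  set κ : ℝ := ((p : ℝ) - 1) / finrank K K₁ with hκ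
  have hκ1 : 1 ≤ κ := by
    rw [hκ, le_div_iff₀ (by exact_mod_cast hd0), one_mul]
    have h : finrank K K₁ ≤ p - 1 := Nat.le_of_dvd (by omega) hdv
    have h' : ((finrank K K₁ : ℕ) : ℝ) ≤ ((p - 1 : ℕ) : ℝ) := by exact_mod_cast h
    rwa [Nat.cast_sub hp1.le, Nat.cast_one] at h'
  obtain ⟨g1, g2, g3, -⟩ := h_g κ hκ1
  have h2k : (1 : ℝ) ≤ 2 ^ (κ - 1) := Real.one_le_rpow (by norm_num) (by linarith)
  refine ⟨gK κ, 2 ^ (κ - 1), ⟨g1, fun Y X h ↦ ?_, fun X _ ↦ g3 X⟩, ?_⟩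
  · calc gK κ Y ≤ gK κ X := g2 Y X h
      _ = 1 * gK κ X := (one_mul _).symm
      _ ≤ 2 ^ (κ - 1) * gK κ X :=
        mul_le_mul_of_nonneg_right h2k (by linarith [g1 X])
  intro n E aτ haτ hN
  obtain ⟨tr, htr⟩ := Pool.Agent.Helper12.PP.kap_tr p P hs.irr
  obtain ⟨ψ₁, hψ₁⟩ := Pool.Agent.Helper12.PP.kap_ex p
  have hpsK : psK tr ψ₁ ≠ 1 := by
    intro h
    apply one_ne_zero (α := ZMod p)
    apply Pool.Agent.Helper12.PP.kap_psi p ψ₁ hψ₁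
    obtain ⟨x, hx⟩ := Pool.Agent.Helper12.PP.kap_surj p P tr htr 1
    have h1 := DFunLike.congr_fun h x
    rw [← hx]
    exact h1
  obtain ⟨Ka, hKa⟩ := sv0B p K M K₁ M₁ M₂ ε δ P B E hdv D.s0 aτ
    ((Fintype.card (AdjoinRoot P) : ℝ) + 4)
  have hSVa := hKa Ka le_rfl
  obtain ⟨Kb, hKb1, hKb⟩ := hb1 p K M K₁ M₁ ε δ P hs hO B hNr n E (Spl M₂ B.S) D.s0 aτ hV tr ψ₁
    htr hψ₁ Ka hSVa.che
  obtain ⟨Kc, hKc1, hKc⟩ := hb4 p K M K₁ M₁ ε δ P hs hO B n E (Spl M₂ B.S) D.s0 aτ hV tr ψ₁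
    htr hψ₁ Ka hSVa.che
  obtain ⟨Kd, hKd1, hKd⟩ := hb5 p K M K₁ M₁ ε δ P hs hO B hNr n E (Spl M₂ B.S) D.s0 aτ hV tr ψ₁
    htr hψ₁ Ka hSVa.che
  obtain ⟨-, Ke, hKe⟩ := hcas p K M K₁ M₁ J M₂ ε δ P a₀ hB hO B D n E aτ
  refine ⟨tr, ψ₁, Ka + Kb + Kc + Kd + Ke, htr, hψ₁, fun K' hK' => ?_, ?_⟩
  · have hSV := hKa K' (by omega)
    refine ⟨?_, hKb K' (by omega), hKc K' (by omega), hKd K' (by omega), hKe K' (by omega)⟩
    exact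
      { one_le := hSV.one_le
        ψ_ne := hpsK
        che := hSV.che
        g_one := hSV.g_one
        g_mono := hSV.g_mono
        ht := hSV.ht
        mers := hSV.mers }
  · obtain ⟨b, hb1, hb2⟩ := fam_ex p K M K₁ M₁ ε δ P hs B
      (sysB B E (Spl M₂ B.S) D.s0 aτ).cl₀
    exact lowB p K M K₁ M₁ ε δ P B E (Spl M₂ B.S) D.s0 aτ ⟨b, hb1, hb2⟩

/-- **A_HYP4**. -/
theorem a_hyp4 (hb1 : A_BL1) (hb4 : A_BL4) (hb5 : A_BL5) (hcas : A_CAS) (hkum : A_KUM)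
    (hsmo : A_SMO) : A_HYP4 := by
  classical
  intro p hpF K M K₁ M₁ J M₂ _ _ _ _ _ _ _ _ _ _ _ _ _ _ _ _ _ _ _ _ _ _ _ _ _ ε δ P hirr hfin a₀
    hB hO B D hNr
  obtain ⟨g, K₀, hslow, hcore⟩ := core5 hb1 hb4 hb5 hcas p K M K₁ M₁ J M₂ ε δ P a₀ hB hO B D hNr
  refine ⟨g, K₀, hslow, fun n E aτ haτ hN hZK W hW => ?_⟩
  obtain ⟨tr, ψ₁, K₂, htr, hψ₁, hf, hlow⟩ := hcore n E aτ haτ hN
  obtain ⟨Ks, hKs1, hKs⟩ := hsmo p K M K₁ M₁ J M₂ ε δ P a₀ hB B D n E hN hZK aτ tr ψ₁ htr hψ₁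
  obtain ⟨hc, -⟩ := hcas p K M K₁ M₁ J M₂ ε δ P a₀ hB hO B D n E aτ
  obtain ⟨h1, h2, h3, h4, h5⟩ := hf (K₂ + Ks) (by omega)
  refine ⟨psK tr ψ₁, K₂ + Ks, ?_, hlow⟩
  refine mk4 _ _ (eL B) _ (YG P K J) g (K₂ + Ks) ?_ (eL_ne B) hc h5
    (hKs (K₂ + Ks) (by omega) W hW.sup_eq_top)
    (hkum p K M K₁ M₁ J M₂ ε δ P a₀ hB B D n E aτ W hW.inf_eq_bot) h2 (h3 _) (h4 _ _ ?_)
  · exact
      { one_le := h1.one_le
        ψ_ne := h1.ψ_ne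
        che := h1.che
        g_one := h1.g_one
        g_mono := h1.g_mono
        ht := h1.ht
        mers := h1.mers }
  · unfold YG
    split_ifs with h
    · right
      refine ⟨h.2, ?_⟩
      rcases hc with h8 | ⟨h8, -⟩
      · exact fun q => (h8 q).2
      · obtain ⟨q, hq⟩ := ex_spl _ _ g _ h1
        exact absurd hq (h8 q (Or.inl h.1))
    · exact Or.inl rfl

end Pool.Agent.Helper11.M3
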