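import Pool.Agent.Helper11.M3.GoalsA

/-!
# Project M3 (MP_fc6b1e_nt, step 2): the field `sm` for `subS (sysB ..) W`
-/

set_option autoImplicit false

namespace Pool.Agent.Helper11.M3

open NumberField Polynomial Module IsDedekindDomain
open Pool.Agent.Helper51.RP Pool.Agent.Helper42.RD Pool.Agent.Helper42.PP Pool.Agent.Helper42.PP1
open Pool.Agent.Helper42.PB Pool.Agent.Helper11.PP Pool.Agent.Helper76.PP Pool.Agent.Helper76.PB
open Pool.Agent.Helper17.PP (Sys)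

theorem fU_add {p : ℕ} {B B₀ k U Λ C : Type} [Field k] [AddCommGroup U] [Module k U]
    [AddCommGroup Λ] [Module k Λ] [AddCommGroup C] (S : Sys p B B₀ k U Λ C) (ψ : AddChar k ℂ)
    (χ : AddChar Λ ℂ) (D : Finset B) (y : B → k) (x z : U) :
    S.fU ψ χ D y (x + z) = S.fU ψ χ D y x * S.fU ψ χ D y z := by
  unfold Sys.fU
  rw [map_add, AddChar.map_add_eq_mul, mul_mul_mul_comm, ← Finset.prod_mul_distrib]
  congr 1
  refine Finset.prod_congr rfl fun q _ => ?_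
  rw [map_add, mul_add, AddChar.map_add_eq_mul]

theorem fU_one {p : ℕ} {B B₀ k U Λ C : Type} [Field k] [AddCommGroup U] [Module k U]
    [AddCommGroup Λ] [Module k Λ] [AddCommGroup C] (S : Sys p B B₀ k U Λ C) (ψ : AddChar k ℂ)
    (χ : AddChar Λ ℂ) (D : Finset B) (y : B → k) (z : U) (h1 : S.lam₀ z = 0)
    (h2 : ∀ q ∈ D, S.res q z = 0) : S.fU ψ χ D y z = 1 := by
  unfold Sys.fU
  rw [h1, AddChar.map_zero_eq_one, one_mul]
  refine Finset.prod_eq_one fun q hq => ?_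
  rw [h2 q hq, mul_zero, AddChar.map_zero_eq_one]

/-- **A_SMO**. -/
theorem a_smo (hSMN : V_SMN) (hZTO : A_ZTO) : A_SMO := by
  intro p hpF K M K₁ M₁ J M₂ _ _ _ _ _ _ _ _ _ _ _ _ _ _ _ _ _ _ _ _ _ _ _ _ ε δ P hirr a₀ hB B D
    n E hN hZK aτ tr ψ₁ htr hψ₁
  obtain ⟨K₀, hK₀, hK⟩ := hSMN p K M K₁ M₁ J M₂ ε δ P a₀ hB B D n E hN aτ tr ψ₁ htr hψ₁
  refine ⟨K₀, hK₀, fun K' hK' W hW => ?_⟩
  intro D' y χ m hm hD' hinj hne hx
  refine hK K' hK' D' y χ m hm hD' hinj hne fun x => ?_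
  have h1 : x ∈ W ⊔ Zt B M₂ := by
    rw [hW]
    trivial
  obtain ⟨w, hw, z, hz, rfl⟩ := Submodule.mem_sup.1 h1
  obtain ⟨h2, h3⟩ := hZTO p K M K₁ M₁ J M₂ ε δ P a₀ hB B D n E aτ hZK z hz
  rw [fU_add, fU_one _ _ _ _ _ z h2 (fun q hq => h3 q (hD' q hq).1), mul_one]
  exact hx ⟨w, hw⟩

end Pool.Agent.Helper11.M3
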